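import Mathlib

/-!
# The reverse operator of a finite subset of a partial order
-/

namespace Pool.Q47.Pan

open Set Function

variable {V : Type*} [PartialOrder V]

/-- The elements of `P` outside the upper ideal `{y | ∃ a ∈ A, a ≤ y}` generated by `A`. -/
def Comp (P A : Set V) : Set V := {y | y ∈ P ∧ ∀ a ∈ A, ¬ a ≤ y}

/-- The reverse operator: the maximal elements of `P ∖ I(A)`. -/
def Rev (P A : Set V) : Set V := {x | Maximal (fun y => y ∈ Comp P A) x}

/-- All orbits of antichains see the same total over `N` steps. -/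
def Good (P : Set V) (N : ℕ) : Prop :=
  ∀ A : Set V, A ⊆ P → IsAntichain (· ≤ ·) A →
    ∑ k ∈ Finset.range N, ((Rev P)^[k] A).ncard = P.ncard

variable {P A B : Set V}

theorem Rev_subset : Rev P A ⊆ P := fun _ hx => hx.prop.1

theorem Rev_antichain : IsAntichain (· ≤ ·) (Rev P A) := by
  intro x hx y hy hne hle
  exact hne (le_antisymm hle (hx.le_of_ge hy.prop hle))

theorem Comp_finite (hP : P.Finite) : (Comp P A).Finite := hP.subset fun _ hy => hy.1

theorem exists_Rev_ge (hP : P.Finite) {x : V} (hx : x ∈ Comp P A) : ∃ m ∈ Rev P A, x ≤ m := by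
  obtain ⟨m, hm, hmax⟩ := (Comp_finite hP).exists_le_maximal hx
  exact ⟨m, hmax, hm⟩

theorem Comp_lower {x y : V} (hx : x ∈ Comp P A) (hy : y ∈ P) (h : y ≤ x) : y ∈ Comp P A :=
  ⟨hy, fun a ha hay => hx.2 a ha (hay.trans h)⟩

/-- the lower set `Comp P A` is the part of `P` below `Rev P A` -/
theorem mem_Comp_iff (hP : P.Finite) {x : V} :
    x ∈ Comp P A ↔ x ∈ P ∧ ∃ m ∈ Rev P A, x ≤ m := by
  constructor
  · intro hx
    exact ⟨hx.1, exists_Rev_ge hP hx⟩
  · rintro ⟨hx, m, hm, hxm⟩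
    exact Comp_lower hm.prop hx hxm

theorem notMem_Comp {x : V} (hx : x ∈ P) (h : x ∉ Comp P A) : ∃ a ∈ A, a ≤ x := by
  by_contra hcon
  push Not at hcon
  exact h ⟨hx, hcon⟩

/-- an antichain is recovered from its complement -/
theorem eq_of_Comp_eq (hA : A ⊆ P) (hB : B ⊆ P) (hA' : IsAntichain (· ≤ ·) A)
    (hB' : IsAntichain (· ≤ ·) B) (h : Comp P A = Comp P B) : A = B := by
  have key : ∀ {A B : Set V}, A ⊆ P → B ⊆ P → IsAntichain (· ≤ ·) A → IsAntichain (· ≤ ·) B →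
      Comp P A = Comp P B → A ⊆ B := by
    intro A B hA hB hA' hB' h x hx
    have h1 : x ∉ Comp P B := by
      rw [← h]
      intro hc
      exact hc.2 x hx le_rfl
    obtain ⟨b, hb, hbx⟩ := notMem_Comp (hA hx) h1
    have h2 : b ∉ Comp P A := by
      rw [h]
      intro hc
      exact hc.2 b hb le_rfl
    obtain ⟨a, ha, hab⟩ := notMem_Comp (hB hb) h2
    have h3 : a = x := by
      by_contra hne
      exact hA' ha hx hne (hab.trans hbx)
    subst h3
    have : b = a := le_antisymm hbx hab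
    exact this ▸ hb
  exact Subset.antisymm (key hA hB hA' hB' h) (key hB hA hB' hA' h.symm)

theorem Rev_injOn (hP : P.Finite) (hA : A ⊆ P) (hB : B ⊆ P) (hA' : IsAntichain (· ≤ ·) A)
    (hB' : IsAntichain (· ≤ ·) B) (h : Rev P A = Rev P B) : A = B := by
  apply eq_of_Comp_eq hA hB hA' hB'
  ext x
  rw [mem_Comp_iff hP, mem_Comp_iff hP, h]

theorem iter_subset (hA : A ⊆ P) (k : ℕ) : (Rev P)^[k] A ⊆ P := by
  cases k with
  | zero => exact hA
  | succ k => rw [iterate_succ_apply']; exact Rev_subset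

theorem iter_antichain (hA : IsAntichain (· ≤ ·) A) (k : ℕ) :
    IsAntichain (· ≤ ·) ((Rev P)^[k] A) := by
  cases k with
  | zero => exact hA
  | succ k => rw [iterate_succ_apply']; exact Rev_antichain

theorem iter_injOn (hP : P.Finite) (hA : A ⊆ P) (hB : B ⊆ P) (hA' : IsAntichain (· ≤ ·) A)
    (hB' : IsAntichain (· ≤ ·) B) (k : ℕ) (h : (Rev P)^[k] A = (Rev P)^[k] B) : A = B := by
  induction k with
  | zero => exact h
  | succ k ih =>
    rw [iterate_succ_apply', iterate_succ_apply'] at h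
    exact ih (Rev_injOn hP (iter_subset hA k) (iter_subset hB k) (iter_antichain hA' k)
      (iter_antichain hB' k) h)

/-! ### Transport -/

section Transport

variable {W : Type*} [PartialOrder W]

theorem Comp_image (f : V → W) (hf : ∀ x ∈ P, ∀ y ∈ P, f x ≤ f y ↔ x ≤ y) (hA : A ⊆ P) :
    Comp (f '' P) (f '' A) = f '' Comp P A := by
  ext y
  constructor
  · rintro ⟨⟨x, hx, rfl⟩, h⟩
    refine ⟨x, ⟨hx, fun a ha hax => ?_⟩, rfl⟩
    exact h (f a) ⟨a, ha, rfl⟩ ((hf a (hA ha) x hx).2 hax)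
  · rintro ⟨x, hx, rfl⟩
    refine ⟨⟨x, hx.1, rfl⟩, ?_⟩
    rintro _ ⟨a, ha, rfl⟩ hax
    exact hx.2 a ha ((hf a (hA ha) x hx.1).1 hax)

theorem inj_of_order (f : V → W) (hf : ∀ x ∈ P, ∀ y ∈ P, f x ≤ f y ↔ x ≤ y) : InjOn f P := by
  intro x hx y hy h
  exact le_antisymm ((hf x hx y hy).1 h.le) ((hf y hy x hx).1 h.ge)

theorem Rev_image (f : V → W) (hf : ∀ x ∈ P, ∀ y ∈ P, f x ≤ f y ↔ x ≤ y) (hA : A ⊆ P) :
    Rev (f '' P) (f '' A) = f '' Rev P A := by
  ext y
  simp only [Rev, mem_setOf_eq]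
  rw [Comp_image f hf hA]
  constructor
  · intro hy
    obtain ⟨x, hx, rfl⟩ := hy.prop
    refine ⟨x, ⟨hx, fun z hz hxz => ?_⟩, rfl⟩
    have := hy.le_of_ge (y := f z) ⟨z, hz, rfl⟩ ((hf x hx.1 z hz.1).2 hxz)
    exact (hf z hz.1 x hx.1).1 this
  · rintro ⟨x, hx, rfl⟩
    refine ⟨⟨x, hx.prop, rfl⟩, ?_⟩
    rintro _ ⟨z, hz, rfl⟩ hxz
    exact (hf z hz.1 x hx.prop.1).2 (hx.le_of_ge hz ((hf x hx.prop.1 z hz.1).1 hxz))

theorem iter_image (f : V → W) (hf : ∀ x ∈ P, ∀ y ∈ P, f x ≤ f y ↔ x ≤ y) (hA : A ⊆ P)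
    (k : ℕ) : (Rev (f '' P))^[k] (f '' A) = f '' ((Rev P)^[k] A) := by
  induction k with
  | zero => rfl
  | succ k ih =>
    rw [iterate_succ_apply', iterate_succ_apply', ih, Rev_image f hf (iter_subset hA k)]

theorem Good.image {N : ℕ} (h : Good P N) (f : V → W)
    (hf : ∀ x ∈ P, ∀ y ∈ P, f x ≤ f y ↔ x ≤ y) : Good (f '' P) N := by
  intro B hB hB'
  obtain ⟨A, hA, rfl⟩ := subset_image_iff.1 hB
  have hA' : IsAntichain (· ≤ ·) A := by
    intro x hx y hy hne hxy
    exact hB' ⟨x, hx, rfl⟩ ⟨y, hy, rfl⟩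
      (fun h => hne (inj_of_order f hf (hA hx) (hA hy) h)) ((hf x (hA hx) y (hA hy)).2 hxy)
  rw [ncard_image_of_injOn (inj_of_order f hf), ← h A hA hA']
  refine Finset.sum_congr rfl fun k _ => ?_
  rw [iter_image f hf hA, ncard_image_of_injOn ((inj_of_order f hf).mono (iter_subset hA k))]

end Transport

/-! ### Orbit averages -/

theorem sum_iter_eq {S : Type*} [DecidableEq S] (O : Finset S) (g : S → S)
    (hg : ∀ x ∈ O, g x ∈ O) (hinj : ∀ x ∈ O, ∀ y ∈ O, g x = g y → x = y) (f : S → ℚ) (k : ℕ) :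
    ∑ x ∈ O, f (g^[k] x) = ∑ x ∈ O, f x := by
  have himg : O.image g = O := by
    apply Finset.eq_of_subset_of_card_le
    · intro y hy
      obtain ⟨x, hx, rfl⟩ := Finset.mem_image.1 hy
      exact hg x hx
    · rw [Finset.card_image_of_injOn (fun x hx y hy h => hinj x hx y hy h)]
  induction k with
  | zero => rfl
  | succ k ih =>
    rw [← ih]
    conv_rhs => rw [← himg]
    rw [Finset.sum_image (fun x hx y hy h => hinj x hx y hy h)]
    rfl

theorem average {S : Type*} [DecidableEq S] (O : Finset S) (g : S → S)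
    (hg : ∀ x ∈ O, g x ∈ O) (hinj : ∀ x ∈ O, ∀ y ∈ O, g x = g y → x = y) (f : S → ℚ) (N : ℕ)
    (c : ℚ) (h : ∀ x ∈ O, ∑ k ∈ Finset.range N, f (g^[k] x) = c) :
    N * ∑ x ∈ O, f x = O.card * c := by
  have h1 : ∑ x ∈ O, ∑ k ∈ Finset.range N, f (g^[k] x) = O.card * c := by
    rw [Finset.sum_congr rfl h, Finset.sum_const, nsmul_eq_mul]
  rw [Finset.sum_comm] at h1
  rw [← h1, Finset.sum_congr rfl (fun k _ => sum_iter_eq O g hg hinj f k), Finset.sum_const,
    Finset.card_range, nsmul_eq_mul]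

/-! ### Cyclic shift registers -/

theorem sum_shift {S : Type*} (X : S → S) (w : ℕ → S → ℕ) (N : ℕ) (hN : 0 < N)
    (h1 : ∀ j x, w (j + N) x = w j x) (Q : S → Prop) (hQ : ∀ x, Q x → Q (X x))
    (h2 : ∀ j x, Q x → w j (X x) = w (j + 1) x) (j : ℕ) (x : S) (hx : Q x) :
    ∑ k ∈ Finset.range N, w j (X^[k] x) = ∑ l ∈ Finset.range N, w l x := by
  have hQk : ∀ k, Q (X^[k] x) := by
    intro k
    induction k with
    | zero => exact hx
    | succ k ih => rw [iterate_succ_apply']; exact hQ _ ih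
  have h3 : ∀ k j, w j (X^[k] x) = w (j + k) x := by
    intro k
    induction k with
    | zero => intro j; rfl
    | succ k ih =>
      intro j
      rw [iterate_succ_apply', h2 j _ (hQk k), ih]
      congr 1
      omega
  have h4 : ∀ j, ∑ k ∈ Finset.range N, w (j + k) x = ∑ l ∈ Finset.range N, w l x := by
    intro j
    induction j with
    | zero => simp
    | succ j ih =>
      rw [← ih]
      obtain ⟨M, rfl⟩ : ∃ M, N = M + 1 := ⟨N - 1, by omega⟩
      rw [Finset.sum_range_succ, Finset.sum_range_succ']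
      congr 1
      · refine Finset.sum_congr rfl fun k _ => ?_
        congr 1
        omega
      · rw [add_zero, ← h1 j x]
        congr 1
        omega
  rw [← h4 j]
  exact Finset.sum_congr rfl fun k _ => h3 k j

end Pool.Q47.Pan
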