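import Pool.Agent.Q47.Pan.Basic

/-!
# Product of two chains
-/

namespace Pool.Q47.Pan

open Set Function

open Classical in
/-- indicator of a proposition -/
noncomputable def ind (p : Prop) : ℕ := if p then 1 else 0

theorem ind_true {p : Prop} (h : p) : ind p = 1 := by simp [ind, h]

theorem ind_false {p : Prop} (h : ¬ p) : ind p = 0 := by simp [ind, h]

theorem ind_le (p : Prop) : ind p ≤ 1 := by unfold ind; split_ifs <;> omega

theorem ind_congr {p q : Prop} (h : p ↔ q) : ind p = ind q := by rw [propext h]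

theorem ind_not {p q : Prop} (h : p ↔ ¬ q) : ind p = 1 - ind q := by
  by_cases hq : q
  · rw [ind_true hq, ind_false (fun hp => h.1 hp hq)]
  · rw [ind_false hq, ind_true (h.2 hq)]

theorem ncard_eq_sum {V : Type*} (A : Set V) (c : V → ℕ) (b : ℕ) (hc : ∀ x ∈ A, c x < b)
    (hinj : InjOn c A) : A.ncard = ∑ j ∈ Finset.range b, ind (∃ x ∈ A, c x = j) := by
  classical
  rw [← hinj.ncard_image]
  have : c '' A = ↑((Finset.range b).filter (fun j => ∃ x ∈ A, c x = j)) := by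
    ext j
    simp only [Finset.coe_filter, Finset.mem_range]
    constructor
    · rintro ⟨x, hx, rfl⟩
      exact ⟨hc x hx, x, hx, rfl⟩
    · rintro ⟨_, x, hx, rfl⟩
      exact ⟨x, hx, rfl⟩
  rw [this, ncard_coe_finset, Finset.card_filter]
  refine Finset.sum_congr rfl fun j _ => ?_
  unfold ind
  congr

/-- the product of a chain with `a` elements and a chain with `b` elements -/
def PC (a b : ℕ) : Set (ℕ × ℕ) := {x | x.1 < a ∧ x.2 < b}

theorem PC_finite (a b : ℕ) : (PC a b).Finite := by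
  have : PC a b = ↑((Finset.range a) ×ˢ (Finset.range b)) := by
    ext x
    simp [PC]
  rw [this]
  exact Finset.finite_toSet _

theorem PC_ncard (a b : ℕ) : (PC a b).ncard = a * b := by
  have : PC a b = ↑((Finset.range a) ×ˢ (Finset.range b)) := by
    ext x
    simp [PC]
  rw [this, ncard_coe_finset]
  simp

section

variable {a b : ℕ} {A : Set (ℕ × ℕ)}

theorem antichain_eq {V : Type*} [PartialOrder V] {A : Set V} (hA : IsAntichain (· ≤ ·) A)
    {x y : V} (hx : x ∈ A) (hy : y ∈ A) (h : x ≤ y) : x = y := by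
  by_contra hne
  exact hA hx hy hne h

theorem PC_col (hA : A ⊆ PC a b) (hA' : IsAntichain (· ≤ ·) A) {j : ℕ} (hj : j + 1 < b) :
    (∃ x ∈ Rev (PC a b) A, x.2 = j) ↔ ∃ x ∈ A, x.2 = j + 1 := by
  constructor
  · rintro ⟨⟨k, j'⟩, hx, hj'⟩
    simp only at hj'
    subst hj'
    have h1 : (k, j' + 1) ∉ Comp (PC a b) A := by
      intro hc
      have := hx.le_of_ge hc (Prod.mk_le_mk.2 ⟨le_rfl, by omega⟩)
      have := (Prod.mk_le_mk.1 this).2
      omega
    have hk := hx.prop.1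
    obtain ⟨⟨i, s⟩, hs, hle⟩ := notMem_Comp (show (k, j' + 1) ∈ PC a b from ⟨hk.1, hj⟩) h1
    refine ⟨(i, s), hs, ?_⟩
    have h2 := hx.prop.2 _ hs
    rw [Prod.mk_le_mk] at hle h2
    simp only
    omega
  · rintro ⟨⟨i, j'⟩, hx, hj'⟩
    simp only at hj'
    subst hj'
    have h1 : (i, j) ∈ Comp (PC a b) A := by
      refine ⟨⟨(hA hx).1, by change j < b; omega⟩, fun y hy hle => ?_⟩
      have h3 : y ≤ (i, j + 1) := hle.trans (Prod.mk_le_mk.2 ⟨le_rfl, by omega⟩)
      have h4 := antichain_eq hA' hy hx h3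
      subst h4
      have := (Prod.mk_le_mk.1 hle).2
      omega
    obtain ⟨⟨k, s⟩, hm, hle⟩ := exists_Rev_ge (PC_finite a b) h1
    refine ⟨_, hm, ?_⟩
    have h2 := hm.prop.2 _ hx
    rw [Prod.mk_le_mk] at hle h2
    simp only
    omega

theorem PC_row (hA : A ⊆ PC a b) (hA' : IsAntichain (· ≤ ·) A) {i : ℕ} (hi : i + 1 < a) :
    (∃ x ∈ Rev (PC a b) A, x.1 = i) ↔ ∃ x ∈ A, x.1 = i + 1 := by
  constructor
  · rintro ⟨⟨i', j⟩, hx, hi'⟩
    simp only at hi'
    subst hi'
    have h1 : (i' + 1, j) ∉ Comp (PC a b) A := by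
      intro hc
      have := hx.le_of_ge hc (Prod.mk_le_mk.2 ⟨by omega, le_rfl⟩)
      have := (Prod.mk_le_mk.1 this).1
      omega
    have hk := hx.prop.1
    obtain ⟨⟨k, s⟩, hs, hle⟩ := notMem_Comp (show (i' + 1, j) ∈ PC a b from ⟨hi, hk.2⟩) h1
    refine ⟨(k, s), hs, ?_⟩
    have h2 := hx.prop.2 _ hs
    rw [Prod.mk_le_mk] at hle h2
    simp only
    omega
  · rintro ⟨⟨i', j⟩, hx, hi'⟩
    simp only at hi'
    subst hi'
    have h1 : (i, j) ∈ Comp (PC a b) A := by
      refine ⟨⟨by change i < a; omega, (hA hx).2⟩, fun y hy hle => ?_⟩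
      have h3 : y ≤ (i + 1, j) := hle.trans (Prod.mk_le_mk.2 ⟨by omega, le_rfl⟩)
      have h4 := antichain_eq hA' hy hx h3
      subst h4
      have := (Prod.mk_le_mk.1 hle).1
      omega
    obtain ⟨⟨k, s⟩, hm, hle⟩ := exists_Rev_ge (PC_finite a b) h1
    refine ⟨_, hm, ?_⟩
    have h2 := hm.prop.2 _ hx
    rw [Prod.mk_le_mk] at hle h2
    simp only
    omega

theorem PC_col_end (hA : A ⊆ PC a b) (ha : 0 < a) (hb : 0 < b) :
    (∃ x ∈ Rev (PC a b) A, x.2 = b - 1) ↔ ¬ ∃ x ∈ A, x.1 = 0 := by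
  constructor
  · rintro ⟨⟨k, j⟩, hx, hj⟩ ⟨⟨i, s⟩, hs, hi⟩
    simp only at hj hi
    subst hj hi
    have h2 := hx.prop.2 _ hs
    have hs2 : s < b := (hA hs).2
    rw [Prod.mk_le_mk] at h2
    exact h2 ⟨by omega, by omega⟩
  · intro h
    have h1 : (0, b - 1) ∈ Comp (PC a b) A := by
      refine ⟨⟨ha, by change b - 1 < b; omega⟩, fun y hy hle => h ⟨y, hy, ?_⟩⟩
      have := (Prod.le_def.1 hle).1
      simp only at this
      omega
    obtain ⟨⟨k, s⟩, hm, hle⟩ := exists_Rev_ge (PC_finite a b) h1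
    refine ⟨_, hm, ?_⟩
    have h2 := hm.prop.1.2
    rw [Prod.mk_le_mk] at hle
    simp only at h2 ⊢
    omega

theorem PC_row_end (hA : A ⊆ PC a b) (ha : 0 < a) (hb : 0 < b) :
    (∃ x ∈ Rev (PC a b) A, x.1 = a - 1) ↔ ¬ ∃ x ∈ A, x.2 = 0 := by
  constructor
  · rintro ⟨⟨k, j⟩, hx, hj⟩ ⟨⟨i, s⟩, hs, hi⟩
    simp only at hj hi
    subst hj hi
    have h2 := hx.prop.2 _ hs
    have hs2 : i < a := (hA hs).1
    rw [Prod.mk_le_mk] at h2
    exact h2 ⟨by omega, by omega⟩
  · intro h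
    have h1 : (a - 1, 0) ∈ Comp (PC a b) A := by
      refine ⟨⟨by change a - 1 < a; omega, hb⟩, fun y hy hle => h ⟨y, hy, ?_⟩⟩
      have := (Prod.le_def.1 hle).2
      simp only at this
      omega
    obtain ⟨⟨k, s⟩, hm, hle⟩ := exists_Rev_ge (PC_finite a b) h1
    refine ⟨_, hm, ?_⟩
    have h2 := hm.prop.1.1
    rw [Prod.mk_le_mk] at hle
    simp only at h2 ⊢
    omega

theorem PC_ncard_col (hA : A ⊆ PC a b) (hA' : IsAntichain (· ≤ ·) A) :
    A.ncard = ∑ j ∈ Finset.range b, ind (∃ x ∈ A, x.2 = j) := by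
  refine ncard_eq_sum A Prod.snd b (fun x hx => (hA hx).2) ?_
  rintro ⟨i, j⟩ hx ⟨i', j'⟩ hy h
  simp only at h
  subst h
  rcases le_total i i' with h | h
  · exact antichain_eq hA' hx hy (Prod.mk_le_mk.2 ⟨h, le_rfl⟩)
  · exact (antichain_eq hA' hy hx (Prod.mk_le_mk.2 ⟨h, le_rfl⟩)).symm

theorem PC_ncard_row (hA : A ⊆ PC a b) (hA' : IsAntichain (· ≤ ·) A) :
    A.ncard = ∑ i ∈ Finset.range a, ind (∃ x ∈ A, x.1 = i) := by
  refine ncard_eq_sum A Prod.fst a (fun x hx => (hA hx).1) ?_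
  rintro ⟨i, j⟩ hx ⟨i', j'⟩ hy h
  simp only at h
  subst h
  rcases le_total j j' with h | h
  · exact antichain_eq hA' hx hy (Prod.mk_le_mk.2 ⟨le_rfl, h⟩)
  · exact (antichain_eq hA' hy hx (Prod.mk_le_mk.2 ⟨le_rfl, h⟩)).symm

/-- the cyclic word of an antichain of `[a] × [b]` -/
noncomputable def wPC (a b : ℕ) (l : ℕ) (A : Set (ℕ × ℕ)) : ℕ :=
  if l % (a + b) < b then ind (∃ x ∈ A, x.2 = l % (a + b))
  else ind (¬ ∃ x ∈ A, x.1 = l % (a + b) - b)

theorem wPC_shift (hA : A ⊆ PC a b) (hA' : IsAntichain (· ≤ ·) A) (ha : 0 < a) (hb : 0 < b)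
    (l : ℕ) : wPC a b l (Rev (PC a b) A) = wPC a b (l + 1) A := by
  unfold wPC
  have hlt : l % (a + b) < a + b := Nat.mod_lt _ (by omega)
  have h1 : (l + 1) % (a + b) = if l % (a + b) + 1 = a + b then 0 else l % (a + b) + 1 := by
    rw [Nat.add_mod_eq_ite]
    by_cases hone : 1 < a + b
    · rw [Nat.mod_eq_of_lt hone]
      split_ifs <;> omega
    · omega
  generalize (l + 1) % (a + b) = m' at h1 ⊢
  generalize l % (a + b) = m at hlt h1 ⊢
  by_cases c1 : m + 1 < b
  · obtain rfl : m' = m + 1 := by rw [h1, if_neg (by omega)]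
    rw [if_pos (by omega), if_pos c1]
    exact ind_congr (PC_col hA hA' c1)
  · by_cases c2 : m + 1 = b
    · obtain rfl : m' = m + 1 := by rw [h1, if_neg (by omega)]
      rw [if_pos (by omega), if_neg (by omega)]
      have : m = b - 1 := by omega
      rw [this, show b - 1 + 1 - b = 0 by omega]
      exact ind_congr (PC_col_end hA ha hb)
    · by_cases c3 : m + 1 = a + b
      · obtain rfl : m' = 0 := by rw [h1, if_pos c3]
        rw [if_neg (by omega), if_pos hb]
        rw [show m - b = a - 1 by omega]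
        apply ind_congr
        rw [PC_row_end hA ha hb, not_not]
      · obtain rfl : m' = m + 1 := by rw [h1, if_neg c3]
        rw [if_neg (by omega), if_neg (by omega)]
        rw [show m + 1 - b = m - b + 1 by omega]
        apply ind_congr
        rw [PC_row hA hA' (by omega)]

theorem wPC_sum (hA : A ⊆ PC a b) (hA' : IsAntichain (· ≤ ·) A) (ha : 0 < a) :
    ∑ l ∈ Finset.range (a + b), wPC a b l A = a := by
  rw [add_comm a b, Finset.sum_range_add]
  have h1 : ∑ l ∈ Finset.range b, wPC a b l A = A.ncard := by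
    rw [PC_ncard_col hA hA']
    refine Finset.sum_congr rfl fun l hl => ?_
    rw [Finset.mem_range] at hl
    unfold wPC
    rw [Nat.mod_eq_of_lt (by omega), if_pos hl]
  have h2 : ∑ l ∈ Finset.range a, wPC a b (b + l) A + A.ncard = a := by
    rw [PC_ncard_row hA hA', ← Finset.sum_add_distrib]
    have : ∀ l ∈ Finset.range a, wPC a b (b + l) A + ind (∃ x ∈ A, x.1 = l) = 1 := by
      intro l hl
      rw [Finset.mem_range] at hl
      unfold wPC
      rw [Nat.mod_eq_of_lt (by omega), if_neg (by omega), show b + l - b = l by omega,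
        ind_not Iff.rfl]
      have := ind_le (∃ x ∈ A, x.1 = l)
      omega
    rw [Finset.sum_congr rfl this]
    simp
  omega

theorem PC_good (ha : 0 < a) (hb : 0 < b) : Good (PC a b) (a + b) := by
  intro A hA hA'
  have hQ : ∀ x : Set (ℕ × ℕ), (x ⊆ PC a b ∧ IsAntichain (· ≤ ·) x) →
      (Rev (PC a b) x ⊆ PC a b ∧ IsAntichain (· ≤ ·) (Rev (PC a b) x)) :=
    fun x _ => ⟨Rev_subset, Rev_antichain⟩
  have h1 : ∀ k, ((Rev (PC a b))^[k] A).ncard =
      ∑ j ∈ Finset.range b, wPC a b j ((Rev (PC a b))^[k] A) := by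
    intro k
    rw [PC_ncard_col (iter_subset hA k) (iter_antichain hA' k)]
    refine Finset.sum_congr rfl fun l hl => ?_
    rw [Finset.mem_range] at hl
    unfold wPC
    rw [Nat.mod_eq_of_lt (by omega), if_pos hl]
  rw [Finset.sum_congr rfl (fun k _ => h1 k), Finset.sum_comm, PC_ncard]
  have h2 : ∀ j ∈ Finset.range b, ∑ k ∈ Finset.range (a + b),
      wPC a b j ((Rev (PC a b))^[k] A) = a := by
    intro j _
    rw [sum_shift (Rev (PC a b)) (wPC a b) (a + b) (by omega)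
      (fun j x => by unfold wPC; rw [Nat.add_mod_right])
      (fun x => x ⊆ PC a b ∧ IsAntichain (· ≤ ·) x) hQ
      (fun j x hx => wPC_shift hx.1 hx.2 ha hb j) j A ⟨hA, hA'⟩, wPC_sum hA hA' ha]
  rw [Finset.sum_congr rfl h2, Finset.sum_const, Finset.card_range, smul_eq_mul, mul_comm]

end

end Pool.Q47.Pan
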