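import Pool.Agent.Q47.Pan.Chain

/-!
# Product of a chain with the double-tailed diamond
-/

namespace Pool.Q47.Pan

open Set Function

theorem exists_below {V : Type*} [PartialOrder V] {P A : Set V} (hP : P.Finite)
    (hA' : IsAntichain (· ≤ ·) A) {x z : V} (hx : x ∈ A) (hz : z ∈ P) (hle : z ≤ x)
    (hne : ¬ x ≤ z) : ∃ m ∈ Rev P A, z ≤ m ∧ ¬ x ≤ m := by
  have h1 : z ∈ Comp P A := by
    refine ⟨hz, fun a ha haz => ?_⟩
    have := antichain_eq hA' ha hx (haz.trans hle)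
    subst this
    exact hne haz
  obtain ⟨m, hm, hzm⟩ := exists_Rev_ge hP h1
  exact ⟨m, hm, hzm, hm.prop.2 x hx⟩

theorem exists_above {V : Type*} [PartialOrder V] {P A : Set V} {m z : V} (hm : m ∈ Rev P A)
    (hz : z ∈ P) (hle : m ≤ z) (hne : ¬ z ≤ m) : ∃ a ∈ A, a ≤ z ∧ ¬ a ≤ m := by
  have h1 : z ∉ Comp P A := fun hc => hne (hm.le_of_ge hc hle)
  obtain ⟨a, ha, haz⟩ := notMem_Comp hz h1
  exact ⟨a, ha, haz, hm.prop.2 a ha⟩

/-- the product of a chain with `a` elements and the double-tailed diamond, whose elements are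
the pairs `(j, j)`, `j < K`, and the two incomparable elements `(s, s-1)` and `(s-1, s)` -/
def PD (a s K : ℕ) : Set (ℕ × ℕ × ℕ) :=
  {x | x.1 < a ∧ x.2.1 < K ∧ x.2.2 < K ∧ (x.2.1 = x.2.2 ∨ (x.2.1 = s ∧ x.2.2 + 1 = s) ∨
    (x.2.1 + 1 = s ∧ x.2.2 = s))}

theorem mem_PD {a s K i u w : ℕ} : (i, u, w) ∈ PD a s K ↔
    i < a ∧ u < K ∧ w < K ∧ (u = w ∨ (u = s ∧ w + 1 = s) ∨ (u + 1 = s ∧ w = s)) := Iff.rfl

theorem le3 {i u w i' u' w' : ℕ} : (i, u, w) ≤ (i', u', w') ↔ i ≤ i' ∧ u ≤ u' ∧ w ≤ w' := by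
  rw [Prod.mk_le_mk, Prod.mk_le_mk]

theorem PD_finite (a s K : ℕ) : (PD a s K).Finite := by
  have : PD a s K ⊆ ↑((Finset.range a) ×ˢ ((Finset.range K) ×ˢ (Finset.range K))) := by
    rintro ⟨i, u, w⟩ hx
    rw [mem_PD] at hx
    simp only [Finset.coe_product, Set.mem_prod, Finset.mem_coe, Finset.mem_range]
    omega
  exact (Finset.finite_toSet _).subset this

theorem PD_ncard {a s K : ℕ} (hs : 0 < s) (hK : s < K) : (PD a s K).ncard = a * (K + 2) := by
  have h1 : PD a s K = ↑((Finset.range a) ×ˢ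
      (((Finset.range K).image (fun j => (j, j))) ∪ {(s, s - 1), (s - 1, s)})) := by
    ext ⟨i, u, w⟩
    rw [mem_PD]
    simp only [Finset.coe_product, Set.mem_prod, Finset.mem_coe, Finset.mem_range,
      Finset.mem_union, Finset.mem_image, Finset.mem_insert, Finset.mem_singleton,
      Prod.mk.injEq]
    constructor
    · rintro ⟨h1, h2, h3, h4 | h4 | h4⟩
      · exact ⟨h1, Or.inl ⟨u, h2, rfl, h4⟩⟩
      · exact ⟨h1, Or.inr (Or.inl (by omega))⟩
      · exact ⟨h1, Or.inr (Or.inr (by omega))⟩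
    · rintro ⟨h1, ⟨j, h2, h3, h4⟩ | h2 | h2⟩
      · exact ⟨h1, by omega, by omega, Or.inl (by omega)⟩
      · exact ⟨h1, by omega, by omega, Or.inr (Or.inl (by omega))⟩
      · exact ⟨h1, by omega, by omega, Or.inr (Or.inr (by omega))⟩
  rw [h1, ncard_coe_finset, Finset.card_product, Finset.card_range]
  congr 1
  rw [Finset.card_union_of_disjoint, Finset.card_image_of_injective, Finset.card_range,
    Finset.card_pair]
  · intro h
    rw [Prod.mk.injEq] at h
    omega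
  · intro i j h
    exact (Prod.mk.injEq _ _ _ _ ▸ h : _ ∧ _).1
  · rw [Finset.disjoint_left]
    intro x hx hx'
    obtain ⟨j, _, rfl⟩ := Finset.mem_image.1 hx
    simp only [Finset.mem_insert, Finset.mem_singleton, Prod.mk.injEq] at hx'
    omega

section

variable {a s K : ℕ} {A : Set (ℕ × ℕ × ℕ)}

/-- the column indicators: the columns of the two incomparable elements are replaced by one,
which is hit when both are hit -/
def colP (s : ℕ) (A : Set (ℕ × ℕ × ℕ)) (l : ℕ) : Prop :=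
  if l < s then ∃ i, (i, l, l) ∈ A else
    if l = s then (∃ i, (i, s, s - 1) ∈ A) ∧ (∃ i, (i, s - 1, s) ∈ A) else
      ∃ i, (i, l - 1, l - 1) ∈ A

theorem PD_diag (hA : A ⊆ PD a s K) (hA' : IsAntichain (· ≤ ·) A) {j : ℕ} (hj : j + 1 < K)
    (hj' : j + 1 < s ∨ s ≤ j) :
    (∃ i, (i, j, j) ∈ Rev (PD a s K) A) ↔ ∃ i, (i, j + 1, j + 1) ∈ A := by
  constructor
  · rintro ⟨k, hk⟩
    have hkP := mem_PD.1 (Rev_subset hk)
    obtain ⟨⟨i, u, w⟩, ha, h1, h2⟩ := exists_above hk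
      (show (k, j + 1, j + 1) ∈ PD a s K from mem_PD.2 (by omega)) (le3.2 (by omega))
      (by rw [le3]; omega)
    have h3 := mem_PD.1 (hA ha)
    rw [le3] at h1 h2
    obtain ⟨rfl, rfl⟩ : u = j + 1 ∧ w = j + 1 := by omega
    exact ⟨i, ha⟩
  · rintro ⟨i, hi⟩
    have hiP := mem_PD.1 (hA hi)
    obtain ⟨⟨k, u, w⟩, hm, h1, h2⟩ := exists_below (PD_finite a s K) hA' hi
      (show (i, j, j) ∈ PD a s K from mem_PD.2 (by omega)) (le3.2 (by omega))
      (by rw [le3]; omega)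
    have h3 := mem_PD.1 (Rev_subset hm)
    rw [le3] at h1 h2
    obtain ⟨rfl, rfl⟩ : u = j ∧ w = j := by omega
    exact ⟨k, hm⟩

theorem PD_mid1 (hA : A ⊆ PD a s K) (hA' : IsAntichain (· ≤ ·) A) (hs : 0 < s) (hK : s < K) :
    (∃ i, (i, s - 1, s - 1) ∈ Rev (PD a s K) A) ↔
      (∃ i, (i, s, s - 1) ∈ A) ∧ (∃ i, (i, s - 1, s) ∈ A) := by
  constructor
  · rintro ⟨k, hk⟩
    have hkP := mem_PD.1 (Rev_subset hk)
    constructor
    · obtain ⟨⟨i, u, w⟩, ha, h1, h2⟩ := exists_above hk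
        (show (k, s, s - 1) ∈ PD a s K from mem_PD.2 (by omega)) (le3.2 (by omega))
        (by rw [le3]; omega)
      have h3 := mem_PD.1 (hA ha)
      rw [le3] at h1 h2
      obtain ⟨rfl, rfl⟩ : u = s ∧ w = s - 1 := by omega
      exact ⟨i, ha⟩
    · obtain ⟨⟨i, u, w⟩, ha, h1, h2⟩ := exists_above hk
        (show (k, s - 1, s) ∈ PD a s K from mem_PD.2 (by omega)) (le3.2 (by omega))
        (by rw [le3]; omega)
      have h3 := mem_PD.1 (hA ha)
      rw [le3] at h1 h2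
      obtain ⟨rfl, rfl⟩ : w = s ∧ u = s - 1 := by omega
      exact ⟨i, ha⟩
  · rintro ⟨⟨i, hi⟩, ⟨j, hj⟩⟩
    have hiP := mem_PD.1 (hA hi)
    have hjP := mem_PD.1 (hA hj)
    rcases le_total i j with hij | hij
    · obtain ⟨⟨k, u, w⟩, hm, h1, h2⟩ := exists_below (PD_finite a s K) hA' hj
        (show (j, s - 1, s - 1) ∈ PD a s K from mem_PD.2 (by omega)) (le3.2 (by omega))
        (by rw [le3]; omega)
      have h3 := mem_PD.1 (Rev_subset hm)
      have h4 := hm.prop.2 _ hi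
      rw [le3] at h1 h2 h4
      obtain ⟨rfl, rfl⟩ : u = s - 1 ∧ w = s - 1 := by omega
      exact ⟨k, hm⟩
    · obtain ⟨⟨k, u, w⟩, hm, h1, h2⟩ := exists_below (PD_finite a s K) hA' hi
        (show (i, s - 1, s - 1) ∈ PD a s K from mem_PD.2 (by omega)) (le3.2 (by omega))
        (by rw [le3]; omega)
      have h3 := mem_PD.1 (Rev_subset hm)
      have h4 := hm.prop.2 _ hj
      rw [le3] at h1 h2 h4
      obtain ⟨rfl, rfl⟩ : u = s - 1 ∧ w = s - 1 := by omega
      exact ⟨k, hm⟩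

theorem PD_mid2 (hA : A ⊆ PD a s K) (hA' : IsAntichain (· ≤ ·) A) (hs : 0 < s) :
    ((∃ i, (i, s, s - 1) ∈ Rev (PD a s K) A) ∧ (∃ i, (i, s - 1, s) ∈ Rev (PD a s K) A)) ↔
      ∃ i, (i, s, s) ∈ A := by
  constructor
  · rintro ⟨⟨i, hi⟩, ⟨j, hj⟩⟩
    have hiP := mem_PD.1 (Rev_subset hi)
    have hjP := mem_PD.1 (Rev_subset hj)
    rcases le_total i j with hij | hij
    · obtain ⟨⟨k, u, w⟩, ha, h1, h2⟩ := exists_above hi
        (show (i, s, s) ∈ PD a s K from mem_PD.2 (by omega)) (le3.2 (by omega))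
        (by rw [le3]; omega)
      have h3 := mem_PD.1 (hA ha)
      have h4 := hj.prop.2 _ ha
      rw [le3] at h1 h2 h4
      obtain ⟨rfl, rfl⟩ : u = s ∧ w = u := by omega
      exact ⟨k, ha⟩
    · obtain ⟨⟨k, u, w⟩, ha, h1, h2⟩ := exists_above hj
        (show (j, s, s) ∈ PD a s K from mem_PD.2 (by omega)) (le3.2 (by omega))
        (by rw [le3]; omega)
      have h3 := mem_PD.1 (hA ha)
      have h4 := hi.prop.2 _ ha
      rw [le3] at h1 h2 h4
      obtain ⟨rfl, rfl⟩ : u = s ∧ w = u := by omega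
      exact ⟨k, ha⟩
  · rintro ⟨i, hi⟩
    have hiP := mem_PD.1 (hA hi)
    constructor
    · obtain ⟨⟨k, u, w⟩, hm, h1, h2⟩ := exists_below (PD_finite a s K) hA' hi
        (show (i, s, s - 1) ∈ PD a s K from mem_PD.2 (by omega)) (le3.2 (by omega))
        (by rw [le3]; omega)
      have h3 := mem_PD.1 (Rev_subset hm)
      rw [le3] at h1 h2
      obtain ⟨rfl, rfl⟩ : u = s ∧ w = s - 1 := by omega
      exact ⟨k, hm⟩
    · obtain ⟨⟨k, u, w⟩, hm, h1, h2⟩ := exists_below (PD_finite a s K) hA' hi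
        (show (i, s - 1, s) ∈ PD a s K from mem_PD.2 (by omega)) (le3.2 (by omega))
        (by rw [le3]; omega)
      have h3 := mem_PD.1 (Rev_subset hm)
      rw [le3] at h1 h2
      obtain ⟨rfl, rfl⟩ : w = s ∧ u = s - 1 := by omega
      exact ⟨k, hm⟩

theorem PD_row (hA : A ⊆ PD a s K) (hA' : IsAntichain (· ≤ ·) A) {i : ℕ} (hi : i + 1 < a) :
    (∃ x ∈ Rev (PD a s K) A, x.1 = i) ↔ ∃ x ∈ A, x.1 = i + 1 := by
  constructor
  · rintro ⟨⟨i', u, w⟩, hx, hi'⟩
    simp only at hi'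
    subst hi'
    have hP := mem_PD.1 (Rev_subset hx)
    obtain ⟨⟨k, u', w'⟩, ha, h1, h2⟩ := exists_above hx
      (show (i' + 1, u, w) ∈ PD a s K from mem_PD.2 (by omega)) (le3.2 (by omega))
      (by rw [le3]; omega)
    rw [le3] at h1 h2
    exact ⟨_, ha, by simp only; omega⟩
  · rintro ⟨⟨i', u, w⟩, hx, hi'⟩
    simp only at hi'
    subst hi'
    have hP := mem_PD.1 (hA hx)
    obtain ⟨⟨k, u', w'⟩, hm, h1, h2⟩ := exists_below (PD_finite a s K) hA' hx
      (show (i, u, w) ∈ PD a s K from mem_PD.2 (by omega)) (le3.2 (by omega))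
      (by rw [le3]; omega)
    rw [le3] at h1 h2
    exact ⟨_, hm, by simp only; omega⟩

theorem PD_col_end (hA : A ⊆ PD a s K) (ha : 0 < a) (hK : s < K) :
    (∃ i, (i, K - 1, K - 1) ∈ Rev (PD a s K) A) ↔ ¬ ∃ x ∈ A, x.1 = 0 := by
  constructor
  · rintro ⟨k, hk⟩ ⟨⟨i, u, w⟩, hx, hi⟩
    simp only at hi
    subst hi
    have h1 := hk.prop.2 _ hx
    have h2 := mem_PD.1 (hA hx)
    rw [le3] at h1
    omega
  · intro h
    have h1 : (0, K - 1, K - 1) ∈ Comp (PD a s K) A := by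
      refine ⟨mem_PD.2 (by omega), fun y hy hle => h ⟨y, hy, ?_⟩⟩
      obtain ⟨i, u, w⟩ := y
      rw [le3] at hle
      simp only
      omega
    obtain ⟨⟨k, u, w⟩, hm, hle⟩ := exists_Rev_ge (PD_finite a s K) h1
    have h2 := mem_PD.1 (Rev_subset hm)
    rw [le3] at hle
    obtain ⟨rfl, rfl⟩ : u = K - 1 ∧ w = u := by omega
    exact ⟨k, hm⟩

theorem PD_row_end (hA : A ⊆ PD a s K) (ha : 0 < a) (hs : 0 < s) (hK : s < K) :
    (∃ x ∈ Rev (PD a s K) A, x.1 = a - 1) ↔ ¬ ∃ i, (i, 0, 0) ∈ A := by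
  constructor
  · rintro ⟨⟨k, u, w⟩, hk, hk'⟩ ⟨i, hi⟩
    simp only at hk'
    subst hk'
    have h1 := hk.prop.2 _ hi
    have h2 := mem_PD.1 (hA hi)
    rw [le3] at h1
    omega
  · intro h
    have h1 : (a - 1, 0, 0) ∈ Comp (PD a s K) A := by
      refine ⟨mem_PD.2 (by omega), fun y hy hle => ?_⟩
      obtain ⟨i, u, w⟩ := y
      rw [le3] at hle
      obtain ⟨rfl, rfl⟩ : u = 0 ∧ w = 0 := by omega
      exact h ⟨i, hy⟩
    obtain ⟨⟨k, u, w⟩, hm, hle⟩ := exists_Rev_ge (PD_finite a s K) h1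
    have h2 := mem_PD.1 (Rev_subset hm)
    rw [le3] at hle
    exact ⟨_, hm, by simp only; omega⟩

theorem colP_shift (hA : A ⊆ PD a s K) (hA' : IsAntichain (· ≤ ·) A) (hs : 0 < s) (hK : s < K)
    {l : ℕ} (hl : l < K) : colP s (Rev (PD a s K) A) l ↔ colP s A (l + 1) := by
  unfold colP
  by_cases c1 : l + 1 < s
  · rw [if_pos (by omega), if_pos c1]
    exact PD_diag hA hA' (by omega) (Or.inl c1)
  · by_cases c2 : l + 1 = s
    · rw [if_pos (by omega), if_neg c1, if_pos c2]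
      obtain rfl : l = s - 1 := by omega
      exact PD_mid1 hA hA' hs hK
    · by_cases c3 : l = s
      · rw [if_neg (by omega), if_pos c3, if_neg (by omega), if_neg (by omega)]
        subst c3
        exact PD_mid2 hA hA' hs
      · rw [if_neg (by omega), if_neg c3, if_neg (by omega), if_neg (by omega)]
        have := PD_diag hA hA' (j := l - 1) (by omega) (Or.inr (by omega))
        rw [show l - 1 + 1 = l by omega] at this
        exact this

/-- the cyclic word -/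
noncomputable def wPD (a s K : ℕ) (l : ℕ) (A : Set (ℕ × ℕ × ℕ)) : ℕ :=
  if l % (a + (K + 1)) < K + 1 then ind (colP s A (l % (a + (K + 1))))
  else ind (¬ ∃ x ∈ A, x.1 = l % (a + (K + 1)) - (K + 1))

theorem wPD_shift (hA : A ⊆ PD a s K) (hA' : IsAntichain (· ≤ ·) A) (ha : 0 < a) (hs : 0 < s)
    (hK : s < K) (l : ℕ) : wPD a s K l (Rev (PD a s K) A) = wPD a s K (l + 1) A := by
  unfold wPD
  have hlt : l % (a + (K + 1)) < a + (K + 1) := Nat.mod_lt _ (by omega)
  have h1 : (l + 1) % (a + (K + 1)) =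
      if l % (a + (K + 1)) + 1 = a + (K + 1) then 0 else l % (a + (K + 1)) + 1 := by
    rw [Nat.add_mod_eq_ite]
    rw [Nat.mod_eq_of_lt (show 1 < a + (K + 1) by omega)]
    split_ifs <;> omega
  generalize (l + 1) % (a + (K + 1)) = m' at h1 ⊢
  generalize l % (a + (K + 1)) = m at hlt h1 ⊢
  by_cases c1 : m + 1 < K + 1
  · obtain rfl : m' = m + 1 := by rw [h1, if_neg (by omega)]
    rw [if_pos (by omega), if_pos c1]
    exact ind_congr (colP_shift hA hA' hs hK (by omega))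
  · by_cases c2 : m = K
    · obtain rfl : m' = m + 1 := by rw [h1, if_neg (by omega)]
      rw [if_pos (by omega), if_neg (by omega)]
      subst c2
      rw [show m + 1 - (m + 1) = 0 by omega]
      apply ind_congr
      unfold colP
      rw [if_neg (by omega), if_neg (by omega)]
      exact PD_col_end hA ha hK
    · by_cases c3 : m + 1 = a + (K + 1)
      · obtain rfl : m' = 0 := by rw [h1, if_pos c3]
        rw [if_neg (by omega), if_pos (by omega)]
        rw [show m - (K + 1) = a - 1 by omega]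
        apply ind_congr
        unfold colP
        rw [PD_row_end hA ha hs hK, not_not, if_pos hs]
      · obtain rfl : m' = m + 1 := by rw [h1, if_neg c3]
        rw [if_neg (by omega), if_neg (by omega)]
        rw [show m + 1 - (K + 1) = m - (K + 1) + 1 by omega]
        apply ind_congr
        rw [PD_row hA hA' (by omega)]

/-- index of the column of an element -/
def cix (K : ℕ) (x : ℕ × ℕ × ℕ) : ℕ :=
  if x.2.1 = x.2.2 then x.2.1 else if x.2.2 < x.2.1 then K else K + 1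

theorem ind_and_or (p q : Prop) : ind p + ind q = ind (p ∧ q) + ind (p ∨ q) := by
  by_cases hp : p <;> by_cases hq : q <;> simp [ind, hp, hq]

theorem PD_ncard_col (hA : A ⊆ PD a s K) (hA' : IsAntichain (· ≤ ·) A) (hs : 0 < s)
    (hK : s < K) : A.ncard = ∑ l ∈ Finset.range (K + 1), ind (colP s A l) +
      ind ((∃ i, (i, s, s - 1) ∈ A) ∨ (∃ i, (i, s - 1, s) ∈ A)) := by
  have h0 : A.ncard = ∑ j ∈ Finset.range (K + 2), ind (∃ x ∈ A, cix K x = j) := by
    refine ncard_eq_sum A (cix K) (K + 2) ?_ ?_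
    · rintro ⟨i, u, w⟩ hx
      have := mem_PD.1 (hA hx)
      unfold cix
      simp only
      split_ifs <;> omega
    · rintro ⟨i, u, w⟩ hx ⟨i', u', w'⟩ hy h
      have h1 := mem_PD.1 (hA hx)
      have h2 := mem_PD.1 (hA hy)
      have h3 : u = u' ∧ w = w' := by
        unfold cix at h
        simp only at h
        split_ifs at h <;> omega
      obtain ⟨rfl, rfl⟩ := h3
      rcases le_total i i' with h | h
      · exact antichain_eq hA' hx hy (le3.2 ⟨h, le_rfl, le_rfl⟩)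
      · exact (antichain_eq hA' hy hx (le3.2 ⟨h, le_rfl, le_rfl⟩)).symm
  have hd : ∀ j < K, (∃ x ∈ A, cix K x = j) ↔ ∃ i, (i, j, j) ∈ A := by
    intro j hj
    constructor
    · rintro ⟨⟨i, u, w⟩, hx, h⟩
      unfold cix at h
      simp only at h
      have h3 : u = j ∧ w = j := by split_ifs at h <;> omega
      obtain ⟨rfl, rfl⟩ := h3
      exact ⟨i, hx⟩
    · rintro ⟨i, hi⟩
      exact ⟨_, hi, by simp [cix]⟩
  have hy : (∃ x ∈ A, cix K x = K) ↔ ∃ i, (i, s, s - 1) ∈ A := by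
    constructor
    · rintro ⟨⟨i, u, w⟩, hx, h⟩
      have h1 := mem_PD.1 (hA hx)
      unfold cix at h
      simp only at h
      have h3 : u = s ∧ w = s - 1 := by split_ifs at h <;> omega
      obtain ⟨rfl, rfl⟩ := h3
      exact ⟨i, hx⟩
    · rintro ⟨i, hi⟩
      refine ⟨_, hi, ?_⟩
      unfold cix
      simp only
      split_ifs <;> omega
  have hy' : (∃ x ∈ A, cix K x = K + 1) ↔ ∃ i, (i, s - 1, s) ∈ A := by
    constructor
    · rintro ⟨⟨i, u, w⟩, hx, h⟩
      have h1 := mem_PD.1 (hA hx)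
      unfold cix at h
      simp only at h
      have h3 : w = s ∧ u = s - 1 := by split_ifs at h <;> omega
      obtain ⟨rfl, rfl⟩ := h3
      exact ⟨i, hx⟩
    · rintro ⟨i, hi⟩
      refine ⟨_, hi, ?_⟩
      unfold cix
      simp only
      split_ifs <;> omega
  have h1 : ∑ j ∈ Finset.range K, ind (∃ x ∈ A, cix K x = j) =
      ∑ j ∈ Finset.range K, ind (∃ i, (i, j, j) ∈ A) :=
    Finset.sum_congr rfl fun j hj => ind_congr (hd j (Finset.mem_range.1 hj))
  -- the sum over the positions of the word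
  have h2 : ∑ l ∈ Finset.range (K + 1), ind (colP s A l) =
      ∑ j ∈ Finset.range K, ind (∃ i, (i, j, j) ∈ A) +
        ind ((∃ i, (i, s, s - 1) ∈ A) ∧ (∃ i, (i, s - 1, s) ∈ A)) := by
    obtain ⟨M, rfl⟩ : ∃ M, K = s + M := ⟨K - s, by omega⟩
    rw [show s + M + 1 = s + (M + 1) by omega, Finset.sum_range_add, Finset.sum_range_succ',
      Finset.sum_range_add]
    have e1 : ∑ l ∈ Finset.range s, ind (colP s A l) =
        ∑ j ∈ Finset.range s, ind (∃ i, (i, j, j) ∈ A) := by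
      refine Finset.sum_congr rfl fun j hj => ind_congr ?_
      unfold colP
      rw [if_pos (Finset.mem_range.1 hj)]
    have e2 : ∑ l ∈ Finset.range M, ind (colP s A (s + (l + 1))) =
        ∑ j ∈ Finset.range M, ind (∃ i, (i, s + j, s + j) ∈ A) := by
      refine Finset.sum_congr rfl fun j hj => ind_congr ?_
      unfold colP
      rw [if_neg (by omega), if_neg (by omega), show s + (j + 1) - 1 = s + j by omega]
    have e3 : ind (colP s A (s + 0)) =
        ind ((∃ i, (i, s, s - 1) ∈ A) ∧ (∃ i, (i, s - 1, s) ∈ A)) := by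
      apply ind_congr
      unfold colP
      rw [if_neg (by omega), if_pos (by omega)]
    rw [e1, e2, e3]
    omega
  rw [h0, Finset.sum_range_succ, Finset.sum_range_succ, h1, h2, ind_congr hy, ind_congr hy',
    add_assoc, add_assoc, ind_and_or]

theorem PD_ncard_row (hA : A ⊆ PD a s K) (hA' : IsAntichain (· ≤ ·) A) (hs : 0 < s) :
    A.ncard = ∑ i ∈ Finset.range a, ind (∃ x ∈ A, x.1 = i) +
      ind (∃ i, (i, s, s - 1) ∈ A ∧ (i, s - 1, s) ∈ A) := by
  have hfin : A.Finite := (PD_finite a s K).subset hA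
  by_cases h : ∃ i, (i, s, s - 1) ∈ A ∧ (i, s - 1, s) ∈ A
  · rw [ind_true h]
    obtain ⟨i, hi, hi'⟩ := h
    have h1 : (A \ {(i, s - 1, s)}).ncard + 1 = A.ncard := ncard_diff_singleton_add_one hi' hfin
    rw [← h1]
    congr 1
    rw [ncard_eq_sum (A \ {(i, s - 1, s)}) Prod.fst a]
    · refine Finset.sum_congr rfl fun j _ => ind_congr ?_
      constructor
      · rintro ⟨x, hx, h⟩
        exact ⟨x, hx.1, h⟩
      · rintro ⟨x, hx, h⟩
        by_cases hxe : x = (i, s - 1, s)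
        · refine ⟨(i, s, s - 1), ⟨hi, ?_⟩, ?_⟩
          · intro hc
            rw [mem_singleton_iff, Prod.mk.injEq, Prod.mk.injEq] at hc
            omega
          · rw [← h, hxe]
        · exact ⟨x, ⟨hx, hxe⟩, h⟩
    · intro x hx
      exact (hA hx.1).1
    · rintro ⟨j, u, w⟩ hx ⟨j', u', w'⟩ hy h
      simp only at h
      subst h
      have h1 := mem_PD.1 (hA hx.1)
      have h2 := mem_PD.1 (hA hy.1)
      by_contra hne
      have h3 : ¬ (j, u, w) ≤ (j, u', w') := fun hle => hne (antichain_eq hA' hx.1 hy.1 hle)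
      have h4 : ¬ (j, u', w') ≤ (j, u, w) := fun hle =>
        hne (antichain_eq hA' hy.1 hx.1 hle).symm
      rw [le3] at h3 h4
      -- one of the two is of type `(s-1, s)`
      have h5 : (u = s - 1 ∧ w = s) ∨ (u' = s - 1 ∧ w' = s) := by omega
      rcases h5 with ⟨rfl, rfl⟩ | ⟨rfl, rfl⟩
      · apply hx.2
        rw [mem_singleton_iff]
        have : i = j := by
          have := antichain_eq hA' (x := (i, w - 1, w)) (y := (j, w - 1, w))
          rcases le_total i j with h | h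
          · exact (Prod.mk.injEq _ _ _ _ ▸ antichain_eq hA' hi' hx.1 (le3.2 ⟨h, le_rfl, le_rfl⟩) : _ ∧ _).1
          · exact ((Prod.mk.injEq _ _ _ _ ▸ antichain_eq hA' hx.1 hi' (le3.2 ⟨h, le_rfl, le_rfl⟩) : _ ∧ _).1).symm
        rw [this]
      · apply hy.2
        rw [mem_singleton_iff]
        have : i = j := by
          rcases le_total i j with h | h
          · exact (Prod.mk.injEq _ _ _ _ ▸ antichain_eq hA' hi' hy.1 (le3.2 ⟨h, le_rfl, le_rfl⟩) : _ ∧ _).1
          · exact ((Prod.mk.injEq _ _ _ _ ▸ antichain_eq hA' hy.1 hi' (le3.2 ⟨h, le_rfl, le_rfl⟩) : _ ∧ _).1).symm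
        rw [this]
  · rw [ind_false h, add_zero]
    refine ncard_eq_sum A Prod.fst a (fun x hx => (hA hx).1) ?_
    rintro ⟨j, u, w⟩ hx ⟨j', u', w'⟩ hy hj
    simp only at hj
    subst hj
    have h1 := mem_PD.1 (hA hx)
    have h2 := mem_PD.1 (hA hy)
    by_contra hne
    have h3 : ¬ (j, u, w) ≤ (j, u', w') := fun hle => hne (antichain_eq hA' hx hy hle)
    have h4 : ¬ (j, u', w') ≤ (j, u, w) := fun hle => hne (antichain_eq hA' hy hx hle).symm
    rw [le3] at h3 h4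
    have h5 : (u = s - 1 ∧ w = s ∧ u' = s ∧ w' = s - 1) ∨
      (u' = s - 1 ∧ w' = s ∧ u = s ∧ w = s - 1) := by omega
    rcases h5 with ⟨rfl, rfl, rfl, rfl⟩ | ⟨rfl, rfl, rfl, rfl⟩
    · exact h ⟨j, hy, hx⟩
    · exact h ⟨j, hx, hy⟩

theorem wPD_low {l : ℕ} (hl : l < K + 1) : wPD a s K l A = ind (colP s A l) := by
  unfold wPD
  rw [Nat.mod_eq_of_lt (by omega), if_pos hl]

theorem wPD_sum (hA : A ⊆ PD a s K) (hA' : IsAntichain (· ≤ ·) A)
    (hs : 0 < s) (hK : s < K) :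
    ∑ l ∈ Finset.range (a + (K + 1)), wPD a s K l A +
      ind ((∃ i, (i, s, s - 1) ∈ A) ∨ (∃ i, (i, s - 1, s) ∈ A)) =
      a + ind (∃ i, (i, s, s - 1) ∈ A ∧ (i, s - 1, s) ∈ A) := by
  rw [add_comm a (K + 1), Finset.sum_range_add]
  have h1 : ∑ l ∈ Finset.range (K + 1), wPD a s K l A =
      ∑ l ∈ Finset.range (K + 1), ind (colP s A l) :=
    Finset.sum_congr rfl fun l hl => wPD_low (Finset.mem_range.1 hl)
  have h2 : ∑ l ∈ Finset.range a, wPD a s K (K + 1 + l) A +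
      ∑ l ∈ Finset.range a, ind (∃ x ∈ A, x.1 = l) = a := by
    rw [← Finset.sum_add_distrib]
    have : ∀ l ∈ Finset.range a, wPD a s K (K + 1 + l) A + ind (∃ x ∈ A, x.1 = l) = 1 := by
      intro l hl
      rw [Finset.mem_range] at hl
      unfold wPD
      rw [Nat.mod_eq_of_lt (by omega), if_neg (by omega), show K + 1 + l - (K + 1) = l by omega,
        ind_not Iff.rfl]
      have := ind_le (∃ x ∈ A, x.1 = l)
      omega
    rw [Finset.sum_congr rfl this]
    simp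
  have h3 := PD_ncard_col hA hA' hs hK
  have h4 := PD_ncard_row hA hA' hs
  omega

theorem PD_good (ha : 0 < a) (hs : 0 < s) (hK : s < K) : Good (PD a s K) (a + (K + 1)) := by
  intro A hA hA'
  have hQ : ∀ x : Set (ℕ × ℕ × ℕ), (x ⊆ PD a s K ∧ IsAntichain (· ≤ ·) x) →
      (Rev (PD a s K) x ⊆ PD a s K ∧ IsAntichain (· ≤ ·) (Rev (PD a s K) x)) :=
    fun x _ => ⟨Rev_subset, Rev_antichain⟩
  have hkQ : ∀ k, ((Rev (PD a s K))^[k] A) ⊆ PD a s K ∧
    IsAntichain (· ≤ ·) ((Rev (PD a s K))^[k] A) := fun k =>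
      ⟨iter_subset hA k, iter_antichain hA' k⟩
  set S := ∑ l ∈ Finset.range (a + (K + 1)), wPD a s K l A with hS
  -- every position of the word has total `S` over `N` steps
  have h2 : ∀ B : Set (ℕ × ℕ × ℕ), B ⊆ PD a s K → IsAntichain (· ≤ ·) B → ∀ j,
      ∑ k ∈ Finset.range (a + (K + 1)), wPD a s K j ((Rev (PD a s K))^[k] B) =
        ∑ l ∈ Finset.range (a + (K + 1)), wPD a s K l B := by
    intro B hB hB' j
    exact sum_shift (Rev (PD a s K)) (wPD a s K) (a + (K + 1)) (by omega)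
      (fun j x => by unfold wPD; rw [Nat.add_mod_right])
      (fun x => x ⊆ PD a s K ∧ IsAntichain (· ≤ ·) x) hQ
      (fun j x hx => wPD_shift hx.1 hx.2 ha hs hK j) j B ⟨hB, hB'⟩
  -- the letter sum is invariant
  have h3 : ∀ k, ∑ l ∈ Finset.range (a + (K + 1)), wPD a s K l ((Rev (PD a s K))^[k] A) = S := by
    intro k
    induction k with
    | zero => rfl
    | succ k ih =>
      rw [iterate_succ_apply', ← ih]
      obtain ⟨hB, hB'⟩ := hkQ k
      have e1 : ∀ l ∈ Finset.range (a + (K + 1)),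
          wPD a s K l (Rev (PD a s K) ((Rev (PD a s K))^[k] A)) =
            wPD a s K (l + 1) ((Rev (PD a s K))^[k] A) :=
        fun l _ => wPD_shift hB hB' ha hs hK l
      rw [Finset.sum_congr rfl e1, show a + (K + 1) = a + K + 1 by omega,
        Finset.sum_range_succ, Finset.sum_range_succ' (fun l => wPD a s K l _)]
      congr 1
      unfold wPD
      rw [show a + K + 1 = 0 + (a + (K + 1)) by omega, Nat.add_mod_right]
  have h4 : ∀ k, S + ind ((∃ i, (i, s, s - 1) ∈ (Rev (PD a s K))^[k] A) ∨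
      (∃ i, (i, s - 1, s) ∈ (Rev (PD a s K))^[k] A)) = a +
        ind (∃ i, (i, s, s - 1) ∈ (Rev (PD a s K))^[k] A ∧
          (i, s - 1, s) ∈ (Rev (PD a s K))^[k] A) := by
    intro k
    rw [← h3 k]
    exact wPD_sum (hkQ k).1 (hkQ k).2 hs hK
  have h5 : ∀ k, ((Rev (PD a s K))^[k] A).ncard =
      ∑ l ∈ Finset.range (K + 1), wPD a s K l ((Rev (PD a s K))^[k] A) +
        ind ((∃ i, (i, s, s - 1) ∈ (Rev (PD a s K))^[k] A) ∨
      (∃ i, (i, s - 1, s) ∈ (Rev (PD a s K))^[k] A)) := by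
    intro k
    rw [PD_ncard_col (hkQ k).1 (hkQ k).2 hs hK]
    congr 1
    exact Finset.sum_congr rfl fun l hl => (wPD_low (Finset.mem_range.1 hl)).symm
  rw [Finset.sum_congr rfl (fun k _ => h5 k), Finset.sum_add_distrib, Finset.sum_comm,
    Finset.sum_congr rfl (fun j _ => h2 A hA hA' j), Finset.sum_const, Finset.card_range,
    ← hS, smul_eq_mul, PD_ncard hs hK]
  -- the two cases
  have himp : ∀ B : Set (ℕ × ℕ × ℕ), ind (∃ i, (i, s, s - 1) ∈ B ∧ (i, s - 1, s) ∈ B) ≤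
      ind ((∃ i, (i, s, s - 1) ∈ B) ∧ (∃ i, (i, s - 1, s) ∈ B)) := by
    intro B
    by_cases h : ∃ i, (i, s, s - 1) ∈ B ∧ (i, s - 1, s) ∈ B
    · obtain ⟨i, h1, h2⟩ := h
      rw [ind_true (p := (∃ i, (i, s, s - 1) ∈ B) ∧ (∃ i, (i, s - 1, s) ∈ B)) ⟨⟨i, h1⟩, ⟨i, h2⟩⟩]
      exact ind_le _
    · rw [ind_false h]; exact Nat.zero_le _
  have himp2 : ∀ B : Set (ℕ × ℕ × ℕ),
      ind ((∃ i, (i, s, s - 1) ∈ B) ∧ (∃ i, (i, s - 1, s) ∈ B)) ≤
      ind ((∃ i, (i, s, s - 1) ∈ B) ∨ (∃ i, (i, s - 1, s) ∈ B)) := by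
    intro B
    by_cases h : (∃ i, (i, s, s - 1) ∈ B) ∧ (∃ i, (i, s - 1, s) ∈ B)
    · rw [ind_true (p := (∃ i, (i, s, s - 1) ∈ B) ∨ (∃ i, (i, s - 1, s) ∈ B)) (Or.inl h.1)]
      exact ind_le _
    · rw [ind_false h]; exact Nat.zero_le _
  by_cases hSa : S = a
  · have h6 : ∀ k ∈ Finset.range (a + (K + 1)),
        ind ((∃ i, (i, s, s - 1) ∈ (Rev (PD a s K))^[k] A) ∨
          (∃ i, (i, s - 1, s) ∈ (Rev (PD a s K))^[k] A)) =
        wPD a s K s ((Rev (PD a s K))^[k] A) := by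
      intro k _
      have e1 := h4 k
      have e2 := himp ((Rev (PD a s K))^[k] A)
      have e3 := himp2 ((Rev (PD a s K))^[k] A)
      rw [wPD_low (by omega)]
      have e4 : ind (colP s ((Rev (PD a s K))^[k] A) s) =
          ind ((∃ i, (i, s, s - 1) ∈ (Rev (PD a s K))^[k] A) ∧
            (∃ i, (i, s - 1, s) ∈ (Rev (PD a s K))^[k] A)) := by
        apply ind_congr
        unfold colP
        rw [if_neg (by omega), if_pos rfl]
      rw [e4]
      omega
    rw [Finset.sum_congr rfl h6, h2 A hA hA' s, ← hS, hSa]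
    ring
  · have h7 : S + 1 = a := by
      have e1 := h4 0
      have e2 := himp ((Rev (PD a s K))^[0] A)
      have e3 := himp2 ((Rev (PD a s K))^[0] A)
      have e4 := ind_le ((∃ i, (i, s, s - 1) ∈ (Rev (PD a s K))^[0] A) ∨
          (∃ i, (i, s - 1, s) ∈ (Rev (PD a s K))^[0] A))
      omega
    have h6 : ∀ k ∈ Finset.range (a + (K + 1)),
        ind ((∃ i, (i, s, s - 1) ∈ (Rev (PD a s K))^[k] A) ∨
          (∃ i, (i, s - 1, s) ∈ (Rev (PD a s K))^[k] A)) = 1 := by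
      intro k _
      have e1 := h4 k
      have e4 := ind_le ((∃ i, (i, s, s - 1) ∈ (Rev (PD a s K))^[k] A) ∨
          (∃ i, (i, s - 1, s) ∈ (Rev (PD a s K))^[k] A))
      omega
    rw [Finset.sum_congr rfl h6, Finset.sum_const, Finset.card_range, smul_eq_mul, ← h7]
    ring

end

end Pool.Q47.Pan
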