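import Pool.Agent.Q47.Pan.Chain

/-!
# The shifted staircase
-/

namespace Pool.Q47.Pan

open Set Function

/-- the shifted staircase -/
def SS (n : ℕ) : Set (ℕ × ℕ) := {x | x.2 ≤ x.1 ∧ x.1 < n}

/-- folding the square onto the staircase -/
def fold (x : ℕ × ℕ) : ℕ × ℕ := (max x.1 x.2, min x.1 x.2)

/-- the symmetric subset of the square given by a subset of the staircase -/
def til (n : ℕ) (A : Set (ℕ × ℕ)) : Set (ℕ × ℕ) := {x | x ∈ PC n n ∧ fold x ∈ A}

theorem SS_finite (n : ℕ) : (SS n).Finite :=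
  (PC_finite n n).subset fun x hx => ⟨hx.2, lt_of_le_of_lt hx.1 hx.2⟩

variable {n : ℕ} {A : Set (ℕ × ℕ)}

theorem fold_mono {x y : ℕ × ℕ} (h : x ≤ y) : fold x ≤ fold y := by
  obtain ⟨x1, x2⟩ := x
  obtain ⟨y1, y2⟩ := y
  rw [Prod.mk_le_mk] at h
  unfold fold
  rw [Prod.mk_le_mk]
  simp only
  omega

theorem fold_mem {x : ℕ × ℕ} (h : x ∈ PC n n) : fold x ∈ SS n := by
  obtain ⟨x1, x2⟩ := x
  obtain ⟨h1, h2⟩ := h
  simp only at h1 h2
  refine ⟨?_, ?_⟩ <;> simp only [fold] <;> omega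

theorem fold_of_SS {x : ℕ × ℕ} (h : x ∈ SS n) : fold x = x := by
  obtain ⟨x1, x2⟩ := x
  have h1 := h.1
  simp only at h1
  simp only [fold, Prod.mk.injEq]
  omega

theorem SS_sub_PC {x : ℕ × ℕ} (h : x ∈ SS n) : x ∈ PC n n := ⟨h.2, lt_of_le_of_lt h.1 h.2⟩

theorem swap_mem_PC {x : ℕ × ℕ} (h : x ∈ PC n n) : x.swap ∈ PC n n := ⟨h.2, h.1⟩

theorem fold_swap (x : ℕ × ℕ) : fold x.swap = fold x := by
  simp only [fold, Prod.fst_swap, Prod.snd_swap, max_comm, min_comm]

theorem fold_cases (x : ℕ × ℕ) : x = fold x ∨ x = (fold x).swap := by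
  obtain ⟨x1, x2⟩ := x
  simp only [fold, Prod.mk.injEq, Prod.swap_prod_mk]
  omega

/-- if `fold x` dominates `a` in the staircase then `x` dominates `a` or its mirror -/
theorem le_fold {x a : ℕ × ℕ} (h : a ≤ fold x) : a ≤ x ∨ a.swap ≤ x := by
  rcases fold_cases x with hx | hx
  · left; rw [hx]; exact h
  · right; rw [hx]; exact Prod.swap_le_swap.2 h

theorem til_comp (hA : A ⊆ SS n) {x : ℕ × ℕ} (hx : x ∈ PC n n) :
    x ∈ Comp (PC n n) (til n A) ↔ fold x ∈ Comp (SS n) A := by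
  constructor
  · intro h
    refine ⟨fold_mem hx, fun a ha hle => ?_⟩
    rcases le_fold hle with h1 | h1
    · exact h.2 a ⟨SS_sub_PC (hA ha), by rw [fold_of_SS (hA ha)]; exact ha⟩ h1
    · exact h.2 a.swap ⟨swap_mem_PC (SS_sub_PC (hA ha)), by
        rw [fold_swap, fold_of_SS (hA ha)]; exact ha⟩ h1
  · intro h
    exact ⟨hx, fun a ha hle => h.2 _ ha.2 (fold_mono hle)⟩

theorem til_Rev (hA : A ⊆ SS n) : Rev (PC n n) (til n A) = til n (Rev (SS n) A) := by
  ext x
  constructor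
  · intro hx
    have hxP := hx.prop.1
    refine ⟨hxP, (til_comp hA hxP).1 hx.prop, fun y hy hle => ?_⟩
    rcases fold_cases x with h | h
    · have h1 : y ∈ Comp (PC n n) (til n A) := by
        rw [til_comp hA (SS_sub_PC hy.1), fold_of_SS hy.1]; exact hy
      have h2 := hx.le_of_ge h1 (by rw [h]; exact hle)
      have := fold_mono h2
      rwa [fold_of_SS hy.1] at this
    · have h1 : y.swap ∈ Comp (PC n n) (til n A) := by
        rw [til_comp hA (swap_mem_PC (SS_sub_PC hy.1)), fold_swap, fold_of_SS hy.1]; exact hy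
      have h2 := hx.le_of_ge h1 (by rw [h]; exact Prod.swap_le_swap.2 hle)
      have := fold_mono h2
      rwa [fold_swap, fold_of_SS hy.1] at this
  · rintro ⟨hxP, hx⟩
    refine ⟨(til_comp hA hxP).2 hx.prop, fun y hy hle => ?_⟩
    have h1 := hx.le_of_ge ((til_comp hA hy.1).1 hy) (fold_mono hle)
    -- `x ≤ y` and `fold x = fold y` give `x = y`
    have h2 : fold x = fold y := le_antisymm (fold_mono hle) h1
    obtain ⟨x1, x2⟩ := x
    obtain ⟨y1, y2⟩ := y
    simp only [fold, Prod.mk.injEq] at h2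
    rw [Prod.mk_le_mk] at hle ⊢
    omega

theorem til_subset : til n A ⊆ PC n n := fun _ h => h.1

theorem til_antichain (hA' : IsAntichain (· ≤ ·) A) : IsAntichain (· ≤ ·) (til n A) := by
  intro x hx y hy hne hle
  have h2 : fold x = fold y := antichain_eq hA' hx.2 hy.2 (fold_mono hle)
  apply hne
  obtain ⟨x1, x2⟩ := x
  obtain ⟨y1, y2⟩ := y
  simp only [fold, Prod.mk.injEq] at h2 ⊢
  have hle' := Prod.mk_le_mk.1 hle
  omega

theorem til_eq (hA : A ⊆ SS n) : til n A = A ∪ Prod.swap '' A := by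
  ext x
  constructor
  · rintro ⟨hx, hf⟩
    rcases fold_cases x with h | h
    · left; rw [h]; exact hf
    · right; exact ⟨fold x, hf, h.symm⟩
  · rintro (h | ⟨y, hy, rfl⟩)
    · exact ⟨SS_sub_PC (hA h), by rw [fold_of_SS (hA h)]; exact h⟩
    · exact ⟨swap_mem_PC (SS_sub_PC (hA hy)), by rw [fold_swap, fold_of_SS (hA hy)]; exact hy⟩

theorem til_ncard (hA : A ⊆ SS n) :
    (til n A).ncard + {x ∈ A | x.1 = x.2}.ncard = 2 * A.ncard := by
  have hfin : A.Finite := (SS_finite n).subset hA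
  rw [til_eq hA]
  have h1 : {x ∈ A | x.1 = x.2} = A ∩ Prod.swap '' A := by
    ext x
    constructor
    · rintro ⟨hx, h⟩
      refine ⟨hx, x, hx, ?_⟩
      exact Prod.ext h.symm h
    · rintro ⟨hx, y, hy, rfl⟩
      have h1 := (hA hx).1
      have h2 := (hA hy).1
      simp only [Prod.fst_swap, Prod.snd_swap] at h1
      exact ⟨hx, by simp only [Prod.fst_swap, Prod.snd_swap]; omega⟩
  rw [h1, ncard_union_add_ncard_inter A (Prod.swap '' A) hfin (hfin.image _),
    ncard_image_of_injective _ Prod.swap_injective]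
  omega

theorem til_SS : til n (SS n) = PC n n := by
  ext x
  exact ⟨fun h => h.1, fun h => ⟨h, fold_mem h⟩⟩

theorem SS_diag : {x ∈ SS n | x.1 = x.2}.ncard = n := by
  have : {x ∈ SS n | x.1 = x.2} = (fun i => (i, i)) '' (Finset.range n : Set ℕ) := by
    ext ⟨i, j⟩
    constructor
    · rintro ⟨⟨h1, h2⟩, h⟩
      simp only at h h2
      subst h
      exact ⟨i, by simpa using h2, rfl⟩
    · rintro ⟨k, hk, h⟩
      simp only [Prod.mk.injEq] at h
      obtain ⟨rfl, rfl⟩ := h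
      exact ⟨⟨le_rfl, by simpa using hk⟩, rfl⟩
  rw [this, ncard_image_of_injective _ (fun i j h => (Prod.mk.injEq _ _ _ _ ▸ h : _ ∧ _).1),
    ncard_coe_finset, Finset.card_range]

theorem SS_ncard : 2 * (SS n).ncard = n * n + n := by
  rw [← til_ncard (subset_refl (SS n)), til_SS, PC_ncard, SS_diag]

theorem diag_ind (hA' : IsAntichain (· ≤ ·) A) :
    {x ∈ A | x.1 = x.2}.ncard = ind (∃ x ∈ A, x.1 = x.2) := by
  by_cases h : ∃ x ∈ A, x.1 = x.2
  · rw [ind_true h]
    obtain ⟨x, hx, hxx⟩ := h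
    rw [ncard_eq_one]
    refine ⟨x, ?_⟩
    ext y
    constructor
    · rintro ⟨hy, hyy⟩
      obtain ⟨x1, x2⟩ := x
      obtain ⟨y1, y2⟩ := y
      simp only at hxx hyy
      subst hxx hyy
      rcases le_total x1 y1 with h | h
      · exact (antichain_eq hA' hx hy (Prod.mk_le_mk.2 ⟨h, h⟩)).symm
      · exact (antichain_eq hA' hy hx (Prod.mk_le_mk.2 ⟨h, h⟩))
    · rintro rfl
      exact ⟨hx, hxx⟩
  · rw [ind_false h]
    have : {x ∈ A | x.1 = x.2} = ∅ := by
      ext x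
      constructor
      · rintro ⟨hx, hxx⟩; exact (h ⟨x, hx, hxx⟩).elim
      · intro hx; exact hx.elim
    rw [this, ncard_empty]

theorem SS_diag_flip (hA : A ⊆ SS n) (hA' : IsAntichain (· ≤ ·) A) (hn : 0 < n) :
    (∃ x ∈ Rev (SS n) A, x.1 = x.2) ↔ ¬ ∃ x ∈ A, x.1 = x.2 := by
  constructor
  · rintro ⟨⟨x1, x2⟩, hx, hxx⟩ ⟨⟨y1, y2⟩, hy, hyy⟩
    simp only at hxx hyy
    subst hxx hyy
    -- x1 < y1
    have h0 := hx.prop.2 _ hy
    rw [Prod.mk_le_mk] at h0
    have hyn : y1 < n := (hA hy).2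
    have h1 : (x1 + 1, x1) ∉ Comp (SS n) A := by
      intro hc
      have := hx.le_of_ge hc (Prod.mk_le_mk.2 ⟨by omega, le_rfl⟩)
      have := (Prod.mk_le_mk.1 this).1
      omega
    obtain ⟨⟨a1, a2⟩, ha, hle⟩ := notMem_Comp (show (x1 + 1, x1) ∈ SS n from
      ⟨by change x1 ≤ x1 + 1; omega, by change x1 + 1 < n; omega⟩) h1
    have h2 := hx.prop.2 _ ha
    have h3 := (hA ha).1
    simp only at h3
    rw [Prod.mk_le_mk] at hle h2
    have h4 : (a1, a2) = (y1, y1) := antichain_eq hA' ha hy (Prod.mk_le_mk.2 ⟨by omega, by omega⟩)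
    rw [Prod.mk.injEq] at h4
    omega
  · intro h
    -- the largest diagonal element of the complement
    have h0 : (0, 0) ∈ Comp (SS n) A := by
      refine ⟨⟨le_rfl, hn⟩, fun y hy hle => h ⟨y, hy, ?_⟩⟩
      have h1 := (Prod.le_def.1 hle).1
      have h2 := (Prod.le_def.1 hle).2
      simp only at h1 h2
      omega
    have hfin : {x ∈ Comp (SS n) A | x.1 = x.2}.Finite :=
      (Comp_finite (SS_finite n)).subset fun x hx => hx.1
    obtain ⟨⟨k, k'⟩, hle, hmax⟩ := hfin.exists_le_maximal (show (0, 0) ∈ {x ∈ Comp (SS n) A | x.1 = x.2}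
      from ⟨h0, rfl⟩)
    have hkk : k = k' := hmax.prop.2
    subst hkk
    refine ⟨(k, k), ⟨hmax.prop.1, ?_⟩, rfl⟩
    rintro ⟨y1, y2⟩ hy hky
    rw [Prod.mk_le_mk] at hky ⊢
    by_contra hcon
    have hy1 := hy.1.1
    have hy2 := hy.1.2
    simp only at hy1 hy2
    -- so `(k+1, k)` is in the complement
    have h1 : (k + 1, k) ∈ Comp (SS n) A :=
      Comp_lower hy ⟨by change k ≤ k + 1; omega, by change k + 1 < n; omega⟩
        (Prod.mk_le_mk.2 ⟨by omega, by omega⟩)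
    have h2 : (k + 1, k + 1) ∉ Comp (SS n) A := by
      intro hc
      have := hmax.le_of_ge (y := (k + 1, k + 1)) ⟨hc, rfl⟩ (Prod.mk_le_mk.2 ⟨by omega, by omega⟩)
      have := (Prod.mk_le_mk.1 this).1
      omega
    obtain ⟨⟨a1, a2⟩, ha, hle⟩ := notMem_Comp (show (k + 1, k + 1) ∈ SS n from
      ⟨le_rfl, by change k + 1 < n; omega⟩) h2
    have h3 := h1.2 _ ha
    have h4 := (hA ha).1
    simp only at h4
    rw [Prod.mk_le_mk] at hle h3
    exact h ⟨(a1, a2), ha, by simp only; omega⟩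

theorem til_iter (hA : A ⊆ SS n) (k : ℕ) :
    (Rev (PC n n))^[k] (til n A) = til n ((Rev (SS n))^[k] A) := by
  induction k with
  | zero => rfl
  | succ k ih =>
    rw [iterate_succ_apply', iterate_succ_apply', ih, til_Rev (iter_subset hA k)]

theorem sum_alt (f : ℕ → ℕ) (h : ∀ k, f k + f (k + 1) = 1) (n : ℕ) :
    ∑ k ∈ Finset.range (n + n), f k = n := by
  induction n with
  | zero => rfl
  | succ n ih =>
    rw [show n + 1 + (n + 1) = n + n + 1 + 1 by omega, Finset.sum_range_succ,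
      Finset.sum_range_succ, ih]
    have := h (n + n)
    omega

theorem SS_good (hn : 0 < n) : Good (SS n) (n + n) := by
  intro A hA hA'
  have h1 := PC_good hn hn (til n A) til_subset (til_antichain hA')
  have h2 : ∀ k, ((Rev (PC n n))^[k] (til n A)).ncard +
      ind (∃ x ∈ (Rev (SS n))^[k] A, x.1 = x.2) = 2 * ((Rev (SS n))^[k] A).ncard := by
    intro k
    rw [til_iter hA, ← diag_ind (iter_antichain hA' k), til_ncard (iter_subset hA k)]
  have h3 : ∑ k ∈ Finset.range (n + n), ind (∃ x ∈ (Rev (SS n))^[k] A, x.1 = x.2) = n := by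
    apply sum_alt
    intro k
    rw [iterate_succ_apply', ind_not (SS_diag_flip (iter_subset hA k) (iter_antichain hA' k) hn)]
    have := ind_le (∃ x ∈ (Rev (SS n))^[k] A, x.1 = x.2)
    omega
  have h4 : 2 * ∑ k ∈ Finset.range (n + n), ((Rev (SS n))^[k] A).ncard = n * n + n := by
    rw [Finset.mul_sum, ← Finset.sum_congr rfl (fun k _ => h2 k), Finset.sum_add_distrib, h1, h3,
      PC_ncard]
  have h5 := SS_ncard (n := n)
  omega

end Pool.Q47.Pan
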