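import Pool.Agent.Q47.Pan.Fine
import Pool.Agent.Q47.Pan.Stair

/-!
# Type `C`
-/

namespace Pool.Q47.Pan

open Set Function CartanMatrix

/-- coordinates of the roots of type `C` -/
def vC (n a b : ℕ) (s t c : ℤ) (k : ℕ) : ℤ := if k + 1 < n then s * u a k + t * u b k else c

/-- the roots of type `C` -/
def PhiC (n : ℕ) (v : Fin n → ℤ) : Prop :=
  ∃ a b s t c, a < n ∧ b < n ∧ (s = 1 ∨ s = -1) ∧ (t = 1 ∨ t = -1) ∧ s + t = 2 * c ∧
    (a ≠ b ∨ s = t) ∧ v = res n (vC n a b s t c)

theorem vC_lt {n a b : ℕ} {s t c : ℤ} {k : ℕ} (h : k + 1 < n) :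
    vC n a b s t c k = s * u a k + t * u b k := by
  unfold vC; rw [if_pos h]

theorem vC_last {n a b : ℕ} {s t c : ℤ} {k : ℕ} (h : ¬ k + 1 < n) : vC n a b s t c k = c := by
  unfold vC; rw [if_neg h]

theorem PhiC_of_root {n : ℕ} (hn : 2 ≤ n) {v : Fin n → ℤ} (h : IsRoot (C n) v) : PhiC n v := by
  refine IsRoot.forall_of (PhiC n) ?_ ?_ h
  · intro j
    have hj := j.2
    by_cases c : (j : ℕ) + 1 < n
    · refine ⟨j, j + 1, 1, -1, 0, by omega, by omega, Or.inl rfl, Or.inr rfl, by omega,
        Or.inl (by omega), ?_⟩
      funext k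
      have h1 := k.2
      rw [single_eq_res, res_apply, res_apply]
      unfold vC u
      split_ifs <;> omega
    · refine ⟨j, j, 1, 1, 1, by omega, by omega, Or.inl rfl, Or.inl rfl, by omega,
        Or.inr rfl, ?_⟩
      funext k
      have h1 := k.2
      rw [single_eq_res, res_apply, res_apply]
      unfold vC u
      split_ifs <;> omega
  · rintro ⟨j, hj⟩ v ⟨a, b, s, t, c, ha, hb, hs, ht, hc, hab, rfl⟩
    by_cases c1 : j + 1 < n
    · refine ⟨sw j a, sw j b, s, t, c, sw_lt ha c1, sw_lt hb c1, hs, ht, hc, ?_,
          sref_res j hj ?_ ?_⟩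
      · rcases hab with hab | hab
        · exact Or.inl (sw_ne hab)
        · exact Or.inr hab
      · rw [pairC, if_pos c1, vC_lt c1, vC_lt c1, u_sw_self, u_sw_self]
        have e0 : (if 0 < j then vC n a b s t c (j - 1) else 0) =
            s * (if 0 < j then u a (j - 1) else 0) + t * (if 0 < j then u b (j - 1) else 0) := by
          by_cases c2 : 0 < j
          · rw [if_pos c2, if_pos c2, if_pos c2, vC_lt (by omega)]
          · rw [if_neg c2, if_neg c2, if_neg c2]; ring
        rw [e0]
        have e1 : (if j + 2 = n then 2 * vC n a b s t c (j + 1) else vC n a b s t c (j + 1)) =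
            s * u a (j + 1) + t * u b (j + 1) := by
          by_cases c2 : j + 2 = n
          · rw [if_pos c2, vC_last (by omega), u_le (by omega), u_le (by omega)]
            omega
          · rw [if_neg c2, vC_lt (by omega)]
        rw [e1]
        ring
      · intro k _ hkj
        by_cases c2 : k + 1 < n
        · rw [vC_lt c2, vC_lt c2, u_sw_ne hkj, u_sw_ne hkj]
        · rw [vC_last c2, vC_last c2]
    · refine ⟨a, b, if a + 1 = n then -s else s, if b + 1 = n then -t else t,
          - c + s * u a (n - 2) + t * u b (n - 2), ha, hb, ?_, ?_, ?_, ?_, sref_res j hj ?_ ?_⟩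
      · rcases hs with rfl | rfl <;> split_ifs <;> simp
      · rcases ht with rfl | rfl <;> split_ifs <;> simp
      · rcases hs with rfl | rfl <;> rcases ht with rfl | rfl <;> unfold u <;>
          split_ifs <;> omega
      · rcases hab with hab | rfl
        · exact Or.inl hab
        · by_cases c2 : a = b
          · subst c2; exact Or.inr rfl
          · exact Or.inl c2
      · obtain rfl : j = n - 1 := by omega
        have e1 : vC n a b s t c (n - 1) = c := vC_last (by omega)
        have e2 : vC n a b s t c (n - 1 - 1) = s * u a (n - 2) + t * u b (n - 2) := by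
          rw [vC_lt (by omega), show n - 1 - 1 = n - 2 by omega]
        have e3 : vC n a b (if a + 1 = n then -s else s) (if b + 1 = n then -t else t)
          (- c + s * u a (n - 2) + t * u b (n - 2)) (n - 1) =
            - c + s * u a (n - 2) + t * u b (n - 2) := vC_last (by omega)
        rw [pairC, if_pos (by omega), if_neg (by omega), e1, e2, e3]
        ring
      · intro k hkn hkj
        rw [vC_lt (by omega), vC_lt (by omega)]
        by_cases c2 : a + 1 = n
        · by_cases c3 : b + 1 = n
          · rw [u_lt (show k < a by omega), u_lt (show k < b by omega)]; ring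
          · rw [if_neg c3, u_lt (show k < a by omega)]; ring
        · by_cases c3 : b + 1 = n
          · rw [if_neg c2, u_lt (show k < b by omega)]; ring
          · rw [if_neg c2, if_neg c3]

/-! ### nodes other than the last one -/

/-- the roots with coefficient `1` at `i < n - 1` -/
def gC (n i p q : ℕ) (k : ℕ) : ℤ := if k ≤ i then (if i ≤ k + p then 1 else 0) else
  (if k ≤ i + q then 1 else 0) + (if k + 1 < n ∧ 2 * n ≤ k + q + i + 2 then 1 else 0)

theorem gC_root0 {n i : ℕ} (hi : i + 1 < n) (q : ℕ) (hq : q < 2 * (n - 1 - i)) :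
    IsRoot (C n) (res n (gC n i 0 q)) := by
  induction q with
  | zero =>
    refine IsRoot.base _ i (by omega) fun k _ => ?_
    unfold gC
    split_ifs <;> omega
  | succ q ih =>
    by_cases h1 : q + 1 ≤ n - 1 - i
    · refine IsRoot.step (i + q + 1) (by omega) (ih (by omega)) ?_ ?_
      · rw [pairC]
        unfold gC
        try simp (disch := omega) only [if_pos, if_neg]
        try first | omega | (split_ifs <;> omega)
      · intro k _ hk
        unfold gC
        try simp (disch := omega) only [if_pos, if_neg]
        try first | omega | (split_ifs <;> omega)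
    · refine IsRoot.step (2 * n - 2 - i - (q + 1)) (by omega) (ih (by omega)) ?_ ?_
      · rw [pairC]
        unfold gC
        try simp (disch := omega) only [if_pos, if_neg]
        try first | omega | (split_ifs <;> omega)
      · intro k _ hk
        unfold gC
        try simp (disch := omega) only [if_pos, if_neg]
        try first | omega | (split_ifs <;> omega)

theorem gC_root {n i : ℕ} (hi : i + 1 < n) (p q : ℕ) (hp : p ≤ i) (hq : q < 2 * (n - 1 - i)) :
    IsRoot (C n) (res n (gC n i p q)) := by
  induction p with
  | zero => exact gC_root0 hi q hq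
  | succ p ih =>
    refine IsRoot.step (i - p - 1) (by omega) (ih (by omega)) ?_ ?_
    · rw [pairC]
      unfold gC
      try simp (disch := omega) only [if_pos, if_neg]
      try first | omega | (split_ifs <;> omega)
    · intro k _ hk
      unfold gC
      try simp (disch := omega) only [if_pos, if_neg]
      try first | omega | (split_ifs <;> omega)

theorem DeltaC {n i : ℕ} (hi : i + 1 < n) :
    Delta1 (C n) ⟨i, by omega⟩ =
      (fun x : ℕ × ℕ => res n (gC n i x.1 x.2)) '' PC (i + 1) (2 * (n - 1 - i)) := by
  ext v
  constructor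
  · rintro ⟨hv, hvi⟩
    obtain ⟨a, b, s, t, c, ha, hb, hs, ht, hc, hab, rfl⟩ := PhiC_of_root (by omega) hv
    have hvi' : s * u a i + t * u b i = 1 := by
      rw [← vC_lt (c := c) hi]; exact hvi
    have h1 : (a ≤ i ∧ i < b ∧ s = 1) ∨ (b ≤ i ∧ i < a ∧ t = 1) := by
      unfold u at hvi'
      rcases hs with rfl | rfl <;> rcases ht with rfl | rfl <;> split_ifs at hvi' <;> omega
    rcases h1 with ⟨h1, h2, rfl⟩ | ⟨h1, h2, rfl⟩
    · rcases ht with rfl | rfl
      · obtain rfl : c = 1 := by omega
        refine ⟨(i - a, 2 * n - 2 - i - b), ⟨by simp only; omega, by simp only; omega⟩, ?_⟩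
        funext k
        have := k.2
        simp only [res_apply]
        unfold gC vC u
        try simp (disch := omega) only [if_pos, if_neg]
        try first | omega | (split_ifs <;> omega)
      · obtain rfl : c = 0 := by omega
        refine ⟨(i - a, b - 1 - i), ⟨by simp only; omega, by simp only; omega⟩, ?_⟩
        funext k
        have := k.2
        simp only [res_apply]
        unfold gC vC u
        try simp (disch := omega) only [if_pos, if_neg]
        try first | omega | (split_ifs <;> omega)
    · rcases hs with rfl | rfl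
      · obtain rfl : c = 1 := by omega
        refine ⟨(i - b, 2 * n - 2 - i - a), ⟨by simp only; omega, by simp only; omega⟩, ?_⟩
        funext k
        have := k.2
        simp only [res_apply]
        unfold gC vC u
        try simp (disch := omega) only [if_pos, if_neg]
        try first | omega | (split_ifs <;> omega)
      · obtain rfl : c = 0 := by omega
        refine ⟨(i - b, a - 1 - i), ⟨by simp only; omega, by simp only; omega⟩, ?_⟩
        funext k
        have := k.2
        simp only [res_apply]
        unfold gC vC u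
        try simp (disch := omega) only [if_pos, if_neg]
        try first | omega | (split_ifs <;> omega)
  · rintro ⟨⟨p, q⟩, ⟨hp, hq⟩, rfl⟩
    simp only at hp hq ⊢
    refine ⟨gC_root hi p q (by omega) (by omega), ?_⟩
    change gC n i p q i = 1
    unfold gC
    try simp (disch := omega) only [if_pos, if_neg]

theorem ordC {n i : ℕ} (hi : i + 1 < n) : ∀ x ∈ PC (i + 1) (2 * (n - 1 - i)),
    ∀ y ∈ PC (i + 1) (2 * (n - 1 - i)),
    (fun x : ℕ × ℕ => res n (gC n i x.1 x.2)) x ≤ (fun x : ℕ × ℕ => res n (gC n i x.1 x.2)) y ↔
      x ≤ y := by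
  rintro ⟨p, q⟩ ⟨hp, hq⟩ ⟨p', q'⟩ ⟨hp', hq'⟩
  simp only at hp hq hp' hq' ⊢
  rw [Prod.mk_le_mk]
  constructor
  · intro h
    have h1 : gC n i p q (i - p) ≤ gC n i p' q' (i - p) := h ⟨i - p, by omega⟩
    constructor
    · unfold gC at h1
      split_ifs at h1 <;> omega
    · by_cases c : q ≤ n - 1 - i
      · have h2 : gC n i p q (i + q) ≤ gC n i p' q' (i + q) := h ⟨i + q, by omega⟩
        unfold gC at h2
        clear h1
        split_ifs at h2 <;> omega
      · have h2 : gC n i p q (2 * n - 2 - i - q) ≤ gC n i p' q' (2 * n - 2 - i - q) :=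
          h ⟨2 * n - 2 - i - q, by omega⟩
        unfold gC at h2
        clear h1
        split_ifs at h2 <;> omega
  · rintro ⟨h1, h2⟩ ⟨k, hk⟩
    rw [res_apply, res_apply]
    simp only
    unfold gC
    split_ifs <;> omega

theorem fineC {n i : ℕ} (hi : i + 1 < n) : Fine (C n) ⟨i, by omega⟩ := by
  refine Fine.of_model (P := PC (i + 1) (2 * (n - 1 - i)))
    (N := (i + 1) + (2 * (n - 1 - i))) (by omega)
    (PC_finite _ _) (PC_good (by omega) (by omega)) (fun x => res n (gC n i x.1 x.2))
    (DeltaC hi) (ordC hi) (i, 2 * (n - 1 - i) - 1) ⟨by simp only; omega, by simp only; omega⟩ ?_ ?_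
  · rintro ⟨p, q⟩ ⟨hp, hq⟩
    simp only at hp hq
    exact Prod.mk_le_mk.2 ⟨by omega, by omega⟩
  · simp only
    rw [ht_res, Finset.sum_congr rfl (g := fun k => u 0 k + (u (i + 1) k - u (n - 1) k)),
      Finset.sum_add_distrib, Finset.sum_sub_distrib, sum_u, sum_u, sum_u]
    · omega
    · intro k hk
      rw [Finset.mem_range] at hk
      unfold gC u
      try simp (disch := omega) only [if_pos, if_neg]
      try first | omega | (split_ifs <;> omega)

/-! ### the last node -/

/-- the roots with coefficient `1` at the last node -/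
def gS (n p q : ℕ) (k : ℕ) : ℤ := if k + 1 < n then
  (if n ≤ k + 1 + p then 1 else 0) + (if n ≤ k + 1 + q then 1 else 0) else 1

theorem gS_root_diag {n : ℕ} (hn : 2 ≤ n) (p : ℕ) (hp : p < n) :
    IsRoot (C n) (res n (gS n p p)) := by
  induction p with
  | zero =>
    refine IsRoot.base _ (n - 1) (by omega) fun k _ => ?_
    unfold gS
    split_ifs <;> omega
  | succ p ih =>
    refine IsRoot.step (n - 2 - p) (by omega) (ih (by omega)) ?_ ?_
    · rw [pairC]
      unfold gS
      try simp (disch := omega) only [if_pos, if_neg]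
      try first | omega | (split_ifs <;> omega)
    · intro k _ hk
      unfold gS
      try simp (disch := omega) only [if_pos, if_neg]
      try first | omega | (split_ifs <;> omega)

theorem gS_root_zero {n : ℕ} (hn : 2 ≤ n) (p : ℕ) (hp : p + 1 < n) :
    IsRoot (C n) (res n (gS n (p + 1) 0)) := by
  induction p with
  | zero =>
    refine IsRoot.step (V := fun k => if k = n - 2 then 1 else 0) (n - 1) (by omega)
      (IsRoot.base _ (n - 2) (by omega) fun k _ => rfl) ?_ ?_
    · rw [pairC]
      unfold gS
      try simp (disch := omega) only [if_pos, if_neg]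
      try first | omega | (split_ifs <;> omega)
    · intro k _ hk
      unfold gS
      try simp (disch := omega) only [if_pos, if_neg]
      try first | omega | (split_ifs <;> omega)
  | succ p ih =>
    refine IsRoot.step (n - 2 - (p + 1)) (by omega) (ih (by omega)) ?_ ?_
    · rw [pairC]
      unfold gS
      try simp (disch := omega) only [if_pos, if_neg]
      try first | omega | (split_ifs <;> omega)
    · intro k _ hk
      unfold gS
      try simp (disch := omega) only [if_pos, if_neg]
      try first | omega | (split_ifs <;> omega)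

theorem gS_root_off {n : ℕ} (hn : 2 ≤ n) (p q : ℕ) (hp : p < n) (hq : q < p) :
    IsRoot (C n) (res n (gS n p q)) := by
  induction q with
  | zero =>
    have := gS_root_zero hn (p - 1) (by omega)
    rwa [show p - 1 + 1 = p by omega] at this
  | succ q ih =>
    refine IsRoot.step (n - 2 - q) (by omega) (ih (by omega)) ?_ ?_
    · rw [pairC]
      unfold gS
      try simp (disch := omega) only [if_pos, if_neg]
      try first | omega | (split_ifs <;> omega)
    · intro k _ hk
      unfold gS
      try simp (disch := omega) only [if_pos, if_neg]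
      try first | omega | (split_ifs <;> omega)

theorem DeltaCS {n : ℕ} (hn : 2 ≤ n) : Delta1 (C n) ⟨n - 1, by omega⟩ =
    (fun x : ℕ × ℕ => res n (gS n x.1 x.2)) '' SS n := by
  ext v
  constructor
  · rintro ⟨hv, hvi⟩
    obtain ⟨a, b, s, t, c, ha, hb, hs, ht, hc, hab, rfl⟩ := PhiC_of_root (by omega) hv
    have hvi' : c = 1 := by
      rw [← vC_last (n := n) (a := a) (b := b) (s := s) (t := t) (c := c) (k := n - 1) (by omega)]
      exact hvi
    subst hvi'
    obtain rfl : s = 1 := by omega
    obtain rfl : t = 1 := by omega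
    rcases le_total a b with h | h
    · refine ⟨(n - 1 - a, n - 1 - b), ⟨by simp only; omega, by simp only; omega⟩, ?_⟩
      funext k
      have := k.2
      simp only [res_apply]
      unfold gS vC u
      split_ifs <;> omega
    · refine ⟨(n - 1 - b, n - 1 - a), ⟨by simp only; omega, by simp only; omega⟩, ?_⟩
      funext k
      have := k.2
      simp only [res_apply]
      unfold gS vC u
      split_ifs <;> omega
  · rintro ⟨⟨p, q⟩, ⟨hp, hq⟩, rfl⟩
    simp only at hp hq ⊢
    constructor
    · by_cases h : p = q
      · subst h; exact gS_root_diag hn p hq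
      · exact gS_root_off hn p q hq (by omega)
    · change gS n p q (n - 1) = 1
      unfold gS
      rw [if_neg (by omega)]

theorem ordCS {n : ℕ} : ∀ x ∈ SS n, ∀ y ∈ SS n,
    (fun x : ℕ × ℕ => res n (gS n x.1 x.2)) x ≤ (fun x : ℕ × ℕ => res n (gS n x.1 x.2)) y ↔
      x ≤ y := by
  rintro ⟨p, q⟩ ⟨hp, hq⟩ ⟨p', q'⟩ ⟨hp', hq'⟩
  simp only at hp hq hp' hq' ⊢
  rw [Prod.mk_le_mk]
  constructor
  · intro h
    have h1 : gS n p q (n - 1 - p) ≤ gS n p' q' (n - 1 - p) := h ⟨n - 1 - p, by omega⟩
    have h2 : gS n p q (n - 1 - q) ≤ gS n p' q' (n - 1 - q) := h ⟨n - 1 - q, by omega⟩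
    unfold gS at h1 h2
    constructor
    · clear h2
      split_ifs at h1 <;> omega
    · clear h1
      split_ifs at h2 <;> omega
  · rintro ⟨h1, h2⟩ ⟨k, hk⟩
    rw [res_apply, res_apply]
    simp only
    unfold gS
    split_ifs <;> omega

theorem fineCS {n : ℕ} (hn : 2 ≤ n) : Fine (C n) ⟨n - 1, by omega⟩ := by
  refine Fine.of_model (P := SS n) (N := n + n) (by omega)
    (SS_finite _) (SS_good (by omega)) (fun x => res n (gS n x.1 x.2))
    (DeltaCS hn) ordCS (n - 1, n - 1) ⟨by simp only; omega, by simp only; omega⟩ ?_ ?_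
  · rintro ⟨p, q⟩ ⟨hp, hq⟩
    simp only at hp hq
    exact Prod.mk_le_mk.2 ⟨by omega, by omega⟩
  · simp only
    rw [ht_res, Finset.sum_congr rfl (g := fun k => u 0 k + (u 0 k - u (n - 1) k)),
      Finset.sum_add_distrib, Finset.sum_sub_distrib, sum_u, sum_u]
    · omega
    · intro k hk
      rw [Finset.mem_range] at hk
      unfold gS u
      split_ifs <;> omega

end Pool.Q47.Pan
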