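import Pool.Agent.Q47.Pan.TypeD2
import Pool.Agent.Q47.Pan.Stair

/-!
# Type `D`: the two spin nodes
-/

namespace Pool.Q47.Pan

open Set Function CartanMatrix

/-- the roots with coefficient `1` at the last node -/
def gT (n p q : ℕ) (k : ℕ) : ℤ :=
  if k + 2 < n then (if n ≤ k + p + 2 then 1 else 0) + (if n ≤ k + q + 1 then 1 else 0)
  else if k + 2 = n then (if 1 ≤ q then 1 else 0) else 1

theorem gT_root0 {n : ℕ} (hn : 4 ≤ n) (p : ℕ) (hp : p + 1 < n) :
    IsRoot (D n) (res n (gT n p 0)) := by
  induction p with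
  | zero =>
    refine IsRoot.base _ (n - 1) (by omega) fun k _ => ?_
    unfold gT
    split_ifs <;> omega
  | succ p ih =>
    refine stepD hn (n - 3 - p) (by omega) (ih (by omega)) ?_ ?_ ?_ ?_
    · intro c
      unfold gT
      try simp (disch := omega) only [if_pos, if_neg]
      try first | omega | (split_ifs <;> omega)
    · intro c
      unfold gT
      try simp (disch := omega) only [if_pos, if_neg]
      try first | omega | (split_ifs <;> omega)
    · intro c; omega
    · intro k _ hk
      unfold gT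
      try simp (disch := omega) only [if_pos, if_neg]
      try first | omega | (split_ifs <;> omega)

theorem gT_root {n : ℕ} (hn : 4 ≤ n) (p q : ℕ) (hp : p + 1 < n) (hq : q ≤ p) :
    IsRoot (D n) (res n (gT n p q)) := by
  induction q with
  | zero => exact gT_root0 hn p hp
  | succ q ih =>
    refine stepD hn (n - 2 - q) (by omega) (ih (by omega)) ?_ ?_ ?_ ?_
    · intro c
      unfold gT
      try simp (disch := omega) only [if_pos, if_neg]
      try first | omega | (split_ifs <;> omega)
    · intro c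
      unfold gT
      try simp (disch := omega) only [if_pos, if_neg]
      try first | omega | (split_ifs <;> omega)
    · intro c
      unfold gT
      try simp (disch := omega) only [if_pos, if_neg]
      try first | omega | (split_ifs <;> omega)
    · intro k _ hk
      unfold gT
      try simp (disch := omega) only [if_pos, if_neg]
      try first | omega | (split_ifs <;> omega)

theorem DeltaT {n : ℕ} (hn : 4 ≤ n) : Delta1 (D n) ⟨n - 1, by omega⟩ =
    (fun x : ℕ × ℕ => res n (gT n x.1 x.2)) '' SS (n - 1) := by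
  ext v
  constructor
  · rintro ⟨hv, hvi⟩
    obtain ⟨a, b, s, t, c, d, ha, hb, hs, ht, hab, hc, hd, rfl⟩ := PhiD_of_root hn hv
    have hvi' : d = 1 := by
      rw [← vD_d (n := n) (a := a) (b := b) (s := s) (t := t) (c := c) (d := d) (k := n - 1)
        (by omega)]
      exact hvi
    subst hvi'
    obtain rfl : s = 1 := by omega
    obtain rfl : t = 1 := by omega
    rcases lt_or_gt_of_ne hab with h | h
    · have hc0 : c = if b + 1 = n then 0 else 1 := by
        unfold ep at hc; split_ifs at hc ⊢ <;> omega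
      refine ⟨(n - 2 - a, n - 1 - b), ⟨by simp only; omega, by simp only; omega⟩, ?_⟩
      funext k
      have := k.2
      simp only [res_apply]
      rw [hc0]
      unfold gT vD u
      split_ifs <;> omega
    · have hc0 : c = if a + 1 = n then 0 else 1 := by
        unfold ep at hc; split_ifs at hc ⊢ <;> omega
      refine ⟨(n - 2 - b, n - 1 - a), ⟨by simp only; omega, by simp only; omega⟩, ?_⟩
      funext k
      have := k.2
      simp only [res_apply]
      rw [hc0]
      unfold gT vD u
      split_ifs <;> omega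
  · rintro ⟨⟨p, q⟩, ⟨hp, hq⟩, rfl⟩
    simp only at hp hq ⊢
    refine ⟨gT_root hn p q (by omega) hp, ?_⟩
    change gT n p q (n - 1) = 1
    unfold gT
    rw [if_neg (by omega), if_neg (by omega)]

theorem ordT {n : ℕ} (hn : 4 ≤ n) : ∀ x ∈ SS (n - 1), ∀ y ∈ SS (n - 1),
    (fun x : ℕ × ℕ => res n (gT n x.1 x.2)) x ≤ (fun x : ℕ × ℕ => res n (gT n x.1 x.2)) y ↔
      x ≤ y := by
  rintro ⟨p, q⟩ ⟨hp, hq⟩ ⟨p', q'⟩ ⟨hp', hq'⟩
  simp only at hp hq hp' hq' ⊢
  rw [Prod.mk_le_mk]
  constructor
  · intro h
    constructor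
    · by_cases c : p = 0
      · omega
      · have h1 : gT n p q (n - 2 - p) ≤ gT n p' q' (n - 2 - p) := h ⟨n - 2 - p, by omega⟩
        unfold gT at h1
        by_contra hcon
        omega
    · by_cases c : q = 0
      · omega
      · by_cases c' : q = 1
        · have h1 : gT n p q (n - 2) ≤ gT n p' q' (n - 2) := h ⟨n - 2, by omega⟩
          unfold gT at h1
          by_contra hcon
          omega
        · have h1 : gT n p q (n - 1 - q) ≤ gT n p' q' (n - 1 - q) := h ⟨n - 1 - q, by omega⟩
          unfold gT at h1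
          by_contra hcon
          omega
  · rintro ⟨h1, h2⟩ ⟨k, hk⟩
    rw [res_apply, res_apply]
    simp only
    unfold gT
    split_ifs <;> omega

theorem fineT {n : ℕ} (hn : 4 ≤ n) : Fine (D n) ⟨n - 1, by omega⟩ := by
  refine Fine.of_model (P := SS (n - 1)) (N := (n - 1) + (n - 1)) (by omega)
    (SS_finite _) (SS_good (by omega)) (fun x => res n (gT n x.1 x.2))
    (DeltaT hn) (ordT hn) (n - 2, n - 2) ⟨by simp only; omega, by simp only; omega⟩ ?_ ?_
  · rintro ⟨p, q⟩ ⟨hp, hq⟩
    simp only at hp hq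
    exact Prod.mk_le_mk.2 ⟨by omega, by omega⟩
  · simp only
    rw [ht_res, Finset.sum_congr rfl (g := fun k => u 0 k + (u 1 k - u (n - 2) k)),
      Finset.sum_add_distrib, Finset.sum_sub_distrib, sum_u, sum_u, sum_u]
    · omega
    · intro k hk
      rw [Finset.mem_range] at hk
      unfold gT u
      split_ifs <;> omega

/-! ### diagram automorphisms -/

section Sym

variable {n : ℕ} {M : Matrix (Fin n) (Fin n) ℤ} (τ : Equiv.Perm (Fin n))

theorem pair_comp (hM : ∀ i j, M (τ i) (τ j) = M i j) (v : Fin n → ℤ)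
    (j : Fin n) : pair M (v ∘ τ) j = pair M v (τ j) := by
  unfold pair
  rw [← Equiv.sum_comp τ (fun i => v i * M i (τ j))]
  exact Finset.sum_congr rfl fun i _ => by rw [comp_apply, hM]

theorem IsRoot.comp (hM : ∀ i j, M (τ i) (τ j) = M i j) {v : Fin n → ℤ} (h : IsRoot M v) :
    IsRoot M (v ∘ τ) := by
  induction h with
  | simple j =>
    have : (Pi.single j 1 : Fin n → ℤ) ∘ τ = Pi.single (τ.symm j) 1 := by
      funext k
      rw [comp_apply, Pi.single_apply, Pi.single_apply]
      congr 1
      rw [Equiv.eq_symm_apply]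
    rw [this]
    exact IsRoot.simple _
  | reflect j v _ ih =>
    have : sref M j v ∘ τ = sref M (τ.symm j) (v ∘ τ) := by
      funext k
      rw [comp_apply, sref_apply, sref_apply, pair_comp τ hM, Equiv.apply_symm_apply]
      simp only [comp_apply, Equiv.apply_symm_apply, Equiv.eq_symm_apply]
    rw [this]
    exact IsRoot.reflect _ _ ih

theorem Fine.symm {i : Fin n} (hM : ∀ i j, M (τ i) (τ j) = M i j) (h2 : ∀ i, τ (τ i) = i)
    (h : Fine M i) : Fine M (τ i) := by
  have hD : Delta1 M (τ i) = (fun v : Fin n → ℤ => v ∘ τ) '' Delta1 M i := by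
    ext v
    constructor
    · rintro ⟨hv, hvi⟩
      refine ⟨v ∘ τ, ⟨hv.comp τ hM, hvi⟩, ?_⟩
      funext k
      simp only [comp_apply, h2]
    · rintro ⟨w, ⟨hw, hwi⟩, rfl⟩
      refine ⟨hw.comp τ hM, ?_⟩
      simp only [comp_apply, h2, hwi]
  have hht : ∀ v : Fin n → ℤ, ht (v ∘ τ) = ht v := fun v => Equiv.sum_comp τ v
  obtain ⟨N, h0, h1, h3, h4⟩ := h
  refine ⟨N, h0, ?_, ?_, ?_⟩
  · rw [hD]; exact h1.image _
  · rw [hD, image_image]
    simp only [hht]
    exact h3
  · rw [hD]
    apply h4.image
    intro x _ y _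
    constructor
    · intro h k
      have := h (τ k)
      simpa only [comp_apply, h2] using this
    · intro h k
      exact h (τ k)

end Sym

theorem fineT' {n : ℕ} (hn : 4 ≤ n) : Fine (D n) ⟨n - 2, by omega⟩ := by
  have h := Fine.symm (Equiv.swap (⟨n - 2, by omega⟩ : Fin n) ⟨n - 1, by omega⟩) (M := D n)
    (i := ⟨n - 1, by omega⟩) ?_ (fun i => Equiv.swap_apply_self _ _ i) (fineT hn)
  · rwa [Equiv.swap_apply_right] at h
  · -- the symmetry of the matrix
    have key : ∀ (i : Fin n), ((Equiv.swap (⟨n - 2, by omega⟩ : Fin n) ⟨n - 1, by omega⟩ i : Fin n) : ℕ) =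
        if (i : ℕ) = n - 2 then n - 1 else if (i : ℕ) = n - 1 then n - 2 else i := by
      intro i
      rw [Equiv.swap_apply_def]
      by_cases c1 : (i : ℕ) = n - 2
      · rw [if_pos (Fin.ext c1), if_pos c1]
      · rw [if_neg (fun hc => c1 (by rw [hc])), if_neg c1]
        by_cases c2 : (i : ℕ) = n - 1
        · rw [if_pos (Fin.ext c2), if_pos c2]
        · rw [if_neg (fun hc => c2 (by rw [hc])), if_neg c2]
    intro i j
    have e1 := entD_eq hn i.2 j.2
    have e2 := entD_eq hn (Equiv.swap (⟨n - 2, by omega⟩ : Fin n) ⟨n - 1, by omega⟩ i).2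
      (Equiv.swap (⟨n - 2, by omega⟩ : Fin n) ⟨n - 1, by omega⟩ j).2
    simp only [Fin.eta] at e1 e2
    rw [e1, e2, key, key]
    have hi := i.2
    have hj := j.2
    generalize (i : ℕ) = i' at hi
    generalize (j : ℕ) = j' at hj
    by_cases c1 : i' = n - 2 <;> by_cases c2 : i' = n - 1 <;> by_cases c3 : j' = n - 2 <;>
      by_cases c4 : j' = n - 1 <;>
      simp only [c1, c2, c3, c4, if_true, if_false] <;> unfold entD <;> split_ifs <;>
      first | rfl | (exfalso; omega)

end Pool.Q47.Pan
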