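import Pool.Agent.Q47.Pan.TypeB
import Pool.Agent.Q47.Pan.TypeC
import Pool.Agent.Q47.Pan.TypeD3

/-!
# From `Fine` to orbit averages
-/

namespace Pool.Q47.Pan

open Set Function

/-- the antichains contained in `P` -/
def Antichains {V : Type*} [PartialOrder V] (P : Set V) : Set (Set V) :=
  {A | A ⊆ P ∧ IsAntichain (· ≤ ·) A}

/-- the orbit of `A` under the reverse operator of `P` -/
def orbit {V : Type*} [PartialOrder V] (P A : Set V) : Set (Set V) :=
  {B | ∃ k : ℕ, (Rev P)^[k] A = B}

variable {V : Type*} [PartialOrder V] {P : Set V}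

theorem antichains_finite (hP : P.Finite) : (Antichains P).Finite :=
  hP.finite_subsets.subset fun _ hA => hA.1

theorem Rev_bijOn (hP : P.Finite) : BijOn (Rev P) (Antichains P) (Antichains P) := by
  have h1 : MapsTo (Rev P) (Antichains P) (Antichains P) :=
    fun _ _ => ⟨Rev_subset, Rev_antichain⟩
  have h2 : InjOn (Rev P) (Antichains P) :=
    fun A hA B hB h => Rev_injOn hP hA.1 hB.1 hA.2 hB.2 h
  have h3 : Rev P '' Antichains P = Antichains P :=
    eq_of_subset_of_ncard_le h1.image_subset (by rw [h2.ncard_image]) (antichains_finite hP)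
  exact ⟨h1, h2, h3.symm.subset⟩

theorem orbit_subset {A : Set V} (hA : A ∈ Antichains P) : orbit P A ⊆ Antichains P := by
  rintro _ ⟨k, rfl⟩
  exact ⟨iter_subset hA.1 k, iter_antichain hA.2 k⟩

theorem orbit_average {N : ℕ} (hN : 0 < N) (hP : P.Finite) (hG : Good P N) {A : Set V}
    (hA : A ∈ Antichains P) : (orbit P A).Finite ∧
    (∑ᶠ B ∈ orbit P A, (B.ncard : ℚ)) / ((orbit P A).ncard : ℚ) = (P.ncard : ℚ) / N := by
  classical
  have hfin : (orbit P A).Finite := (antichains_finite hP).subset (orbit_subset hA)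
  refine ⟨hfin, ?_⟩
  rw [finsum_mem_eq_finite_toFinset_sum _ hfin, ncard_eq_toFinset_card _ hfin]
  have h1 := average hfin.toFinset (Rev P) ?_ ?_ (fun B => (B.ncard : ℚ)) N (P.ncard : ℚ) ?_
  · have hcard : (0 : ℚ) < hfin.toFinset.card := by
      have : 0 < hfin.toFinset.card :=
        Finset.card_pos.2 ⟨A, by rw [Finite.mem_toFinset]; exact ⟨0, rfl⟩⟩
      exact_mod_cast this
    have hNq : (0 : ℚ) < N := by exact_mod_cast hN
    rw [div_eq_div_iff hcard.ne' hNq.ne']
    linarith
  · intro B hB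
    rw [Finite.mem_toFinset] at hB ⊢
    obtain ⟨k, rfl⟩ := hB
    exact ⟨k + 1, iterate_succ_apply' _ _ _⟩
  · intro B hB C hC h
    rw [Finite.mem_toFinset] at hB hC
    have hB' := orbit_subset hA hB
    have hC' := orbit_subset hA hC
    exact Rev_injOn hP hB'.1 hC'.1 hB'.2 hC'.2 h
  · intro B hB
    rw [Finite.mem_toFinset] at hB
    have hB' := orbit_subset hA hB
    have := hG B hB'.1 hB'.2
    rw [← this]
    push_cast
    rfl

end Pool.Q47.Pan
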