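import Pool.Agent.Q47.Pan.TypeA

/-!
# The property to be proved for each node
-/

namespace Pool.Q47.Pan

open Set Function CartanMatrix

/-- what is proved for each node of each Dynkin diagram -/
def Fine {n : ℕ} (M : Matrix (Fin n) (Fin n) ℤ) (i : Fin n) : Prop :=
  ∃ N : ℕ, 0 < N ∧ (Delta1 M i).Finite ∧ IsGreatest (ht '' Delta1 M i) ((N : ℤ) - 1) ∧
    Good (Delta1 M i) N

theorem ht_mono {ι : Type*} [Fintype ι] {v w : ι → ℤ} (h : v ≤ w) : ht v ≤ ht w :=
  Finset.sum_le_sum fun i _ => h i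

theorem Fine.of_model {n : ℕ} {M : Matrix (Fin n) (Fin n) ℤ} {i : Fin n} {W : Type*}
    [PartialOrder W] {P : Set W} {N : ℕ} (hN : 0 < N) (hP : P.Finite) (hG : Good P N)
    (f : W → Fin n → ℤ) (hD : Delta1 M i = f '' P)
    (hf : ∀ x ∈ P, ∀ y ∈ P, f x ≤ f y ↔ x ≤ y) (x0 : W) (hx0 : x0 ∈ P) (htop : ∀ x ∈ P, x ≤ x0)
    (hht : ht (f x0) + 1 = N) : Fine M i := by
  refine ⟨N, hN, ?_, ?_, ?_⟩
  · rw [hD]; exact hP.image _
  · rw [hD]
    constructor
    · exact ⟨f x0, ⟨x0, hx0, rfl⟩, by omega⟩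
    · rintro _ ⟨_, ⟨x, hx, rfl⟩, rfl⟩
      have := ht_mono ((hf x hx x0 hx0).2 (htop x hx))
      omega
  · rw [hD]; exact hG.image f hf

theorem ht_res (n : ℕ) (V : ℕ → ℤ) : ht (res n V) = ∑ k ∈ Finset.range n, V k := by
  rw [← Fin.sum_univ_eq_sum_range V n]
  rfl

/-- sum of an eventually constant sequence of values -/
theorem sum_u (n c : ℕ) : ∑ k ∈ Finset.range n, u c k = ((n - c : ℕ) : ℤ) := by
  induction n with
  | zero => simp
  | succ n ih =>
    rw [Finset.sum_range_succ, ih]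
    unfold u
    split_ifs <;> omega

theorem fineA {n i : ℕ} (hi : i < n) : Fine (A n) ⟨i, hi⟩ := by
  refine Fine.of_model (P := PC (i + 1) (n - i)) (N := (i + 1) + (n - i)) (by omega)
    (PC_finite _ _) (PC_good (by omega) (by omega)) (fun x => res n (gA i x.1 x.2)) (DeltaA hi)
    (ordA hi) (i, n - i - 1) ⟨by simp only; omega, by simp only; omega⟩ ?_ ?_
  · rintro ⟨p, q⟩ ⟨hp, hq⟩
    simp only at hp hq
    exact Prod.mk_le_mk.2 ⟨by omega, by omega⟩
  · simp only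
    rw [ht_res, Finset.sum_congr rfl (g := fun k => u 0 k), sum_u]
    · omega
    · intro k hk
      rw [Finset.mem_range] at hk
      unfold gA u
      split_ifs <;> omega

end Pool.Q47.Pan
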