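import Pool.Agent.Q47.Pan.Fine

/-!
# Bit masks: the verified check for a finite poset given by codes of vectors
-/

namespace Pool.Q47.Pan

open Set Function

/-- digit `j` in base 16 -/
def dig (c j : ℕ) : ℕ := c / 16 ^ j % 16

/-- the vector coded by `c` -/
def dec (n c : ℕ) : Fin n → ℤ := fun j => (dig c j : ℤ)

/-- comparison of codes -/
def leB : ℕ → ℕ → ℕ → Bool
  | 0, _, _ => true
  | n + 1, c, c' => Nat.ble (c % 16) (c' % 16) && leB n (c / 16) (c' / 16)

theorem dig_zero (c : ℕ) : dig c 0 = c % 16 := by simp [dig]

theorem dig_succ (c j : ℕ) : dig c (j + 1) = dig (c / 16) j := by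
  unfold dig
  rw [pow_succ', Nat.div_div_eq_div_mul]

theorem leB_iff (n c c' : ℕ) : leB n c c' = true ↔ ∀ j < n, dig c j ≤ dig c' j := by
  induction n generalizing c c' with
  | zero => simp [leB]
  | succ n ih =>
    rw [leB, Bool.and_eq_true, Nat.ble_eq, ih]
    constructor
    · rintro ⟨h1, h2⟩ j hj
      cases j with
      | zero => rw [dig_zero, dig_zero]; exact h1
      | succ j => rw [dig_succ, dig_succ]; exact h2 j (by omega)
    · intro h
      refine ⟨?_, fun j hj => ?_⟩
      · have := h 0 (by omega)
        rwa [dig_zero, dig_zero] at this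
      · have := h (j + 1) (by omega)
        rwa [dig_succ, dig_succ] at this

theorem dec_le_iff (n c c' : ℕ) : dec n c ≤ dec n c' ↔ leB n c c' = true := by
  rw [leB_iff]
  constructor
  · intro h j hj
    have : ((dig c j : ℕ) : ℤ) ≤ dig c' j := h ⟨j, hj⟩
    exact_mod_cast this
  · intro h j
    have := h j j.2
    change ((dig c j : ℕ) : ℤ) ≤ dig c' j
    exact_mod_cast this

/-- mask of the positions of the list with code `≥ c` -/
def maskUp (n c : ℕ) : List ℕ → ℕ
  | [] => 0
  | c' :: l => 2 * maskUp n c l + (leB n c c').toNat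

/-- mask of the positions of the list with code `≤ c`, different from `c` -/
def maskDn (n c : ℕ) : List ℕ → ℕ
  | [] => 0
  | c' :: l => 2 * maskDn n c l + (leB n c' c && !Nat.beq c' c).toNat

theorem testBit_cons_zero (a : ℕ) (b : Bool) : (2 * a + b.toNat).testBit 0 = b := by
  cases b <;> simp

theorem testBit_cons_succ (a : ℕ) (b : Bool) (y : ℕ) :
    (2 * a + b.toNat).testBit (y + 1) = a.testBit y := by
  rw [Nat.testBit_succ]
  congr 1
  cases b <;> simp <;> omega

theorem testBit_maskUp (n c : ℕ) (l : List ℕ) (y : ℕ) :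
    (maskUp n c l).testBit y = true ↔ y < l.length ∧ leB n c (l.getD y 0) = true := by
  induction l generalizing y with
  | nil => simp [maskUp]
  | cons c' l ih =>
    cases y with
    | zero => rw [maskUp, testBit_cons_zero]; simp
    | succ y =>
      rw [maskUp, testBit_cons_succ, ih]
      simp

theorem testBit_maskDn (n c : ℕ) (l : List ℕ) (y : ℕ) :
    (maskDn n c l).testBit y = true ↔
      y < l.length ∧ leB n (l.getD y 0) c = true ∧ l.getD y 0 ≠ c := by
  induction l generalizing y with
  | nil => simp [maskDn]
  | cons c' l ih =>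
    cases y with
    | zero =>
      rw [maskDn, testBit_cons_zero]
      simp only [Bool.and_eq_true, Bool.not_eq_true', List.length_cons, Nat.zero_lt_succ,
        List.getD_cons_zero, ne_eq, true_and]
      rw [← Bool.not_eq_true, Nat.beq_eq]
    | succ y =>
      rw [maskDn, testBit_cons_succ, ih]
      simp

/-- table of up masks -/
def mkU (n : ℕ) (vs : List ℕ) : List ℕ → ℕ → List (ℕ × ℕ)
  | [], _ => []
  | c :: l, b => (b, maskUp n c vs) :: mkU n vs l (2 * b)

/-- table of down masks -/
def mkD (n : ℕ) (vs : List ℕ) : List ℕ → ℕ → List (ℕ × ℕ)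
  | [], _ => []
  | c :: l, b => (b, maskDn n c vs) :: mkD n vs l (2 * b)

theorem mkU_eq (n : ℕ) (vs l : List ℕ) (k : ℕ) : mkU n vs l (2 ^ k) =
    (List.range l.length).map (fun x => (2 ^ (k + x), maskUp n (l.getD x 0) vs)) := by
  induction l generalizing k with
  | nil => rfl
  | cons c l ih =>
    rw [mkU, ← pow_succ', ih, List.length_cons, List.range_succ_eq_map, List.map_cons,
      List.map_map]
    congr 1
    apply List.map_congr_left
    intro x _
    simp only [comp_apply, Prod.mk.injEq]
    refine ⟨by congr 1; omega, by simp⟩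

theorem mkD_eq (n : ℕ) (vs l : List ℕ) (k : ℕ) : mkD n vs l (2 ^ k) =
    (List.range l.length).map (fun x => (2 ^ (k + x), maskDn n (l.getD x 0) vs)) := by
  induction l generalizing k with
  | nil => rfl
  | cons c l ih =>
    rw [mkD, ← pow_succ', ih, List.length_cons, List.range_succ_eq_map, List.map_cons,
      List.map_map]
    congr 1
    apply List.map_congr_left
    intro x _
    simp only [comp_apply, Prod.mk.injEq]
    refine ⟨by congr 1; omega, by simp⟩

/-- one pass over the poset: union of the principal filters of the maximal elements of the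
ideal `J`, and their number -/
def stepF (J : ℕ) : List (ℕ × ℕ) → ℕ → ℕ → ℕ × ℕ
  | [], I, c => (I, c)
  | p :: l, I, c =>
    match Nat.beq (Nat.land p.2 J) p.1 with
    | true => stepF J l (Nat.lor I p.2) (c + 1)
    | false => stepF J l I c

theorem stepF_snd (J : ℕ) (l : List (ℕ × ℕ)) (I c : ℕ) :
    (stepF J l I c).2 = c + (l.filter (fun p => Nat.beq (Nat.land p.2 J) p.1)).length := by
  induction l generalizing I c with
  | nil => rfl
  | cons p l ih =>
    rw [stepF, List.filter_cons]
    cases h : Nat.beq (Nat.land p.2 J) p.1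
    · simp only [ih, Bool.false_eq_true, if_false]
    · simp only [ih, if_true, List.length_cons]
      omega

theorem stepF_fst (J : ℕ) (l : List (ℕ × ℕ)) (I c y : ℕ) :
    ((stepF J l I c).1).testBit y = true ↔ I.testBit y = true ∨
      ∃ p ∈ l, Nat.beq (Nat.land p.2 J) p.1 = true ∧ p.2.testBit y = true := by
  induction l generalizing I c with
  | nil => simp [stepF]
  | cons p l ih =>
    rw [stepF]
    cases h : Nat.beq (Nat.land p.2 J) p.1
    · simp only [ih, List.mem_cons, exists_eq_or_imp, h, Bool.false_eq_true, false_and, false_or]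
    · simp only [ih, List.mem_cons, exists_eq_or_imp, h, true_and]
      have : (Nat.lor I p.2).testBit y = (I.testBit y || p.2.testBit y) := Nat.testBit_lor I p.2 y
      rw [this, Bool.or_eq_true, or_assoc]

/-- the check for one ideal `J`: iterate until a smaller mask appears -/
def chk (eu : List (ℕ × ℕ)) (full J m : ℕ) : ℕ → ℕ → ℕ → Bool
  | 0, K, acc => Nat.beq K J && Nat.beq acc m
  | t + 1, K, acc =>
    match stepF K eu 0 0 with
    | (I, c) => Nat.ble (Nat.xor full I + 1) J || chk eu full J m t (Nat.xor full I) (acc + c)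

/-- depth first enumeration of all ideals -/
def allI (Q : ℕ → Bool) : List (ℕ × ℕ) → ℕ → Bool
  | [], J => Q J
  | p :: l, J => allI Q l J &&
    (match Nat.beq (Nat.land p.2 J) p.2 with
    | true => allI Q l (Nat.lor J p.1)
    | false => true)

theorem allI_spec (Q : ℕ → Bool) (dn : ℕ → ℕ) (J : ℕ)
    (hJ : ∀ x, J.testBit x = true → ∀ y, (dn x).testBit y = true → y < x ∧ J.testBit y = true)
    (r k : ℕ) (hJr : J < 2 ^ (k + r))
    (h : allI Q ((List.range r).map (fun x => (2 ^ (k + x), dn (k + x)))) (J % 2 ^ k) = true) :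
    Q J = true := by
  induction r generalizing k with
  | zero =>
    simp only [List.range_zero, List.map_nil, allI] at h
    rwa [Nat.mod_eq_of_lt (by simpa using hJr)] at h
  | succ r ih =>
    rw [List.range_succ_eq_map, List.map_cons, List.map_map, allI, Bool.and_eq_true] at h
    obtain ⟨h1, h2⟩ := h
    have e1 : ((fun x => (2 ^ (k + x), dn (k + x))) ∘ Nat.succ) =
        (fun x => (2 ^ (k + 1 + x), dn (k + 1 + x))) := by
      funext x
      simp only [comp_apply, Nat.succ_eq_add_one, Prod.mk.injEq]
      constructor <;> congr 1 <;> omega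
    rw [e1] at h1 h2
    simp only [add_zero] at h2
    by_cases hb : J.testBit k = true
    · have e2 : Nat.land (dn k) (J % 2 ^ k) = dn k := by
        change dn k &&& (J % 2 ^ k) = dn k
        apply Nat.eq_of_testBit_eq
        intro y
        rw [Nat.testBit_and, Nat.testBit_mod_two_pow]
        by_cases hy : (dn k).testBit y = true
        · obtain ⟨h3, h4⟩ := hJ k hb y hy
          simp [hy, h3, h4]
        · simp [hy]
      rw [e2] at h2
      have e3 : Nat.beq (dn k) (dn k) = true := Nat.beq_refl _
      rw [e3] at h2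
      simp only at h2
      have e4 : Nat.lor (J % 2 ^ k) (2 ^ k) = J % 2 ^ (k + 1) := by
        change J % 2 ^ k ||| 2 ^ k = J % 2 ^ (k + 1)
        apply Nat.eq_of_testBit_eq
        intro y
        rw [Nat.testBit_or, Nat.testBit_mod_two_pow, Nat.testBit_mod_two_pow,
          Nat.testBit_two_pow]
        rcases lt_trichotomy y k with hy | hy | hy
        · simp [hy, show y < k + 1 by omega, show k ≠ y by omega]
        · subst hy; simp [hb]
        · simp [show ¬ y < k by omega, show ¬ y < k + 1 by omega, show k ≠ y by omega]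
      rw [e4] at h2
      exact ih (k + 1) (by rwa [show k + 1 + r = k + (r + 1) by omega]) h2
    · have e4 : J % 2 ^ k = J % 2 ^ (k + 1) := by
        apply Nat.eq_of_testBit_eq
        intro y
        rw [Nat.testBit_mod_two_pow, Nat.testBit_mod_two_pow]
        rcases lt_trichotomy y k with hy | hy | hy
        · simp [hy, show y < k + 1 by omega]
        · subst hy; simp [hb]
        · simp [show ¬ y < k by omega, show ¬ y < k + 1 by omega]
      rw [e4] at h1
      exact ih (k + 1) (by rwa [show k + 1 + r = k + (r + 1) by omega]) h1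

/-- existence of masks -/
theorem exists_mask (m : ℕ) (p : ℕ → Prop) :
    ∃ J, J < 2 ^ m ∧ ∀ x, J.testBit x = true ↔ x < m ∧ p x := by
  classical
  induction m with
  | zero => exact ⟨0, by simp, by simp⟩
  | succ m ih =>
    obtain ⟨J, hJ, h⟩ := ih
    by_cases hp : p m
    · refine ⟨J ||| 2 ^ m, ?_, fun x => ?_⟩
      · exact Nat.or_lt_two_pow (by rw [pow_succ]; omega) (by rw [pow_succ]; omega)
      · rw [Nat.testBit_or, Nat.testBit_two_pow, Bool.or_eq_true, h, decide_eq_true_eq]
        constructor
        · rintro (⟨h1, h2⟩ | rfl)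
          · exact ⟨by omega, h2⟩
          · exact ⟨by omega, hp⟩
        · rintro ⟨h1, h2⟩
          by_cases hx : m = x
          · exact Or.inr hx
          · exact Or.inl ⟨by omega, h2⟩
    · refine ⟨J, by rw [pow_succ]; omega, fun x => ?_⟩
      rw [h]
      constructor
      · rintro ⟨h1, h2⟩; exact ⟨by omega, h2⟩
      · rintro ⟨h1, h2⟩
        refine ⟨?_, h2⟩
        by_contra hc
        obtain rfl : x = m := by omega
        exact hp h2

end Pool.Q47.Pan
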