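import Pool.Agent.Q47.Pan.Mask

/-!
# Correctness of the check
-/

namespace Pool.Q47.Pan

open Set Function

/-- the poset coded by a list -/
def PV (n : ℕ) (vs : List ℕ) : Set (Fin n → ℤ) := {v | ∃ c ∈ vs, v = dec n c}

section

variable {n : ℕ} {vs : List ℕ}

/-- element number `x` -/
def fv (n : ℕ) (vs : List ℕ) (x : ℕ) : Fin n → ℤ := dec n (vs.getD x 0)

theorem mem_PV {v : Fin n → ℤ} : v ∈ PV n vs ↔ ∃ x, x < vs.length ∧ v = fv n vs x := by
  constructor
  · rintro ⟨c, hc, rfl⟩
    obtain ⟨x, hx, rfl⟩ := List.getElem_of_mem hc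
    exact ⟨x, hx, by rw [fv, List.getD_eq_getElem _ _ hx]⟩
  · rintro ⟨x, hx, rfl⟩
    refine ⟨vs.getD x 0, ?_, rfl⟩
    rw [List.getD_eq_getElem _ _ hx]
    exact List.getElem_mem hx

/-- `J` is the bit mask of `D` -/
def IsMask (n : ℕ) (vs : List ℕ) (J : ℕ) (D : Set (Fin n → ℤ)) : Prop :=
  J < 2 ^ vs.length ∧ ∀ x, J.testBit x = true ↔ x < vs.length ∧ fv n vs x ∈ D

theorem testBit_U (x y : ℕ) : (maskUp n (vs.getD x 0) vs).testBit y = true ↔
    y < vs.length ∧ fv n vs x ≤ fv n vs y := by
  rw [testBit_maskUp, fv, fv, dec_le_iff]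

theorem exists_isMask (D : Set (Fin n → ℤ)) : ∃ J, IsMask n vs J D := by
  obtain ⟨J, h1, h2⟩ := exists_mask vs.length (fun x => fv n vs x ∈ D)
  exact ⟨J, h1, h2⟩

theorem IsMask.unique {J K : ℕ} {D : Set (Fin n → ℤ)} (h1 : IsMask n vs J D)
    (h2 : IsMask n vs K D) : J = K := by
  apply Nat.eq_of_testBit_eq
  intro x
  have := (h1.2 x).trans (h2.2 x).symm
  exact Bool.eq_iff_iff.2 this

/-- the linear extension property -/
def Lin (n : ℕ) (vs : List ℕ) : Prop :=
  ∀ x < vs.length, ∀ y < vs.length, fv n vs x ≤ fv n vs y → x ≤ y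

theorem fv_inj (hl : Lin n vs) {x y : ℕ} (hx : x < vs.length) (hy : y < vs.length)
    (h : fv n vs x = fv n vs y) : x = y :=
  le_antisymm (hl x hx y hy h.le) (hl y hy x hx h.ge)

theorem PV_eq_image : PV n vs = fv n vs '' (Finset.range vs.length : Set ℕ) := by
  ext v
  rw [mem_PV]
  constructor
  · rintro ⟨x, hx, rfl⟩
    exact ⟨x, by simpa using hx, rfl⟩
  · rintro ⟨x, hx, rfl⟩
    exact ⟨x, by simpa using hx, rfl⟩

theorem PV_finite : (PV n vs).Finite := by
  rw [PV_eq_image]
  exact (Finset.finite_toSet _).image _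

theorem PV_ncard (hl : Lin n vs) : (PV n vs).ncard = vs.length := by
  rw [PV_eq_image, InjOn.ncard_image, ncard_coe_finset, Finset.card_range]
  intro x hx y hy h
  exact fv_inj hl (by simpa using hx) (by simpa using hy) h

/-- the table used by the step -/
def tabU (n : ℕ) (vs : List ℕ) : List (ℕ × ℕ) :=
  (List.range vs.length).map (fun x => (2 ^ x, maskUp n (vs.getD x 0) vs))

theorem maximal_iff (hl : Lin n vs) {A : Set (Fin n → ℤ)} {J : ℕ}
    (hJ : IsMask n vs J (Comp (PV n vs) A)) {x : ℕ} (hx : x < vs.length) :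
    Nat.beq (Nat.land (maskUp n (vs.getD x 0) vs) J) (2 ^ x) = true ↔
      fv n vs x ∈ Rev (PV n vs) A := by
  rw [Nat.beq_eq]
  change maskUp n (vs.getD x 0) vs &&& J = 2 ^ x ↔ _
  have key : (maskUp n (vs.getD x 0) vs &&& J = 2 ^ x) ↔
      ∀ y, (y < vs.length ∧ fv n vs x ≤ fv n vs y ∧ fv n vs y ∈ Comp (PV n vs) A) ↔ x = y := by
    constructor
    · intro h y
      have h1 : (maskUp n (vs.getD x 0) vs &&& J).testBit y = (2 ^ x).testBit y := by rw [h]
      rw [Nat.testBit_and, Nat.testBit_two_pow, Bool.eq_iff_iff, Bool.and_eq_true, testBit_U,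
        hJ.2, decide_eq_true_eq] at h1
      rw [← h1]
      tauto
    · intro h
      apply Nat.eq_of_testBit_eq
      intro y
      rw [Nat.testBit_and, Nat.testBit_two_pow, Bool.eq_iff_iff, Bool.and_eq_true, testBit_U,
        hJ.2, decide_eq_true_eq, ← h y]
      tauto
  rw [key]
  constructor
  · intro h
    have h0 := (h x).2 rfl
    refine ⟨h0.2.2, fun z hz hxz => ?_⟩
    obtain ⟨y, hy, rfl⟩ := mem_PV.1 hz.1
    have := (h y).1 ⟨hy, hxz, hz⟩
    rw [this]
  · intro h y
    constructor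
    · rintro ⟨hy, hxy, hyc⟩
      have h1 := h.le_of_ge hyc hxy
      exact fv_inj hl hx hy (le_antisymm hxy h1)
    · rintro rfl
      exact ⟨hx, le_rfl, h.prop⟩

theorem step_mask (hl : Lin n vs) {A : Set (Fin n → ℤ)} {J : ℕ}
    (hJ : IsMask n vs J (Comp (PV n vs) A)) :
    IsMask n vs (Nat.xor (2 ^ vs.length - 1) (stepF J (tabU n vs) 0 0).1)
      (Comp (PV n vs) (Rev (PV n vs) A)) := by
  have hI : ∀ y, ((stepF J (tabU n vs) 0 0).1).testBit y = true ↔
      y < vs.length ∧ ∃ a ∈ Rev (PV n vs) A, a ≤ fv n vs y := by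
    intro y
    rw [stepF_fst]
    simp only [Nat.zero_testBit, Bool.false_eq_true, false_or, tabU, List.mem_map,
      List.mem_range]
    constructor
    · rintro ⟨p, ⟨x, hx, rfl⟩, h1, h2⟩
      rw [testBit_U] at h2
      exact ⟨h2.1, fv n vs x, (maximal_iff hl hJ hx).1 h1, h2.2⟩
    · rintro ⟨hy, a, ha, hay⟩
      obtain ⟨x, hx, rfl⟩ := mem_PV.1 (Rev_subset ha)
      refine ⟨_, ⟨x, hx, rfl⟩, (maximal_iff hl hJ hx).2 ha, ?_⟩
      rw [testBit_U]
      exact ⟨hy, hay⟩
  have hlt : (stepF J (tabU n vs) 0 0).1 < 2 ^ vs.length := by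
    apply Nat.lt_pow_two_of_testBit
    intro y hy
    by_contra hc
    rw [Bool.not_eq_false, hI] at hc
    omega
  constructor
  · exact Nat.xor_lt_two_pow (by have := Nat.two_pow_pos vs.length; omega) hlt
  · intro y
    have h1 : (Nat.xor (2 ^ vs.length - 1) (stepF J (tabU n vs) 0 0).1).testBit y =
        ((2 ^ vs.length - 1).testBit y ^^ ((stepF J (tabU n vs) 0 0).1).testBit y) :=
      Nat.testBit_xor _ _ _
    rw [h1, Nat.testBit_two_pow_sub_one]
    by_cases hy : y < vs.length
    · rw [decide_eq_true hy, Bool.true_xor, Bool.not_eq_true', ← Bool.not_eq_true, hI]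
      constructor
      · intro h
        refine ⟨hy, mem_PV.2 ⟨y, hy, rfl⟩, fun a ha hay => h ⟨hy, a, ha, hay⟩⟩
      · rintro ⟨_, h⟩ ⟨_, a, ha, hay⟩
        exact h.2 a ha hay
    · have h2 : ((stepF J (tabU n vs) 0 0).1).testBit y = false := by
        rw [← Bool.not_eq_true, hI]
        exact fun h => hy h.1
      rw [h2, decide_eq_false hy]
      simp [hy]

theorem step_count (hl : Lin n vs) {A : Set (Fin n → ℤ)} {J : ℕ}
    (hJ : IsMask n vs J (Comp (PV n vs) A)) :
    (stepF J (tabU n vs) 0 0).2 = (Rev (PV n vs) A).ncard := by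
  classical
  rw [stepF_snd, zero_add]
  have h1 : Rev (PV n vs) A =
      fv n vs '' (((Finset.range vs.length).filter
        (fun x => fv n vs x ∈ Rev (PV n vs) A) : Finset ℕ) : Set ℕ) := by
    ext v
    constructor
    · intro hv
      obtain ⟨x, hx, rfl⟩ := mem_PV.1 (Rev_subset hv)
      exact ⟨x, by simpa using ⟨hx, hv⟩, rfl⟩
    · rintro ⟨x, hx, rfl⟩
      have : x < vs.length ∧ fv n vs x ∈ Rev (PV n vs) A := by simpa using hx
      exact this.2
  rw [h1, InjOn.ncard_image, ncard_coe_finset]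
  · unfold tabU
    rw [List.filter_map, List.length_map]
    have h2 : (Finset.range vs.length).filter (fun x => fv n vs x ∈ Rev (PV n vs) A) =
        ((List.range vs.length).filter ((fun p : ℕ × ℕ => Nat.beq (Nat.land p.2 J) p.1) ∘
          fun x => (2 ^ x, maskUp n (vs.getD x 0) vs))).toFinset := by
      ext x
      simp only [Finset.mem_filter, Finset.mem_range, List.mem_toFinset, List.mem_filter,
        List.mem_range, comp_apply]
      constructor
      · rintro ⟨hx, h⟩
        exact ⟨hx, (maximal_iff hl hJ hx).2 h⟩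
      · rintro ⟨hx, h⟩
        exact ⟨hx, (maximal_iff hl hJ hx).1 h⟩
    rw [h2, List.toFinset_card_of_nodup (List.nodup_range.filter _)]
  · intro x hx y hy h
    have hx' : x < vs.length ∧ fv n vs x ∈ Rev (PV n vs) A := by simpa using hx
    have hy' : y < vs.length ∧ fv n vs y ∈ Rev (PV n vs) A := by simpa using hy
    exact fv_inj hl hx'.1 hy'.1 h

theorem chk_spec (hl : Lin n vs) (J : ℕ) (m : ℕ) (A : Set (Fin n → ℤ)) (t k K acc : ℕ)
    (hK : IsMask n vs K (Comp (PV n vs) ((Rev (PV n vs))^[k] A)))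
    (h : chk (tabU n vs) (2 ^ vs.length - 1) J m t K acc = true) :
    (∃ k' K', k < k' ∧ IsMask n vs K' (Comp (PV n vs) ((Rev (PV n vs))^[k'] A)) ∧ K' < J) ∨
    (IsMask n vs J (Comp (PV n vs) ((Rev (PV n vs))^[k + t] A)) ∧
      acc + ∑ j ∈ Finset.range t, ((Rev (PV n vs))^[k + j + 1] A).ncard = m) := by
  induction t generalizing k K acc with
  | zero =>
    rw [chk, Bool.and_eq_true, Nat.beq_eq, Nat.beq_eq] at h
    right
    rw [← h.1]
    exact ⟨hK, by simpa using h.2⟩
  | succ t ih =>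
    rw [chk] at h
    simp only at h
    rw [Bool.or_eq_true, Nat.ble_eq] at h
    have h1 := step_mask hl hK
    have h2 := step_count hl hK
    rw [← iterate_succ_apply' (Rev (PV n vs)) k A] at h1 h2
    rcases h with h | h
    · left
      exact ⟨k + 1, _, by omega, h1, h⟩
    · rcases ih (k + 1) _ _ h1 h with ⟨k', K', h3, h4, h5⟩ | ⟨h3, h4⟩
      · left
        exact ⟨k', K', by omega, h4, h5⟩
      · right
        refine ⟨?_, ?_⟩
        · rwa [show k + (t + 1) = k + 1 + t by omega]
        · rw [Finset.sum_range_succ', ← h4, h2]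
          simp only [add_zero]
          rw [add_assoc acc, add_comm ((Rev (PV n vs))^[k + 1] A).ncard]
          congr 2
          refine Finset.sum_congr rfl fun j _ => ?_
          congr 2
          omega

theorem sum_periodic (g : ℕ → ℕ) (N : ℕ) (hg : ∀ k, g (k + N) = g k) (j : ℕ) :
    ∑ k ∈ Finset.range N, g (k + j) = ∑ k ∈ Finset.range N, g k := by
  induction j with
  | zero => rfl
  | succ j ih =>
    rw [← ih]
    cases N with
    | zero => rfl
    | succ M =>
      rw [Finset.sum_range_succ, Finset.sum_range_succ' (fun k => g (k + j))]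
      congr 1
      · refine Finset.sum_congr rfl fun k _ => ?_
        congr 1
        omega
      · rw [← hg (0 + j)]
        congr 1
        omega

theorem mask_good_aux (hl : Lin n vs) (N : ℕ)
    (hall : ∀ J A, A ⊆ PV n vs → IsAntichain (· ≤ ·) A → IsMask n vs J (Comp (PV n vs) A) →
      chk (tabU n vs) (2 ^ vs.length - 1) J vs.length N J 0 = true) :
    ∀ J A, A ⊆ PV n vs → IsAntichain (· ≤ ·) A → IsMask n vs J (Comp (PV n vs) A) →
      (Rev (PV n vs))^[N] A = A ∧
      ∑ k ∈ Finset.range N, ((Rev (PV n vs))^[k] A).ncard = vs.length := by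
  intro J
  induction J using Nat.strong_induction_on with
  | _ J ih =>
    intro A hA hA' hJ
    rcases chk_spec hl J vs.length A N 0 J 0 hJ (hall J A hA hA' hJ) with
      ⟨k', K', h1, h2, h3⟩ | ⟨h1, h2⟩
    · obtain ⟨h4, h5⟩ := ih K' h3 ((Rev (PV n vs))^[k'] A) (iter_subset hA k')
        (iter_antichain hA' k') h2
      have h6 : (Rev (PV n vs))^[N] A = A := by
        apply iter_injOn PV_finite (iter_subset hA N) hA (iter_antichain hA' N) hA' k'
        rw [← iterate_add_apply, add_comm, iterate_add_apply]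
        exact h4
      refine ⟨h6, ?_⟩
      rw [← h5]
      symm
      have h7 := sum_periodic (fun k => ((Rev (PV n vs))^[k] A).ncard) N ?_ k'
      · rw [← h7]
        refine Finset.sum_congr rfl fun k _ => ?_
        rw [iterate_add_apply]
      · intro k
        rw [iterate_add_apply, h6]
    · rw [zero_add] at h1
      have h6 : (Rev (PV n vs))^[N] A = A := by
        apply eq_of_Comp_eq (iter_subset hA N) hA (iter_antichain hA' N) hA'
        ext v
        constructor
        · intro hv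
          obtain ⟨x, hx, rfl⟩ := mem_PV.1 hv.1
          exact ((hJ.2 x).1 ((h1.2 x).2 ⟨hx, hv⟩)).2
        · intro hv
          obtain ⟨x, hx, rfl⟩ := mem_PV.1 hv.1
          exact ((h1.2 x).1 ((hJ.2 x).2 ⟨hx, hv⟩)).2
      refine ⟨h6, ?_⟩
      rw [zero_add] at h2
      have h7 := sum_periodic (fun k => ((Rev (PV n vs))^[k] A).ncard) N
        (fun k => by rw [iterate_add_apply, h6]) 1
      rw [← h7, ← h2]
      refine Finset.sum_congr rfl fun k _ => ?_
      rw [zero_add]

/-- the correctness theorem of the check -/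
theorem mask_good {eu ed : List (ℕ × ℕ)} {full m N : ℕ} (heu : mkU n vs vs 1 = eu)
    (hed : mkD n vs vs 1 = ed) (hm : vs.length = m) (hfull : full = 2 ^ m - 1)
    (hlin : eu.all (fun p => Nat.beq (Nat.mod p.2 p.1) 0) = true)
    (hall : allI (fun J => chk eu full J m N J 0) ed 0 = true) :
    Lin n vs ∧ Good (PV n vs) N := by
  subst hm hfull
  have hmk := mkU_eq n vs vs 0
  have hmd := mkD_eq n vs vs 0
  simp only [zero_add, pow_zero] at hmk hmd
  have hL : Lin n vs := by
    intro x hx y hy hxy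
    by_contra hc
    push Not at hc
    rw [List.all_eq_true] at hlin
    have h1 := hlin (2 ^ x, maskUp n (vs.getD x 0) vs) (by
      rw [← heu, hmk]
      exact List.mem_map.2 ⟨x, List.mem_range.2 hx, rfl⟩)
    rw [Nat.beq_eq] at h1
    change maskUp n (vs.getD x 0) vs % 2 ^ x = 0 at h1
    have h2 : (maskUp n (vs.getD x 0) vs % 2 ^ x).testBit y = true := by
      rw [Nat.testBit_mod_two_pow, decide_eq_true hc, Bool.true_and, testBit_U]
      exact ⟨hy, hxy⟩
    rw [h1] at h2
    simp at h2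
  refine ⟨hL, ?_⟩
  have htab : eu = tabU n vs := by rw [← heu, hmk]; rfl
  have hkey : ∀ J A, A ⊆ PV n vs → IsAntichain (· ≤ ·) A → IsMask n vs J (Comp (PV n vs) A) →
      chk (tabU n vs) (2 ^ vs.length - 1) J vs.length N J 0 = true := by
    intro J A hA hA' hJ
    rw [← htab]
    have h1 := allI_spec (fun J => chk eu (2 ^ vs.length - 1) J vs.length N J 0)
      (fun x => if x < vs.length then maskDn n (vs.getD x 0) vs else 0) J ?_ vs.length 0
      (by rw [zero_add]; exact hJ.1) ?_
    · exact h1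
    · intro x hx y hy
      have hx' := (hJ.2 x).1 hx
      rw [if_pos hx'.1, testBit_maskDn] at hy
      obtain ⟨h2, h3, h4⟩ := hy
      have h5 : fv n vs y ≤ fv n vs x := by rw [fv, fv, dec_le_iff]; exact h3
      refine ⟨?_, (hJ.2 y).2 ⟨h2, Comp_lower hx'.2 (mem_PV.2 ⟨y, h2, rfl⟩) h5⟩⟩
      have h6 := hL y h2 x hx'.1 h5
      by_contra hc
      obtain rfl : y = x := by omega
      exact h4 rfl
    · rw [← hed, hmd] at hall
      rw [pow_zero, Nat.mod_one]
      rw [← hall]
      congr 1
      apply List.map_congr_left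
      intro x hx
      rw [zero_add, if_pos (List.mem_range.1 hx)]
  intro A hA hA'
  obtain ⟨J, hJ⟩ := exists_isMask (vs := vs) (Comp (PV n vs) A)
  rw [PV_ncard hL]
  exact (mask_good_aux hL N hkey J A hA hA' hJ).2

end

end Pool.Q47.Pan
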