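import Pool.Agent.Q47.Pan.RootsE6

/-!
# Nodes of type `E6`
-/

namespace Pool.Q47.Pan

open CartanMatrix

def vsE6_0 : List ℕ :=
  [ 1, 257, 4353, 4369, 69889, 69905, 1118465, 74001, 1118481, 74257, 1122577, 1122833, 1188113,
    1188369, 1192465, 1192481 ]

def euE6_0 : List (ℕ × ℕ) :=
  [ (1,65535), (2,65534), (4,65532), (8,65448), (16,65520), (32,65440), (64,64832), (128,65152),
    (256,64768), (512,59904), (1024,64512), (2048,59392), (4096,61440), (8192,57344), (16384,49152),
    (32768,32768) ]

def edE6_0 : List (ℕ × ℕ) :=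
  [ (1,0), (2,1), (4,3), (8,7), (16,7), (32,31), (64,23), (128,63), (256,127), (512,191),
    (1024,511), (2048,2047), (4096,1535), (8192,8191), (16384,16383), (32768,32767) ]

theorem allE6_0 :
    allI (fun J => chk euE6_0 65535 J 16 12 J 0) edE6_0 0 = true := by
  decide +kernel

theorem fineE6_0 : Fine E₆ 0 := by
  refine fine_of_codes okE6 0 (vs := vsE6_0) (eu := euE6_0) (ed := edE6_0)
    (full := 65535) (m := 16) (N := 12) ?_ ?_ ?_ ?_ ?_ ?_ ?_ allE6_0
  · decide +kernel
  · decide +kernel
  · decide +kernel
  · decide +kernel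
  · decide +kernel
  · decide +kernel
  · decide +kernel

def vsE6_1 : List ℕ :=
  [ 16, 4112, 4368, 69648, 4369, 69904, 1118224, 69905, 74000, 1118480, 74001, 1118481, 1122576,
    74257, 1122577, 1188112, 1122833, 1188113, 1188369, 1192465 ]

def euE6_1 : List (ℕ × ℕ) :=
  [ (1,1048575), (2,1048574), (4,1048500), (8,1048552), (16,1010832), (32,1048480), (64,1038912),
    (128,1010816), (256,1045760), (512,1038848), (1024,1008640), (2048,1001472), (4096,1036288),
    (8192,860160), (16384,999424), (32768,950272), (65536,851968), (131072,917504), (262144,786432),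
    (524288,524288) ]

def edE6_1 : List (ℕ × ℕ) :=
  [ (1,0), (2,1), (4,3), (8,3), (16,7), (32,15), (64,11), (128,63), (256,47), (512,111), (1024,447),
    (2048,767), (4096,879), (8192,1471), (16384,8191), (32768,4975), (65536,32767), (131072,57343),
    (262144,262143), (524288,524287) ]

theorem allE6_1 :
    allI (fun J => chk euE6_1 1048575 J 20 11 J 0) edE6_1 0 = true := by
  decide +kernel

theorem fineE6_1 : Fine E₆ 1 := by
  refine fine_of_codes okE6 1 (vs := vsE6_1) (eu := euE6_1) (ed := edE6_1)
    (full := 1048575) (m := 20) (N := 11) ?_ ?_ ?_ ?_ ?_ ?_ ?_ allE6_1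
  · decide +kernel
  · decide +kernel
  · decide +kernel
  · decide +kernel
  · decide +kernel
  · decide +kernel
  · decide +kernel

def vsE6_2 : List ℕ :=
  [ 256, 257, 4352, 4353, 4368, 69888, 4369, 69889, 69904, 1118464, 69905, 74000, 1118465, 1118480,
    74001, 1118481, 1122576, 1122577, 1188112, 1188113 ]

def euE6_2 : List (ℕ × ℕ) :=
  [ (1,1048575), (2,709834), (4,1048572), (8,709832), (16,1043792), (32,1048480), (64,705600),
    (128,709760), (256,1043712), (512,1028608), (1024,705536), (2048,1001472), (4096,692224),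
    (8192,1024000), (16384,671744), (32768,688128), (65536,983040), (131072,655360),
    (262144,786432), (524288,524288) ]

def edE6_2 : List (ℕ × ℕ) :=
  [ (1,0), (2,1), (4,1), (8,7), (16,5), (32,5), (64,31), (128,47), (256,53), (512,37), (1024,511),
    (2048,309), (4096,687), (8192,821), (16384,3583), (32768,14335), (65536,11061), (131072,131071),
    (262144,76597), (524288,524287) ]

theorem allE6_2 :
    allI (fun J => chk euE6_2 1048575 J 20 9 J 0) edE6_2 0 = true := by
  decide +kernel

theorem fineE6_2 : Fine E₆ 2 := by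
  refine fine_of_codes okE6 2 (vs := vsE6_2) (eu := euE6_2) (ed := edE6_2)
    (full := 1048575) (m := 20) (N := 9) ?_ ?_ ?_ ?_ ?_ ?_ ?_ allE6_2
  · decide +kernel
  · decide +kernel
  · decide +kernel
  · decide +kernel
  · decide +kernel
  · decide +kernel
  · decide +kernel

def vsE6_3 : List ℕ :=
  [ 4096, 4112, 4352, 69632, 4353, 4368, 69648, 69888, 1118208, 4369, 69889, 69904, 1118224,
    1118464, 69905, 1118465, 1118480, 1118481 ]

def euE6_3 : List (ℕ × ℕ) :=
  [ (1,262143), (2,219746), (4,257716), (8,261576), (16,181776), (32,215584), (64,219200),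
    (128,257152), (256,241920), (512,147968), (1024,181248), (2048,215040), (4096,200704),
    (8192,237568), (16384,147456), (32768,163840), (65536,196608), (131072,131072) ]

def edE6_3 : List (ℕ × ℕ) :=
  [ (1,0), (2,1), (4,1), (8,1), (16,5), (32,7), (64,11), (128,13), (256,9), (512,55), (1024,157),
    (2048,239), (4096,331), (8192,397), (16384,3839), (32768,9629), (65536,14831), (131072,131071) ]

theorem allE6_3 :
    allI (fun J => chk euE6_3 262143 J 18 7 J 0) edE6_3 0 = true := by
  decide +kernel

theorem fineE6_3 : Fine E₆ 3 := by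
  refine fine_of_codes okE6 3 (vs := vsE6_3) (eu := euE6_3) (ed := edE6_3)
    (full := 262143) (m := 18) (N := 7) ?_ ?_ ?_ ?_ ?_ ?_ ?_ allE6_3
  · decide +kernel
  · decide +kernel
  · decide +kernel
  · decide +kernel
  · decide +kernel
  · decide +kernel
  · decide +kernel

def vsE6_4 : List ℕ :=
  [ 65536, 69632, 1114112, 69648, 69888, 1118208, 69889, 69904, 1118224, 1118464, 69905, 74000,
    1118465, 1118480, 74001, 1118481, 1122576, 74257, 1122577, 1122833 ]

def euE6_4 : List (ℕ × ℕ) :=
  [ (1,1048575), (2,1048570), (4,897828), (8,1043848), (16,1048272), (32,897824), (64,971840),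
    (128,1043584), (256,893184), (512,897536), (1024,967680), (2048,1001472), (4096,823296),
    (8192,892928), (16384,933888), (32768,819200), (65536,851968), (131072,655360), (262144,786432),
    (524288,524288) ]

def edE6_4 : List (ℕ × ℕ) :=
  [ (1,0), (2,1), (4,1), (8,3), (16,3), (32,7), (64,19), (128,27), (256,47), (512,55), (1024,219),
    (2048,155), (4096,631), (8192,959), (16384,3291), (32768,14335), (65536,11199), (131072,19675),
    (262144,131071), (524288,524287) ]

theorem allE6_4 :
    allI (fun J => chk euE6_4 1048575 J 20 9 J 0) edE6_4 0 = true := by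
  decide +kernel

theorem fineE6_4 : Fine E₆ 4 := by
  refine fine_of_codes okE6 4 (vs := vsE6_4) (eu := euE6_4) (ed := edE6_4)
    (full := 1048575) (m := 20) (N := 9) ?_ ?_ ?_ ?_ ?_ ?_ ?_ allE6_4
  · decide +kernel
  · decide +kernel
  · decide +kernel
  · decide +kernel
  · decide +kernel
  · decide +kernel
  · decide +kernel

def vsE6_5 : List ℕ :=
  [ 1048576, 1114112, 1118208, 1118224, 1118464, 1118465, 1118480, 1118481, 1122576, 1122577,
    1188112, 1122833, 1188113, 1188369, 1192465, 1192481 ]

def euE6_5 : List (ℕ × ℕ) :=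
  [ (1,65535), (2,65534), (4,65532), (8,65480), (16,65520), (32,64160), (64,65472), (128,64128),
    (256,65280), (512,64000), (1024,62464), (2048,59392), (4096,61440), (8192,57344), (16384,49152),
    (32768,32768) ]

def edE6_5 : List (ℕ × ℕ) :=
  [ (1,0), (2,1), (4,3), (8,7), (16,7), (32,23), (64,31), (128,127), (256,95), (512,511),
    (1024,351), (2048,1023), (4096,2047), (8192,8191), (16384,16383), (32768,32767) ]

theorem allE6_5 :
    allI (fun J => chk euE6_5 65535 J 16 12 J 0) edE6_5 0 = true := by
  decide +kernel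

theorem fineE6_5 : Fine E₆ 5 := by
  refine fine_of_codes okE6 5 (vs := vsE6_5) (eu := euE6_5) (ed := edE6_5)
    (full := 65535) (m := 16) (N := 12) ?_ ?_ ?_ ?_ ?_ ?_ ?_ allE6_5
  · decide +kernel
  · decide +kernel
  · decide +kernel
  · decide +kernel
  · decide +kernel
  · decide +kernel
  · decide +kernel

end Pool.Q47.Pan
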