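import Pool.Agent.Q47.Pan.RootsF4

/-!
# Nodes of type `F4`
-/

namespace Pool.Q47.Pan

open CartanMatrix

def vsF4_0 : List ℕ :=
  [ 1, 17, 273, 529, 4369, 545, 4625, 4641, 8721, 4897, 8737, 8993, 9249, 9265 ]

def euF4_0 : List (ℕ × ℕ) :=
  [ (1,16383), (2,16382), (4,16380), (8,16360), (16,16336), (32,16032), (64,16320), (128,16000),
    (256,15616), (512,14848), (1024,15360), (2048,14336), (4096,12288), (8192,8192) ]

def edF4_0 : List (ℕ × ℕ) :=
  [ (1,0), (2,1), (4,3), (8,7), (16,7), (32,15), (64,31), (128,127), (256,95), (512,255),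
    (1024,511), (2048,2047), (4096,4095), (8192,8191) ]

theorem allF4_0 :
    allI (fun J => chk euF4_0 16383 J 14 11 J 0) edF4_0 0 = true := by
  decide +kernel

theorem fineF4_0 : Fine F₄ 0 := by
  refine fine_of_codes okF4 0 (vs := vsF4_0) (eu := euF4_0) (ed := edF4_0)
    (full := 16383) (m := 14) (N := 11) ?_ ?_ ?_ ?_ ?_ ?_ ?_ allF4_0
  · decide +kernel
  · decide +kernel
  · decide +kernel
  · decide +kernel
  · decide +kernel
  · decide +kernel
  · decide +kernel

def vsF4_1 : List ℕ :=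
  [ 16, 17, 272, 273, 528, 4368, 529, 4369, 4624, 4625, 8720, 8721 ]

def euF4_1 : List (ℕ × ℕ) :=
  [ (1,4095), (2,2762), (4,4092), (8,2760), (16,3920), (32,4000), (64,2624), (128,2688), (256,3840),
    (512,2560), (1024,3072), (2048,2048) ]

def edF4_1 : List (ℕ × ℕ) :=
  [ (1,0), (2,1), (4,1), (8,7), (16,5), (32,5), (64,31), (128,47), (256,53), (512,511), (1024,309),
    (2048,2047) ]

theorem allF4_1 :
    allI (fun J => chk euF4_1 4095 J 12 7 J 0) edF4_1 0 = true := by
  decide +kernel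

theorem fineF4_1 : Fine F₄ 1 := by
  refine fine_of_codes okF4 1 (vs := vsF4_1) (eu := euF4_1) (ed := edF4_1)
    (full := 4095) (m := 12) (N := 7) ?_ ?_ ?_ ?_ ?_ ?_ ?_ allF4_1
  · decide +kernel
  · decide +kernel
  · decide +kernel
  · decide +kernel
  · decide +kernel
  · decide +kernel
  · decide +kernel

def vsF4_2 : List ℕ :=
  [ 256, 272, 4352, 273, 4368, 4369 ]

def euF4_2 : List (ℕ × ℕ) :=
  [ (1,63), (2,58), (4,52), (8,40), (16,48), (32,32) ]

def edF4_2 : List (ℕ × ℕ) :=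
  [ (1,0), (2,1), (4,1), (8,3), (16,7), (32,31) ]

theorem allF4_2 :
    allI (fun J => chk euF4_2 63 J 6 5 J 0) edF4_2 0 = true := by
  decide +kernel

theorem fineF4_2 : Fine F₄ 2 := by
  refine fine_of_codes okF4 2 (vs := vsF4_2) (eu := euF4_2) (ed := edF4_2)
    (full := 63) (m := 6) (N := 5) ?_ ?_ ?_ ?_ ?_ ?_ ?_ allF4_2
  · decide +kernel
  · decide +kernel
  · decide +kernel
  · decide +kernel
  · decide +kernel
  · decide +kernel
  · decide +kernel

def vsF4_3 : List ℕ :=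
  [ 4096, 4352, 4368, 4369, 4624, 4625, 4641, 4897 ]

def euF4_3 : List (ℕ × ℕ) :=
  [ (1,255), (2,254), (4,252), (8,232), (16,240), (32,224), (64,192), (128,128) ]

def edF4_3 : List (ℕ × ℕ) :=
  [ (1,0), (2,1), (4,3), (8,7), (16,7), (32,31), (64,63), (128,127) ]

theorem allF4_3 :
    allI (fun J => chk euF4_3 255 J 8 8 J 0) edF4_3 0 = true := by
  decide +kernel

theorem fineF4_3 : Fine F₄ 3 := by
  refine fine_of_codes okF4 3 (vs := vsF4_3) (eu := euF4_3) (ed := edF4_3)
    (full := 255) (m := 8) (N := 8) ?_ ?_ ?_ ?_ ?_ ?_ ?_ allF4_3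
  · decide +kernel
  · decide +kernel
  · decide +kernel
  · decide +kernel
  · decide +kernel
  · decide +kernel
  · decide +kernel

end Pool.Q47.Pan
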