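import Pool.Agent.Q47.Pan.RootsG2

/-!
# Nodes of type `G2`
-/

namespace Pool.Q47.Pan

open CartanMatrix

def vsG2_0 : List ℕ :=
  [ 1, 17, 33, 49 ]

def euG2_0 : List (ℕ × ℕ) :=
  [ (1,15), (2,14), (4,12), (8,8) ]

def edG2_0 : List (ℕ × ℕ) :=
  [ (1,0), (2,1), (4,3), (8,7) ]

theorem allG2_0 :
    allI (fun J => chk euG2_0 15 J 4 5 J 0) edG2_0 0 = true := by
  decide +kernel

theorem fineG2_0 : Fine G₂ 0 := by
  refine fine_of_codes okG2 0 (vs := vsG2_0) (eu := euG2_0) (ed := edG2_0)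
    (full := 15) (m := 4) (N := 5) ?_ ?_ ?_ ?_ ?_ ?_ ?_ allG2_0
  · decide +kernel
  · decide +kernel
  · decide +kernel
  · decide +kernel
  · decide +kernel
  · decide +kernel
  · decide +kernel

def vsG2_1 : List ℕ :=
  [ 16, 17 ]

def euG2_1 : List (ℕ × ℕ) :=
  [ (1,3), (2,2) ]

def edG2_1 : List (ℕ × ℕ) :=
  [ (1,0), (2,1) ]

theorem allG2_1 :
    allI (fun J => chk euG2_1 3 J 2 3 J 0) edG2_1 0 = true := by
  decide +kernel

theorem fineG2_1 : Fine G₂ 1 := by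
  refine fine_of_codes okG2 1 (vs := vsG2_1) (eu := euG2_1) (ed := edG2_1)
    (full := 3) (m := 2) (N := 3) ?_ ?_ ?_ ?_ ?_ ?_ ?_ allG2_1
  · decide +kernel
  · decide +kernel
  · decide +kernel
  · decide +kernel
  · decide +kernel
  · decide +kernel
  · decide +kernel

end Pool.Q47.Pan
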