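import Pool.Agent.Q47.Pan.MaskGood

/-!
# Root systems given by lists of codes
-/

namespace Pool.Q47.Pan

open Set Function

section

variable {n : ℕ} {M : Matrix (Fin n) (Fin n) ℤ}

/-- pairing of a code with a simple coroot -/
def prc (M : Matrix (Fin n) (Fin n) ℤ) (c : ℕ) (j : Fin n) : ℤ :=
  ((List.finRange n).map (fun i : Fin n => (dig c i : ℤ) * M i j)).sum

theorem pair_dec (c : ℕ) (j : Fin n) : pair M (dec n c) j = prc M c j := by
  unfold pair prc
  rw [Fin.sum_univ_def]
  rfl

/-- code of the reflected vector -/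
def rfc (M : Matrix (Fin n) (Fin n) ℤ) (c : ℕ) (j : Fin n) : ℕ :=
  ((c : ℤ) - prc M c j * (16 ^ (j : ℕ) : ℕ)).toNat

/-- the reflection of `c` at `j` stays in the list (or `c` is the simple root `j`) -/
def refOK (M : Matrix (Fin n) (Fin n) ℤ) (pos : List ℕ) (c : ℕ) (j : Fin n) : Bool :=
  Nat.beq c (16 ^ (j : ℕ)) || (pos.elem (rfc M c j) &&
    (List.finRange n).all (fun k => if k = j then
      decide ((dig (rfc M c j) k : ℤ) = (dig c j : ℤ) - prc M c j)
      else Nat.beq (dig (rfc M c j) k) (dig c k)))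

/-- `c` is simple or a reflection of a smaller element of the list -/
def genOK (M : Matrix (Fin n) (Fin n) ℤ) (pos : List ℕ) (c : ℕ) : Bool :=
  (List.finRange n).any (fun j => Nat.beq c (16 ^ (j : ℕ)) ||
    (Nat.ble (rfc M c j + 1) c && pos.elem (rfc M c j) && !Nat.beq (rfc M c j) (16 ^ (j : ℕ)) &&
      Nat.beq (rfc M (rfc M c j) j) c))

/-- the check for the list of positive roots -/
def RootOK (M : Matrix (Fin n) (Fin n) ℤ) (pos : List ℕ) : Prop :=
  (∀ j, M j j = 2) ∧ ((List.finRange n).all (fun j => pos.elem (16 ^ (j : ℕ))) = true) ∧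
    (pos.all (fun c => (List.finRange n).all (fun j => refOK M pos c j)) = true) ∧
    (pos.all (fun c => genOK M pos c) = true)

theorem dig_pow (j k : ℕ) : dig (16 ^ j) k = if k = j then 1 else 0 := by
  unfold dig
  rcases lt_trichotomy k j with h | h | h
  · obtain ⟨d, rfl⟩ : ∃ d, j = k + (d + 1) := ⟨j - k - 1, by omega⟩
    rw [if_neg (by omega), pow_add, Nat.mul_div_cancel_left _ (by positivity), pow_succ,
      Nat.mul_mod_left]
  · subst h
    rw [if_pos rfl, Nat.div_self (by positivity)]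
  · rw [if_neg (by omega), Nat.div_eq_of_lt (Nat.pow_lt_pow_right (by norm_num) h)]

theorem dec_pow (j : Fin n) : dec n (16 ^ (j : ℕ)) = Pi.single j 1 := by
  funext k
  change ((dig (16 ^ (j : ℕ)) k : ℕ) : ℤ) = _
  rw [dig_pow, Pi.single_apply]
  by_cases h : k = j
  · subst h; simp
  · rw [if_neg h, if_neg (fun hc => h (Fin.ext hc))]; simp

theorem sref_dec {pos : List ℕ} {c : ℕ} {j : Fin n} (h : refOK M pos c j = true)
    (hne : c ≠ 16 ^ (j : ℕ)) : rfc M c j ∈ pos ∧ sref M j (dec n c) = dec n (rfc M c j) := by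
  unfold refOK at h
  rw [Bool.or_eq_true, Nat.beq_eq] at h
  rcases h with h | h
  · exact absurd h hne
  · rw [Bool.and_eq_true, List.all_eq_true] at h
    obtain ⟨h1, h2⟩ := h
    refine ⟨by simpa using h1, ?_⟩
    funext k
    have h3 := h2 k (List.mem_finRange k)
    rw [sref_apply, pair_dec]
    by_cases hk : k = j
    · rw [if_pos hk] at h3
      subst hk
      rw [if_pos rfl]
      have := of_decide_eq_true h3
      exact this.symm
    · rw [if_neg hk, Nat.beq_eq] at h3
      rw [if_neg hk]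
      change ((dig c k : ℕ) : ℤ) = dig (rfc M c j) k
      rw [h3]

theorem root_of_mem {pos : List ℕ} (h : RootOK M pos) : ∀ c, c ∈ pos → IsRoot M (dec n c) := by
  obtain ⟨_, _, h3, h4⟩ := h
  intro c
  induction c using Nat.strong_induction_on with
  | _ c ih =>
    intro hc
    have h5 := List.all_eq_true.1 h4 c hc
    unfold genOK at h5
    rw [List.any_eq_true] at h5
    obtain ⟨j, _, h6⟩ := h5
    rw [Bool.or_eq_true] at h6
    rcases h6 with h6 | h6
    · rw [Nat.beq_eq] at h6
      rw [h6, dec_pow]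
      exact IsRoot.simple j
    · rw [Bool.and_eq_true, Bool.and_eq_true, Bool.and_eq_true] at h6
      obtain ⟨⟨⟨h7, h8⟩, h9⟩, h10⟩ := h6
      have h8' : rfc M c j ∈ pos := by simpa using h8
      rw [Nat.ble_eq] at h7
      rw [Nat.beq_eq] at h10
      have h9' : rfc M c j ≠ 16 ^ (j : ℕ) := by
        intro hcon
        rw [Bool.not_eq_true', ← Bool.not_eq_true, Nat.beq_eq] at h9
        exact h9 hcon
      have h11 := List.all_eq_true.1 (List.all_eq_true.1 h3 _ h8') j (List.mem_finRange j)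
      have h12 := (sref_dec h11 h9').2
      rw [h10] at h12
      rw [← h12]
      exact IsRoot.reflect j _ (ih _ h7 h8')

theorem sref_neg (j : Fin n) (v : Fin n → ℤ) : sref M j (-v) = - sref M j v := by
  funext k
  have : pair M (-v) j = - pair M v j := by
    unfold pair
    rw [← Finset.sum_neg_distrib]
    exact Finset.sum_congr rfl fun i _ => by simp
  rw [Pi.neg_apply, sref_apply, sref_apply, this]
  split_ifs <;> simp; ring

theorem mem_of_root {pos : List ℕ} (h : RootOK M pos) {v : Fin n → ℤ} (hv : IsRoot M v) :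
    ∃ c ∈ pos, v = dec n c ∨ v = - dec n c := by
  obtain ⟨h1, h2, h3, _⟩ := h
  have hs : ∀ j : Fin n, 16 ^ (j : ℕ) ∈ pos := by
    intro j
    have := List.all_eq_true.1 h2 j (List.mem_finRange j)
    simpa using this
  refine IsRoot.forall_of (fun v => ∃ c ∈ pos, v = dec n c ∨ v = - dec n c) ?_ ?_ hv
  · intro j
    exact ⟨_, hs j, Or.inl (dec_pow j).symm⟩
  · rintro j v ⟨c, hc, hv⟩
    have h5 := List.all_eq_true.1 (List.all_eq_true.1 h3 _ hc) j (List.mem_finRange j)
    by_cases hcj : c = 16 ^ (j : ℕ)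
    · have e1 : sref M j (dec n c) = - dec n c := by
        rw [hcj, dec_pow]
        funext k
        have : pair M (Pi.single j 1) j = 2 := by
          unfold pair
          rw [Finset.sum_eq_single j]
          · simp [h1]
          · intro b _ hb; simp [Pi.single_apply, hb]
          · intro hc; exact absurd (Finset.mem_univ _) hc
        rw [sref_apply, this, Pi.neg_apply]
        by_cases hk : k = j
        · subst hk; simp
        · simp [hk]
      rcases hv with rfl | rfl
      · exact ⟨c, hc, Or.inr e1⟩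
      · refine ⟨c, hc, Or.inl ?_⟩
        rw [sref_neg, e1, neg_neg]
    · obtain ⟨h6, h7⟩ := sref_dec h5 hcj
      rcases hv with rfl | rfl
      · exact ⟨_, h6, Or.inl h7⟩
      · exact ⟨_, h6, Or.inr (by rw [sref_neg, h7])⟩

/-- height of a code -/
def htc (n c : ℕ) : ℕ := ((List.range n).map (dig c)).sum

theorem ht_dec (c : ℕ) : ht (dec n c) = (htc n c : ℤ) := by
  unfold ht htc dec
  rw [Fin.sum_univ_eq_sum_range (fun j => (dig c j : ℤ)) n, ← Nat.cast_sum]
  congr 1

theorem Delta_eq {pos : List ℕ} (h : RootOK M pos) (i : Fin n) {vs : List ℕ}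
    (hvs : pos.filter (fun c => Nat.beq (dig c i) 1) = vs) : Delta1 M i = PV n vs := by
  ext v
  constructor
  · rintro ⟨hv, hvi⟩
    obtain ⟨c, hc, rfl | rfl⟩ := mem_of_root h hv
    · refine ⟨c, ?_, rfl⟩
      rw [← hvs, List.mem_filter]
      refine ⟨hc, ?_⟩
      rw [Nat.beq_eq]
      have : ((dig c i : ℕ) : ℤ) = 1 := hvi
      exact_mod_cast this
    · have : - ((dig c i : ℕ) : ℤ) = 1 := hvi
      omega
  · rintro ⟨c, hc, rfl⟩
    rw [← hvs, List.mem_filter, Nat.beq_eq] at hc
    refine ⟨root_of_mem h c hc.1, ?_⟩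
    change ((dig c i : ℕ) : ℤ) = 1
    rw [hc.2]
    rfl

theorem fine_of_codes {pos : List ℕ} (h : RootOK M pos) (i : Fin n) {vs : List ℕ}
    (hvs : pos.filter (fun c => Nat.beq (dig c i) 1) = vs)
    {eu ed : List (ℕ × ℕ)} {full m N : ℕ} (heu : mkU n vs vs 1 = eu)
    (hed : mkD n vs vs 1 = ed) (hm : vs.length = m) (hfull : full = 2 ^ m - 1)
    (hlin : eu.all (fun p => Nat.beq (Nat.mod p.2 p.1) 0) = true)
    (hht : (vs.all (fun c => Nat.ble (htc n c + 1) N) &&
      vs.any (fun c => Nat.beq (htc n c + 1) N)) = true)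
    (hall : allI (fun J => chk eu full J m N J 0) ed 0 = true) : Fine M i := by
  obtain ⟨hL, hG⟩ := mask_good heu hed hm hfull hlin hall
  rw [Bool.and_eq_true, List.all_eq_true, List.any_eq_true] at hht
  obtain ⟨h1, c0, hc0, h2⟩ := hht
  rw [Nat.beq_eq] at h2
  refine ⟨N, by omega, ?_, ?_, ?_⟩
  · rw [Delta_eq h i hvs]; exact PV_finite
  · rw [Delta_eq h i hvs]
    constructor
    · refine ⟨dec n c0, ⟨c0, hc0, rfl⟩, ?_⟩
      rw [ht_dec]
      omega
    · rintro _ ⟨_, ⟨c, hc, rfl⟩, rfl⟩
      have := h1 c hc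
      rw [Nat.ble_eq] at this
      rw [ht_dec]
      omega
  · rw [Delta_eq h i hvs]; exact hG

end

end Pool.Q47.Pan
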