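import Pool.Agent.Q47.Pan.Basic

/-!
# Root systems from Cartan matrices, in simple root coordinates
-/

namespace Pool.Q47.Pan

open Set Function

section

variable {ι : Type*} [Fintype ι] [DecidableEq ι]

/-- `⟨v, α_j^∨⟩` for `v` given by its coordinates in the basis of simple roots -/
def pair (M : Matrix ι ι ℤ) (v : ι → ℤ) (j : ι) : ℤ := ∑ i, v i * M i j

/-- the simple reflection `s_j(v) = v - ⟨v, α_j^∨⟩ α_j` -/
def sref (M : Matrix ι ι ℤ) (j : ι) (v : ι → ℤ) : ι → ℤ := v - pair M v j • Pi.single j 1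

/-- the roots: the vectors obtained from the simple roots by simple reflections -/
inductive IsRoot (M : Matrix ι ι ℤ) : (ι → ℤ) → Prop
  | simple (j : ι) : IsRoot M (Pi.single j 1)
  | reflect (j : ι) (v : ι → ℤ) : IsRoot M v → IsRoot M (sref M j v)

/-- `Δ(1)` for the 1-standard grading given by the simple root `α_i` -/
def Delta1 (M : Matrix ι ι ℤ) (i : ι) : Set (ι → ℤ) := {v | IsRoot M v ∧ v i = 1}

/-- the height of a root -/
def ht (v : ι → ℤ) : ℤ := ∑ i, v i

theorem sref_apply (M : Matrix ι ι ℤ) (j : ι) (v : ι → ℤ) (k : ι) :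
    sref M j v k = if k = j then v j - pair M v j else v k := by
  unfold sref
  by_cases h : k = j
  · subst h; simp
  · simp [h]

end

/-- restriction of a function on `ℕ` -/
def res (n : ℕ) (V : ℕ → ℤ) : Fin n → ℤ := fun k => V k

theorem res_apply (n : ℕ) (V : ℕ → ℤ) (k : Fin n) : res n V k = V k := rfl

theorem sref_res {n : ℕ} {M : Matrix (Fin n) (Fin n) ℤ} {V W : ℕ → ℤ} (j : ℕ) (hj : j < n)
    (hp : pair M (res n V) ⟨j, hj⟩ = V j - W j) (hW : ∀ k < n, k ≠ j → W k = V k) :
    sref M ⟨j, hj⟩ (res n V) = res n W := by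
  funext k
  rw [sref_apply, hp]
  by_cases h : k = ⟨j, hj⟩
  · subst h
    simp [res]
  · rw [if_neg h]
    exact (hW k k.2 (fun hc => h (Fin.ext hc))).symm

theorem IsRoot.step {n : ℕ} {M : Matrix (Fin n) (Fin n) ℤ} {V W : ℕ → ℤ} (j : ℕ) (hj : j < n)
    (h : IsRoot M (res n V)) (hp : pair M (res n V) ⟨j, hj⟩ = V j - W j)
    (hW : ∀ k < n, k ≠ j → W k = V k) : IsRoot M (res n W) := by
  rw [← sref_res j hj hp hW]
  exact IsRoot.reflect _ _ h

theorem IsRoot.base {n : ℕ} (M : Matrix (Fin n) (Fin n) ℤ) {W : ℕ → ℤ} (j : ℕ) (hj : j < n)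
    (hW : ∀ k < n, W k = if k = j then 1 else 0) : IsRoot M (res n W) := by
  have : res n W = Pi.single ⟨j, hj⟩ 1 := by
    funext k
    rw [res_apply, hW k k.2, Pi.single_apply]
    by_cases h : k = ⟨j, hj⟩
    · subst h; simp
    · rw [if_neg h, if_neg (fun hc => h (Fin.ext hc))]
  rw [this]
  exact IsRoot.simple _

theorem IsRoot.forall_of {ι : Type*} [Fintype ι] [DecidableEq ι] {M : Matrix ι ι ℤ}
    (Φ : (ι → ℤ) → Prop) (h1 : ∀ j, Φ (Pi.single j 1)) (h2 : ∀ j v, Φ v → Φ (sref M j v))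
    {v : ι → ℤ} (h : IsRoot M v) : Φ v := by
  induction h with
  | simple j => exact h1 j
  | reflect j v _ ih => exact h2 j v ih

/-- transfer of a predicate on restricted functions -/
theorem single_eq_res {n : ℕ} (j : Fin n) :
    (Pi.single j 1 : Fin n → ℤ) = res n (fun k => if k = (j : ℕ) then 1 else 0) := by
  funext k
  rw [res_apply, Pi.single_apply]
  by_cases h : k = j
  · subst h; simp
  · rw [if_neg h, if_neg (fun hc => h (Fin.ext hc))]

theorem sum3 (n j : ℕ) (hj : j < n) (f : ℕ → ℤ)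
    (hf : ∀ i < n, i ≠ j → i + 1 ≠ j → i ≠ j + 1 → f i = 0) :
    ∑ i : Fin n, f i = f j + (if 0 < j then f (j - 1) else 0) +
      (if j + 1 < n then f (j + 1) else 0) := by
  rw [Fin.sum_univ_eq_sum_range f n]
  have h1 : ∀ i ∈ Finset.range n, f i = (if i = j then f i else 0) +
      ((if i + 1 = j then f i else 0) + (if i = j + 1 then f i else 0)) := by
    intro i hi
    rw [Finset.mem_range] at hi
    by_cases c1 : i = j
    · subst c1; simp
    · by_cases c2 : i + 1 = j
      · rw [if_neg c1, if_pos c2, if_neg (by omega)]; simp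
      · by_cases c3 : i = j + 1
        · rw [if_neg c1, if_neg c2, if_pos c3]; simp
        · rw [if_neg c1, if_neg c2, if_neg c3, hf i hi c1 c2 c3]; simp
  rw [Finset.sum_congr rfl h1, Finset.sum_add_distrib, Finset.sum_add_distrib,
    Finset.sum_ite_eq' (Finset.range n) j, Finset.sum_ite_eq' (Finset.range n) (j + 1),
    if_pos (Finset.mem_range.2 hj), add_assoc]
  congr 1
  congr 1
  · by_cases c : 0 < j
    · rw [if_pos c]
      have : ∀ i ∈ Finset.range n, (if i + 1 = j then f i else 0) =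
          (if i = j - 1 then f i else 0) := by
        intro i _
        by_cases c1 : i + 1 = j
        · rw [if_pos c1, if_pos (by omega)]
        · rw [if_neg c1, if_neg (by omega)]
      rw [Finset.sum_congr rfl this, Finset.sum_ite_eq' (Finset.range n) (j - 1),
        if_pos (Finset.mem_range.2 (by omega))]
    · rw [if_neg c]
      apply Finset.sum_eq_zero
      intro i _
      rw [if_neg (by omega)]
  · by_cases c : j + 1 < n
    · rw [if_pos c, if_pos (Finset.mem_range.2 c)]
    · rw [if_neg c, if_neg (by simpa using c)]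

theorem sum_supp (n : ℕ) (s : Finset ℕ) (hs : ∀ i ∈ s, i < n) (f : ℕ → ℤ)
    (hf : ∀ i < n, i ∉ s → f i = 0) : ∑ i : Fin n, f i = ∑ i ∈ s, f i := by
  rw [Fin.sum_univ_eq_sum_range f n]
  symm
  apply Finset.sum_subset
  · intro i hi
    exact Finset.mem_range.2 (hs i hi)
  · intro i hi h
    exact hf i (Finset.mem_range.1 hi) h

theorem pair_eq3 {n : ℕ} {M : Matrix (Fin n) (Fin n) ℤ} {V : ℕ → ℤ} {j : ℕ} (hj : j < n)
    (f : ℕ → ℤ) (h : ∀ i (hi : i < n), V i * M ⟨i, hi⟩ ⟨j, hj⟩ = f i)
    (hf : ∀ i < n, i ≠ j → i + 1 ≠ j → i ≠ j + 1 → f i = 0) :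
    pair M (res n V) ⟨j, hj⟩ = f j + (if 0 < j then f (j - 1) else 0) +
      (if j + 1 < n then f (j + 1) else 0) := by
  rw [← sum3 n j hj f hf]
  exact Finset.sum_congr rfl fun i _ => h i i.2

theorem pair_supp {n : ℕ} {M : Matrix (Fin n) (Fin n) ℤ} {V : ℕ → ℤ} {j : ℕ} (hj : j < n)
    (f : ℕ → ℤ) (h : ∀ i (hi : i < n), V i * M ⟨i, hi⟩ ⟨j, hj⟩ = f i) (s : Finset ℕ)
    (hs : ∀ i ∈ s, i < n) (hf : ∀ i < n, i ∉ s → f i = 0) :
    pair M (res n V) ⟨j, hj⟩ = ∑ i ∈ s, f i := by
  rw [← sum_supp n s hs f hf]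
  exact Finset.sum_congr rfl fun i _ => h i i.2

open CartanMatrix

/-- the entries of the Cartan matrix of type `A` -/
def entA (i j : ℕ) : ℤ := if i = j then 2 else if i + 1 = j ∨ j + 1 = i then -1 else 0

/-- the entries of the Cartan matrix of type `B` -/
def entB (n i j : ℕ) : ℤ :=
  if i = j then 2 else if i + 1 = j then if j = n - 1 then -2 else -1
    else if j + 1 = i then -1 else 0

/-- the entries of the Cartan matrix of type `C` -/
def entC (n i j : ℕ) : ℤ :=
  if i = j then 2 else if i + 1 = j then -1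
    else if j + 1 = i then if i = n - 1 then -2 else -1 else 0

theorem pairA {n : ℕ} (V : ℕ → ℤ) (j : ℕ) (hj : j < n) :
    pair (A n) (res n V) ⟨j, hj⟩ = 2 * V j - (if 0 < j then V (j - 1) else 0) -
      (if j + 1 < n then V (j + 1) else 0) := by
  rw [pair_eq3 hj (fun i : ℕ => V i * entA i j)]
  · have e1 : entA j j = 2 := by unfold entA; rw [if_pos rfl]
    have e2 : 0 < j → entA (j - 1) j = -1 := by
      intro h; unfold entA; split_ifs <;> first | rfl | (exfalso; omega)
    have e3 : entA (j + 1) j = -1 := by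
      unfold entA; split_ifs <;> first | rfl | (exfalso; omega)
    rw [e1, e3]
    by_cases c : 0 < j
    · rw [if_pos c, if_pos c, e2 c]
      split_ifs <;> ring
    · rw [if_neg c, if_neg c]
      split_ifs <;> ring
  · intro i hi
    simp only [A, Matrix.of_apply, Fin.mk.injEq, entA]
  · intro i _ c1 c2 c3
    have : entA i j = 0 := by unfold entA; split_ifs <;> first | rfl | (exfalso; omega)
    rw [this, mul_zero]

theorem pairB {n : ℕ} (V : ℕ → ℤ) (j : ℕ) (hj : j < n) :
    pair (B n) (res n V) ⟨j, hj⟩ = 2 * V j -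
      (if 0 < j then (if j + 1 = n then 2 * V (j - 1) else V (j - 1)) else 0) -
      (if j + 1 < n then V (j + 1) else 0) := by
  rw [pair_eq3 hj (fun i : ℕ => V i * entB n i j)]
  · have e1 : entB n j j = 2 := by unfold entB; rw [if_pos rfl]
    have e2 : 0 < j → entB n (j - 1) j = if j + 1 = n then -2 else -1 := by
      intro h; unfold entB; split_ifs <;> first | rfl | (exfalso; omega)
    have e3 : entB n (j + 1) j = -1 := by
      unfold entB; split_ifs <;> first | rfl | (exfalso; omega)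
    rw [e1, e3]
    by_cases c : 0 < j
    · rw [if_pos c, if_pos c, e2 c]
      split_ifs <;> ring
    · rw [if_neg c, if_neg c]
      split_ifs <;> ring
  · intro i hi
    simp only [B, Matrix.of_apply, Fin.mk.injEq, entB]
  · intro i _ c1 c2 c3
    have : entB n i j = 0 := by unfold entB; split_ifs <;> first | rfl | (exfalso; omega)
    rw [this, mul_zero]

theorem pairC {n : ℕ} (V : ℕ → ℤ) (j : ℕ) (hj : j < n) :
    pair (C n) (res n V) ⟨j, hj⟩ = 2 * V j - (if 0 < j then V (j - 1) else 0) -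
      (if j + 1 < n then (if j + 2 = n then 2 * V (j + 1) else V (j + 1)) else 0) := by
  rw [pair_eq3 hj (fun i : ℕ => V i * entC n i j)]
  · have e1 : entC n j j = 2 := by unfold entC; rw [if_pos rfl]
    have e2 : 0 < j → entC n (j - 1) j = -1 := by
      intro h; unfold entC; split_ifs <;> first | rfl | (exfalso; omega)
    have e3 : entC n (j + 1) j = if j + 2 = n then -2 else -1 := by
      unfold entC; split_ifs <;> first | rfl | (exfalso; omega)
    rw [e1, e3]
    by_cases c : 0 < j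
    · rw [if_pos c, if_pos c, e2 c]
      split_ifs <;> ring
    · rw [if_neg c, if_neg c]
      split_ifs <;> ring
  · intro i hi
    simp only [C, Matrix.of_apply, Fin.mk.injEq, entC]
  · intro i _ c1 c2 c3
    have : entC n i j = 0 := by unfold entC; split_ifs <;> first | rfl | (exfalso; omega)
    rw [this, mul_zero]

/-- the entries of the Cartan matrix of type `D` -/
def entD (n i j : ℕ) : ℤ :=
  if i = j then 2
  else if i + 1 = j ∧ j + 2 < n then -1
  else if j + 1 = i ∧ i + 2 < n then -1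
  else if i + 3 = n ∧ (j + 2 = n ∨ j + 1 = n) then -1
  else if j + 3 = n ∧ (i + 2 = n ∨ i + 1 = n) then -1 else 0

theorem entD_eq {n : ℕ} (hn : 4 ≤ n) {i j : ℕ} (hi : i < n) (hj : j < n) :
    D n ⟨i, hi⟩ ⟨j, hj⟩ = entD n i j := by
  simp only [D, Matrix.of_apply, Fin.mk.injEq, entD]
  rw [if_neg (show ¬ n ≤ 2 by omega)]

theorem entD_self (n i : ℕ) : entD n i i = 2 := by
  unfold entD; rw [if_pos rfl]

theorem entD_neg {n i j : ℕ} (h : (i + 1 = j ∧ j + 2 < n) ∨ (j + 1 = i ∧ i + 2 < n) ∨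
    (i + 3 = n ∧ (j + 2 = n ∨ j + 1 = n)) ∨ (j + 3 = n ∧ (i + 2 = n ∨ i + 1 = n))) :
    entD n i j = -1 := by
  unfold entD
  split_ifs <;> first | rfl | (exfalso; omega)

theorem entD_zero {n i j : ℕ} (h0 : i ≠ j) (h : ¬ ((i + 1 = j ∧ j + 2 < n) ∨
    (j + 1 = i ∧ i + 2 < n) ∨
    (i + 3 = n ∧ (j + 2 = n ∨ j + 1 = n)) ∨ (j + 3 = n ∧ (i + 2 = n ∨ i + 1 = n)))) :
    entD n i j = 0 := by
  unfold entD
  split_ifs <;> first | rfl | (exfalso; omega)

/-- pairing in type `D`: in the rank `n`, the nodes `n-2` and `n-1` hang on the node `n-3` -/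
theorem pairD1 {n : ℕ} (hn : 4 ≤ n) (V : ℕ → ℤ) (j : ℕ) (hj : j < n) (h : j + 3 < n) :
    pair (D n) (res n V) ⟨j, hj⟩ = 2 * V j - (if 0 < j then V (j - 1) else 0) - V (j + 1) := by
  rw [pair_eq3 hj (fun i : ℕ => V i * entD n i j)]
  · rw [entD_self, if_pos (show j + 1 < n by omega),
      entD_neg (i := j + 1) (j := j) (Or.inr (Or.inl (by omega)))]
    by_cases c : 0 < j
    · rw [if_pos c, if_pos c, entD_neg (i := j - 1) (j := j) (Or.inl (by omega))]
      ring
    · rw [if_neg c, if_neg c]; ring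
  · intro i hi
    rw [entD_eq hn]
  · intro i _ c1 c2 c3
    rw [entD_zero c1 (by omega), mul_zero]

theorem pairD2 {n : ℕ} (hn : 4 ≤ n) (V : ℕ → ℤ) (j : ℕ) (hj : j < n) (h : j + 3 = n) :
    pair (D n) (res n V) ⟨j, hj⟩ = 2 * V j - V (j - 1) - V (j + 1) - V (j + 2) := by
  rw [pair_supp hj (fun i : ℕ => V i * entD n i j) (fun i hi => by rw [entD_eq hn]) ({j - 1, j, j + 1, j + 2} : Finset ℕ)]
  · rw [Finset.sum_insert, Finset.sum_insert, Finset.sum_insert, Finset.sum_singleton,
      entD_self, entD_neg (i := j - 1) (j := j) (Or.inl (by omega)),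
      entD_neg (i := j + 1) (j := j) (by omega), entD_neg (i := j + 2) (j := j) (by omega)]
    · ring
    · simp
    · simp
    · simp only [Finset.mem_insert, Finset.mem_singleton]; omega
  · intro i hi
    simp only [Finset.mem_insert, Finset.mem_singleton] at hi
    omega
  · intro i hi hs
    simp only [Finset.mem_insert, Finset.mem_singleton] at hs
    rw [entD_zero (by omega) (by omega), mul_zero]

theorem pairD3 {n : ℕ} (hn : 4 ≤ n) (V : ℕ → ℤ) (j : ℕ) (hj : j < n) (h : n < j + 3) :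
    pair (D n) (res n V) ⟨j, hj⟩ = 2 * V j - V (n - 3) := by
  rw [pair_supp hj (fun i : ℕ => V i * entD n i j) (fun i hi => by rw [entD_eq hn]) ({n - 3, j} : Finset ℕ)]
  · rw [Finset.sum_insert, Finset.sum_singleton,
      entD_self, entD_neg (i := n - 3) (j := j) (by omega)]
    · ring
    · simp only [Finset.mem_singleton]; omega
  · intro i hi
    simp only [Finset.mem_insert, Finset.mem_singleton] at hi
    omega
  · intro i hi hs
    simp only [Finset.mem_insert, Finset.mem_singleton] at hs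
    rw [entD_zero (by omega) (by omega), mul_zero]

end Pool.Q47.Pan
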