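import Pool.Agent.Q47.Pan.RootCode

/-!
# Positive roots of type `E6`
-/

namespace Pool.Q47.Pan

open CartanMatrix

/-- codes of the positive roots -/
def posE6 : List ℕ :=
  [ 1, 16, 256, 4096, 65536, 1048576, 257, 4112, 4352, 69632, 1114112, 4353, 4368, 69648, 69888,
    1118208, 4369, 69889, 69904, 1118224, 1118464, 69905, 74000, 1118465, 1118480, 74001, 1118481,
    1122576, 74257, 1122577, 1188112, 1122833, 1188113, 1188369, 1192465, 1192481 ]

theorem okE6 : RootOK E₆ posE6 := by
  refine ⟨?_, ?_, ?_, ?_⟩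
  · decide
  · decide +kernel
  · decide +kernel
  · decide +kernel

end Pool.Q47.Pan
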