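import Pool.Agent.Q47.Pan.RootCode

/-!
# Positive roots of type `E7`
-/

namespace Pool.Q47.Pan

open CartanMatrix

/-- codes of the positive roots -/
def posE7 : List ℕ :=
  [ 1, 16, 256, 4096, 65536, 1048576, 16777216, 257, 4112, 4352, 69632, 1114112, 17825792, 4353,
    4368, 69648, 69888, 1118208, 17891328, 4369, 69889, 69904, 1118224, 1118464, 17895424, 69905,
    74000, 1118465, 1118480, 17895440, 17895680, 74001, 1118481, 1122576, 17895681, 17895696, 74257,
    1122577, 1188112, 17895697, 17899792, 1122833, 1188113, 17899793, 17965328, 1188369, 17900049,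
    17965329, 19013904, 1192465, 17965585, 19013905, 1192481, 17969681, 19014161, 17969697,
    19018257, 19018273, 19083793, 19083809, 19087905, 19088161, 19088162 ]

theorem okE7 : RootOK E₇ posE7 := by
  refine ⟨?_, ?_, ?_, ?_⟩
  · decide
  · decide +kernel
  · decide +kernel
  · decide +kernel

end Pool.Q47.Pan
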