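import Pool.Agent.Q47.Pan.RootCode

/-!
# Positive roots of type `E8`
-/

namespace Pool.Q47.Pan

open CartanMatrix

/-- codes of the positive roots -/
def posE8 : List ℕ :=
  [ 1, 16, 256, 4096, 65536, 1048576, 16777216, 268435456, 257, 4112, 4352, 69632, 1114112,
    17825792, 285212672, 4353, 4368, 69648, 69888, 1118208, 17891328, 286261248, 4369, 69889, 69904,
    1118224, 1118464, 17895424, 286326784, 69905, 74000, 1118465, 1118480, 17895440, 17895680,
    286330880, 74001, 1118481, 1122576, 17895681, 17895696, 286330896, 286331136, 74257, 1122577,
    1188112, 17895697, 17899792, 286331137, 286331152, 1122833, 1188113, 17899793, 17965328,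
    286331153, 286335248, 1188369, 17900049, 17965329, 19013904, 286335249, 286400784, 1192465,
    17965585, 19013905, 286335505, 286400785, 287449360, 1192481, 17969681, 19014161, 286401041,
    287449361, 304226576, 17969697, 19018257, 286405137, 287449617, 304226577, 19018273, 19083793,
    286405153, 287453713, 304226833, 19083809, 287453729, 287519249, 304230929, 19087905, 287519265,
    304230945, 304296465, 19088161, 287523361, 304296481, 305345041, 19088162, 287523617, 304300577,
    305345057, 287523618, 304300833, 305349153, 304300834, 305349409, 305414689, 305349410,
    305414945, 305414946, 305419041, 305419042, 305419057, 305419058, 305419298, 305419314,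
    305423410, 305488946, 306537522, 323314738, 591750194 ]

theorem okE8 : RootOK E₈ posE8 := by
  refine ⟨?_, ?_, ?_, ?_⟩
  · decide
  · decide +kernel
  · decide +kernel
  · decide +kernel

end Pool.Q47.Pan
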