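import Pool.Agent.Q47.Pan.RootCode

/-!
# Positive roots of type `F4`
-/

namespace Pool.Q47.Pan

open CartanMatrix

/-- codes of the positive roots -/
def posF4 : List ℕ :=
  [ 1, 16, 256, 4096, 17, 272, 4352, 273, 528, 4368, 529, 4369, 4624, 545, 4625, 8720, 4641, 8721,
    4897, 8737, 8993, 9249, 9265, 9266 ]

theorem okF4 : RootOK F₄ posF4 := by
  refine ⟨?_, ?_, ?_, ?_⟩
  · decide
  · decide +kernel
  · decide +kernel
  · decide +kernel

end Pool.Q47.Pan
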