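import Pool.Agent.Q47.Pan.RootCode

/-!
# Positive roots of type `G2`
-/

namespace Pool.Q47.Pan

open CartanMatrix

/-- codes of the positive roots -/
def posG2 : List ℕ :=
  [ 1, 16, 17, 33, 49, 50 ]

theorem okG2 : RootOK G₂ posG2 := by
  refine ⟨?_, ?_, ?_, ?_⟩
  · decide
  · decide +kernel
  · decide +kernel
  · decide +kernel

end Pool.Q47.Pan
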