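import Pool.Agent.Q47.Pan.RootCode

/-!
# Splitting the enumeration into parts
-/

namespace Pool.Q47.Pan

theorem allI_append (Q : ℕ → Bool) (l1 l2 : List (ℕ × ℕ)) (J : ℕ) :
    allI Q (l1 ++ l2) J = allI (fun K => allI Q l2 K) l1 J := by
  induction l1 generalizing J with
  | nil => rfl
  | cons p l ih =>
    rw [List.cons_append, allI, allI, ih]
    cases Nat.beq (Nat.land p.2 J) p.2
    · rfl
    · simp only [ih]

/-- the list of all ideals of the part of the poset described by the table -/
def lv : List (ℕ × ℕ) → ℕ → List ℕ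
  | [], J => [J]
  | p :: l, J => lv l J ++
    (match Nat.beq (Nat.land p.2 J) p.2 with
    | true => lv l (Nat.lor J p.1)
    | false => [])

theorem allI_eq_all (Q : ℕ → Bool) (l : List (ℕ × ℕ)) (J : ℕ) : allI Q l J = (lv l J).all Q := by
  induction l generalizing J with
  | nil => simp [allI, lv]
  | cons p l ih =>
    rw [allI, lv, List.all_append, ih]
    cases Nat.beq (Nat.land p.2 J) p.2
    · rfl
    · simp only [ih]

/-- the enumeration is complete once its parts, listed in `G`, are -/
theorem allI_split (Q : ℕ → Bool) (l1 l2 : List (ℕ × ℕ)) (G : List (List ℕ))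
    (h1 : lv l1 0 = G.flatten)
    (h2 : ∀ g ∈ G, g.all (fun K => allI Q l2 K) = true) : allI Q (l1 ++ l2) 0 = true := by
  rw [allI_append, allI_eq_all, h1, List.all_eq_true]
  intro J hJ
  obtain ⟨g, hg, hgJ⟩ := List.mem_flatten.1 hJ
  have h3 := h2 g hg
  rw [List.all_eq_true] at h3
  exact h3 J hgJ

end Pool.Q47.Pan
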