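import Pool.Agent.Q47.Pan.Roots
import Pool.Agent.Q47.Pan.Chain

/-!
# Type `A`
-/

namespace Pool.Q47.Pan

open Set Function CartanMatrix

/-- step function -/
def u (x k : ℕ) : ℤ := if x ≤ k then 1 else 0

/-- the transposition of `j` and `j+1` -/
def sw (j a : ℕ) : ℕ := if a = j then j + 1 else if a = j + 1 then j else a

theorem u_le {x k : ℕ} (h : x ≤ k) : u x k = 1 := by unfold u; rw [if_pos h]

theorem u_lt {x k : ℕ} (h : k < x) : u x k = 0 := by unfold u; rw [if_neg (by omega)]

theorem sw_ne {j a b : ℕ} (h : a ≠ b) : sw j a ≠ sw j b := by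
  unfold sw; split_ifs <;> omega

theorem sw_le {j a n : ℕ} (h : a ≤ n) (hj : j < n) : sw j a ≤ n := by
  unfold sw; split_ifs <;> omega

theorem sw_lt {j a n : ℕ} (h : a < n) (hj : j + 1 < n) : sw j a < n := by
  unfold sw; split_ifs <;> omega

theorem u_sw_ne {j k x : ℕ} (h : k ≠ j) : u (sw j x) k = u x k := by
  unfold u sw; split_ifs <;> omega

theorem u_sw_self (j x : ℕ) :
    u (sw j x) j = (if 0 < j then u x (j - 1) else 0) + u x (j + 1) - u x j := by
  unfold u sw; split_ifs <;> omega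

/-- the roots of type `A` -/
def PhiA (n : ℕ) (v : Fin n → ℤ) : Prop :=
  ∃ a b, a ≤ n ∧ b ≤ n ∧ a ≠ b ∧ v = res n (fun k => u a k - u b k)

theorem PhiA_of_root {n : ℕ} {v : Fin n → ℤ} (h : IsRoot (A n) v) : PhiA n v := by
  refine IsRoot.forall_of (PhiA n) ?_ ?_ h
  · intro j
    refine ⟨j, j + 1, by omega, by omega, by omega, ?_⟩
    rw [single_eq_res]
    congr 1
    funext k
    unfold u
    split_ifs <;> omega
  · rintro ⟨j, hj⟩ v ⟨a, b, ha, hb, hab, rfl⟩
    refine ⟨sw j a, sw j b, sw_le ha hj, sw_le hb hj, sw_ne hab, ?_⟩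
    apply sref_res
    · rw [pairA]
      have h1 := u_sw_self j a
      have h2 := u_sw_self j b
      by_cases c1 : 0 < j <;> by_cases c2 : j + 1 < n
      · simp only [if_pos c1, if_pos c2] at h1 h2 ⊢
        omega
      · simp only [if_pos c1, if_neg c2] at h1 h2 ⊢
        have h3 := u_le (show a ≤ j + 1 by omega)
        have h4 := u_le (show b ≤ j + 1 by omega)
        omega
      · simp only [if_neg c1, if_pos c2] at h1 h2 ⊢
        omega
      · simp only [if_neg c1, if_neg c2] at h1 h2 ⊢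
        have h3 := u_le (show a ≤ j + 1 by omega)
        have h4 := u_le (show b ≤ j + 1 by omega)
        omega
    · intro k _ hkj
      rw [u_sw_ne hkj, u_sw_ne hkj]

/-- the roots with coefficient `1` at `i` -/
def gA (i p q : ℕ) (k : ℕ) : ℤ := if k ≤ i then (if i ≤ k + p then 1 else 0) else
  (if k ≤ i + q then 1 else 0)

theorem gA_root {n i : ℕ} (hi : i < n) (p q : ℕ) (hp : p ≤ i) (hq : q + i < n) :
    IsRoot (A n) (res n (gA i p q)) := by
  induction p with
  | zero =>
    induction q with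
    | zero =>
      refine IsRoot.base _ i hi fun k _ => ?_
      unfold gA
      split_ifs <;> omega
    | succ q ih =>
      refine IsRoot.step (i + q + 1) (by omega) (ih (by omega)) ?_ ?_
      · rw [pairA]
        unfold gA
        split_ifs <;> omega
      · intro k _ hk
        unfold gA
        split_ifs <;> omega
  | succ p ih =>
    refine IsRoot.step (i - p - 1) (by omega) (ih (by omega)) ?_ ?_
    · rw [pairA]
      unfold gA
      split_ifs <;> omega
    · intro k _ hk
      unfold gA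
      split_ifs <;> omega

theorem DeltaA {n i : ℕ} (hi : i < n) :
    Delta1 (A n) ⟨i, hi⟩ = (fun x : ℕ × ℕ => res n (gA i x.1 x.2)) '' PC (i + 1) (n - i) := by
  ext v
  constructor
  · rintro ⟨hv, hvi⟩
    obtain ⟨a, b, ha, hb, hab, rfl⟩ := PhiA_of_root hv
    have hvi' : u a i - u b i = 1 := hvi
    have h1 : a ≤ i ∧ i < b := by
      unfold u at hvi'
      split_ifs at hvi' <;> omega
    refine ⟨(i - a, b - 1 - i), ⟨by simp only; omega, by simp only; omega⟩, ?_⟩
    simp only
    congr 1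
    funext k
    unfold gA u
    split_ifs <;> omega
  · rintro ⟨⟨p, q⟩, ⟨hp, hq⟩, rfl⟩
    simp only at hp hq ⊢
    refine ⟨gA_root hi p q (by omega) (by omega), ?_⟩
    change gA i p q i = 1
    unfold gA
    split_ifs <;> omega

theorem ordA {n i : ℕ} (_hi : i < n) : ∀ x ∈ PC (i + 1) (n - i), ∀ y ∈ PC (i + 1) (n - i),
    (fun x : ℕ × ℕ => res n (gA i x.1 x.2)) x ≤ (fun x : ℕ × ℕ => res n (gA i x.1 x.2)) y ↔
      x ≤ y := by
  rintro ⟨p, q⟩ ⟨hp, hq⟩ ⟨p', q'⟩ ⟨hp', hq'⟩
  simp only at hp hq hp' hq' ⊢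
  rw [Prod.mk_le_mk]
  constructor
  · intro h
    have h1 : gA i p q (i - p) ≤ gA i p' q' (i - p) := h ⟨i - p, by omega⟩
    have h2 : gA i p q (i + q) ≤ gA i p' q' (i + q) := h ⟨i + q, by omega⟩
    unfold gA at h1 h2
    constructor
    · clear h2
      split_ifs at h1 <;> omega
    · clear h1
      split_ifs at h2 <;> omega
  · rintro ⟨h1, h2⟩ ⟨k, hk⟩
    rw [res_apply, res_apply]
    simp only
    unfold gA
    split_ifs <;> omega

end Pool.Q47.Pan
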