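import Pool.Agent.Q47.Pan.Fine

/-!
# Type `B`
-/

namespace Pool.Q47.Pan

open Set Function CartanMatrix

/-- the roots of type `B` -/
def PhiB (n : ℕ) (v : Fin n → ℤ) : Prop :=
  (∃ a s, a < n ∧ (s = 1 ∨ s = -1) ∧ v = res n (fun k => s * u a k)) ∨
  (∃ a b s t, a < n ∧ b < n ∧ a ≠ b ∧ (s = 1 ∨ s = -1) ∧ (t = 1 ∨ t = -1) ∧
    v = res n (fun k => s * u a k + t * u b k))

theorem PhiB_of_root {n : ℕ} (hn : 2 ≤ n) {v : Fin n → ℤ} (h : IsRoot (B n) v) : PhiB n v := by
  refine IsRoot.forall_of (PhiB n) ?_ ?_ h
  · intro j
    by_cases c : (j : ℕ) + 1 < n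
    · right
      refine ⟨j, j + 1, 1, -1, by omega, by omega, by omega, Or.inl rfl, Or.inr rfl, ?_⟩
      rw [single_eq_res]
      congr 1
      funext k
      unfold u
      try simp (disch := omega) only [if_pos, if_neg]
      try first | omega | (split_ifs <;> omega)
    · left
      refine ⟨j, 1, j.2, Or.inl rfl, ?_⟩
      funext k
      have h1 := k.2
      have h2 := j.2
      rw [single_eq_res, res_apply, res_apply]
      unfold u
      try simp (disch := omega) only [if_pos, if_neg]
      try first | omega | (split_ifs <;> omega)
  · rintro ⟨j, hj⟩ v (⟨a, s, ha, hs, rfl⟩ | ⟨a, b, s, t, ha, hb, hab, hs, ht, rfl⟩)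
    · left
      by_cases c : j + 1 < n
      · refine ⟨sw j a, s, sw_lt ha c, hs, sref_res j hj ?_ ?_⟩
        · rw [pairB, if_neg (show ¬ j + 1 = n by omega), if_pos c, u_sw_self]
          rcases hs with rfl | rfl <;> split_ifs <;> omega
        · intro k _ hkj
          rw [u_sw_ne hkj]
      · refine ⟨a, if a + 1 = n then -s else s, ha, ?_, sref_res j hj ?_ ?_⟩
        · rcases hs with rfl | rfl <;> split_ifs <;> simp
        · rw [pairB, if_pos (show 0 < j by omega), if_pos (show j + 1 = n by omega), if_neg c]
          rcases hs with rfl | rfl <;> unfold u <;> (try simp (disch := omega) only [if_pos, if_neg]) <;>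
            (try first | omega | (split_ifs <;> omega))
        · intro k hkn hkj
          rcases hs with rfl | rfl <;> unfold u <;> (try simp (disch := omega) only [if_pos, if_neg]) <;>
            (try first | omega | (split_ifs <;> omega))
    · right
      by_cases c : j + 1 < n
      · refine ⟨sw j a, sw j b, s, t, sw_lt ha c, sw_lt hb c, sw_ne hab, hs, ht,
          sref_res j hj ?_ ?_⟩
        · rw [pairB, if_neg (show ¬ j + 1 = n by omega), if_pos c, u_sw_self, u_sw_self]
          rcases hs with rfl | rfl <;> rcases ht with rfl | rfl <;> split_ifs <;> omega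
        · intro k _ hkj
          rw [u_sw_ne hkj, u_sw_ne hkj]
      · refine ⟨a, b, if a + 1 = n then -s else s, if b + 1 = n then -t else t, ha, hb, hab,
          ?_, ?_, sref_res j hj ?_ ?_⟩
        · rcases hs with rfl | rfl <;> split_ifs <;> simp
        · rcases ht with rfl | rfl <;> split_ifs <;> simp
        · rw [pairB, if_pos (show 0 < j by omega), if_pos (show j + 1 = n by omega), if_neg c]
          rcases hs with rfl | rfl <;> rcases ht with rfl | rfl <;> unfold u <;>
            split_ifs <;> omega
        · intro k hkn hkj
          rcases hs with rfl | rfl <;> rcases ht with rfl | rfl <;> unfold u <;>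
            split_ifs <;> omega

/-- the roots with coefficient `1` at `i` -/
def gB (n i p q : ℕ) (k : ℕ) : ℤ := if k ≤ i then (if i ≤ k + p then 1 else 0) else
  (if k ≤ i + q then 1 else 0) + (if 2 * n ≤ k + q + i + 1 then 1 else 0)

theorem uB_root {n : ℕ} (hn : 2 ≤ n) (c : ℕ) (hc : c < n) : IsRoot (B n) (res n (u c)) := by
  obtain ⟨d, hd⟩ : ∃ d, c + d = n - 1 := ⟨n - 1 - c, by omega⟩
  induction d generalizing c with
  | zero =>
    refine IsRoot.base _ c hc fun k hk => ?_
    unfold u
    try simp (disch := omega) only [if_pos, if_neg]
    try first | omega | (split_ifs <;> omega)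
  | succ d ih =>
    refine IsRoot.step c hc (ih (c + 1) (by omega) (by omega)) ?_ ?_
    · rw [pairB]
      unfold u
      try simp (disch := omega) only [if_pos, if_neg]
      try first | omega | (split_ifs <;> omega)
    · intro k _ hk
      unfold u
      try simp (disch := omega) only [if_pos, if_neg]
      try first | omega | (split_ifs <;> omega)

theorem gB_root0 {n i : ℕ} (hn : 2 ≤ n) (hi : i < n) (q : ℕ) (hq : q < 2 * (n - 1 - i) + 1) :
    IsRoot (B n) (res n (gB n i 0 q)) := by
  by_cases hm : q = n - 1 - i
  · have : res n (gB n i 0 q) = res n (u i) := by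
      funext k
      have := k.2
      rw [res_apply, res_apply]
      unfold gB u
      try simp (disch := omega) only [if_pos, if_neg]
      try first | omega | (split_ifs <;> omega)
    rw [this]
    exact uB_root hn i hi
  · induction q using Nat.strong_induction_on with
    | _ q ih =>
      by_cases h0 : q = 0
      · subst h0
        refine IsRoot.base _ i hi fun k _ => ?_
        unfold gB
        try simp (disch := omega) only [if_pos, if_neg]
        try first | omega | (split_ifs <;> omega)
      · by_cases h1 : q < n - 1 - i
        · refine IsRoot.step (i + q) (by omega) (ih (q - 1) (by omega) (by omega) (by omega)) ?_ ?_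
          · rw [pairB]
            unfold gB
            try simp (disch := omega) only [if_pos, if_neg]
            try first | omega | (split_ifs <;> omega)
          · intro k _ hk
            unfold gB
            try simp (disch := omega) only [if_pos, if_neg]
            try first | omega | (split_ifs <;> omega)
        · by_cases h2 : q = n - 1 - i + 1
          · refine IsRoot.step (n - 1) (by omega) (ih (q - 2) (by omega) (by omega) (by omega)) ?_ ?_
            · rw [pairB]
              unfold gB
              try simp (disch := omega) only [if_pos, if_neg]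
              try first | omega | (split_ifs <;> omega)
            · intro k _ hk
              unfold gB
              try simp (disch := omega) only [if_pos, if_neg]
              try first | omega | (split_ifs <;> omega)
          · refine IsRoot.step (2 * n - 1 - i - q) (by omega)
              (ih (q - 1) (by omega) (by omega) (by omega)) ?_ ?_
            · rw [pairB]
              unfold gB
              try simp (disch := omega) only [if_pos, if_neg]
              try first | omega | (split_ifs <;> omega)
            · intro k _ hk
              unfold gB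
              try simp (disch := omega) only [if_pos, if_neg]
              try first | omega | (split_ifs <;> omega)

theorem gB_root {n i : ℕ} (hn : 2 ≤ n) (hi : i < n) (p q : ℕ) (hp : p ≤ i)
    (hq : q < 2 * (n - 1 - i) + 1) : IsRoot (B n) (res n (gB n i p q)) := by
  induction p with
  | zero => exact gB_root0 hn hi q hq
  | succ p ih =>
    refine IsRoot.step (i - p - 1) (by omega) (ih (by omega)) ?_ ?_
    · rw [pairB]
      unfold gB
      try simp (disch := omega) only [if_pos, if_neg]
      try first | omega | (split_ifs <;> omega)
    · intro k _ hk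
      unfold gB
      try simp (disch := omega) only [if_pos, if_neg]
      try first | omega | (split_ifs <;> omega)

theorem DeltaB {n i : ℕ} (hn : 2 ≤ n) (hi : i < n) :
    Delta1 (B n) ⟨i, hi⟩ =
      (fun x : ℕ × ℕ => res n (gB n i x.1 x.2)) '' PC (i + 1) (2 * (n - 1 - i) + 1) := by
  ext v
  constructor
  · rintro ⟨hv, hvi⟩
    rcases PhiB_of_root hn hv with ⟨a, s, ha, hs, rfl⟩ | ⟨a, b, s, t, ha, hb, hab, hs, ht, rfl⟩
    · have hvi' : s * u a i = 1 := hvi
      have h1 : a ≤ i ∧ s = 1 := by
        unfold u at hvi'
        rcases hs with rfl | rfl <;> split_ifs at hvi' <;> omega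
      obtain ⟨h1, rfl⟩ := h1
      refine ⟨(i - a, n - 1 - i), ⟨by simp only; omega, by simp only; omega⟩, ?_⟩
      funext k
      have := k.2
      simp only [res_apply]
      unfold gB u
      try simp (disch := omega) only [if_pos, if_neg]
      try first | omega | (split_ifs <;> omega)
    · have hvi' : s * u a i + t * u b i = 1 := hvi
      have h1 : (a ≤ i ∧ i < b ∧ s = 1) ∨ (b ≤ i ∧ i < a ∧ t = 1) := by
        unfold u at hvi'
        rcases hs with rfl | rfl <;> rcases ht with rfl | rfl <;> split_ifs at hvi' <;> omega
      rcases h1 with ⟨h1, h2, rfl⟩ | ⟨h1, h2, rfl⟩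
      · rcases ht with rfl | rfl
        · refine ⟨(i - a, 2 * n - 1 - i - b), ⟨by simp only; omega, by simp only; omega⟩, ?_⟩
          funext k
          have := k.2
          simp only [res_apply]
          unfold gB u
          try simp (disch := omega) only [if_pos, if_neg]
          try first | omega | (split_ifs <;> omega)
        · refine ⟨(i - a, b - 1 - i), ⟨by simp only; omega, by simp only; omega⟩, ?_⟩
          funext k
          have := k.2
          simp only [res_apply]
          unfold gB u
          try simp (disch := omega) only [if_pos, if_neg]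
          try first | omega | (split_ifs <;> omega)
      · rcases hs with rfl | rfl
        · refine ⟨(i - b, 2 * n - 1 - i - a), ⟨by simp only; omega, by simp only; omega⟩, ?_⟩
          funext k
          have := k.2
          simp only [res_apply]
          unfold gB u
          try simp (disch := omega) only [if_pos, if_neg]
          try first | omega | (split_ifs <;> omega)
        · refine ⟨(i - b, a - 1 - i), ⟨by simp only; omega, by simp only; omega⟩, ?_⟩
          funext k
          have := k.2
          simp only [res_apply]
          unfold gB u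
          try simp (disch := omega) only [if_pos, if_neg]
          try first | omega | (split_ifs <;> omega)
  · rintro ⟨⟨p, q⟩, ⟨hp, hq⟩, rfl⟩
    simp only at hp hq ⊢
    refine ⟨gB_root hn hi p q (by omega) (by omega), ?_⟩
    change gB n i p q i = 1
    unfold gB
    try simp (disch := omega) only [if_pos, if_neg]
    try first | omega | (split_ifs <;> omega)

theorem ordB {n i : ℕ} (_hi : i < n) : ∀ x ∈ PC (i + 1) (2 * (n - 1 - i) + 1),
    ∀ y ∈ PC (i + 1) (2 * (n - 1 - i) + 1),
    (fun x : ℕ × ℕ => res n (gB n i x.1 x.2)) x ≤ (fun x : ℕ × ℕ => res n (gB n i x.1 x.2)) y ↔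
      x ≤ y := by
  rintro ⟨p, q⟩ ⟨hp, hq⟩ ⟨p', q'⟩ ⟨hp', hq'⟩
  simp only at hp hq hp' hq' ⊢
  rw [Prod.mk_le_mk]
  constructor
  · intro h
    have h1 : gB n i p q (i - p) ≤ gB n i p' q' (i - p) := h ⟨i - p, by omega⟩
    constructor
    · unfold gB at h1
      split_ifs at h1 <;> omega
    · by_cases c : q ≤ n - 1 - i
      · have h2 : gB n i p q (i + q) ≤ gB n i p' q' (i + q) := h ⟨i + q, by omega⟩
        unfold gB at h2
        clear h1
        split_ifs at h2 <;> omega
      · have h2 : gB n i p q (2 * n - 1 - i - q) ≤ gB n i p' q' (2 * n - 1 - i - q) :=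
          h ⟨2 * n - 1 - i - q, by omega⟩
        unfold gB at h2
        clear h1
        split_ifs at h2 <;> omega
  · rintro ⟨h1, h2⟩ ⟨k, hk⟩
    rw [res_apply, res_apply]
    simp only
    unfold gB
    try simp (disch := omega) only [if_pos, if_neg]
    try first | omega | (split_ifs <;> omega)

theorem fineB {n i : ℕ} (hn : 2 ≤ n) (hi : i < n) : Fine (B n) ⟨i, hi⟩ := by
  refine Fine.of_model (P := PC (i + 1) (2 * (n - 1 - i) + 1))
    (N := (i + 1) + (2 * (n - 1 - i) + 1)) (by omega)
    (PC_finite _ _) (PC_good (by omega) (by omega)) (fun x => res n (gB n i x.1 x.2))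
    (DeltaB hn hi) (ordB hi) (i, 2 * (n - 1 - i)) ⟨by simp only; omega, by simp only; omega⟩ ?_ ?_
  · rintro ⟨p, q⟩ ⟨hp, hq⟩
    simp only at hp hq
    exact Prod.mk_le_mk.2 ⟨by omega, by omega⟩
  · simp only
    rw [ht_res, Finset.sum_congr rfl (g := fun k => u 0 k + u (i + 1) k),
      Finset.sum_add_distrib, sum_u, sum_u]
    · omega
    · intro k hk
      rw [Finset.mem_range] at hk
      unfold gB u
      try simp (disch := omega) only [if_pos, if_neg]
      try first | omega | (split_ifs <;> omega)

end Pool.Q47.Pan
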