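import Pool.Agent.Q47.Pan.Fine
import Pool.Agent.Q47.Pan.Double

/-!
# Type `D`: the roots, and the nodes on the long arm
-/

namespace Pool.Q47.Pan

open Set Function CartanMatrix

/-- coordinates of the roots of type `D` -/
def vD (n a b : ℕ) (s t c d : ℤ) (k : ℕ) : ℤ :=
  if k + 2 < n then s * u a k + t * u b k else if k + 2 = n then c else d

/-- sign of the `n-2`nd coordinate of twice the weight -/
def ep (n a : ℕ) : ℤ := if a + 1 = n then -1 else 1

/-- the roots of type `D` -/
def PhiD (n : ℕ) (v : Fin n → ℤ) : Prop :=
  ∃ a b s t c d, a < n ∧ b < n ∧ (s = 1 ∨ s = -1) ∧ (t = 1 ∨ t = -1) ∧ a ≠ b ∧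
    s * ep n a + t * ep n b = 2 * c ∧ s + t = 2 * d ∧ v = res n (vD n a b s t c d)

theorem vD_lt {n a b : ℕ} {s t c d : ℤ} {k : ℕ} (h : k + 2 < n) :
    vD n a b s t c d k = s * u a k + t * u b k := by
  unfold vD; rw [if_pos h]

theorem vD_c {n a b : ℕ} {s t c d : ℤ} {k : ℕ} (h : k + 2 = n) : vD n a b s t c d k = c := by
  unfold vD; rw [if_neg (by omega), if_pos h]

theorem vD_d {n a b : ℕ} {s t c d : ℤ} {k : ℕ} (h : n < k + 2) : vD n a b s t c d k = d := by
  unfold vD; rw [if_neg (by omega), if_neg (by omega)]

theorem ep_sw {n j a : ℕ} (h : j + 2 < n) : ep n (sw j a) = ep n a := by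
  unfold ep sw; split_ifs <;> omega

theorem PhiD_of_root {n : ℕ} (hn : 4 ≤ n) {v : Fin n → ℤ} (h : IsRoot (D n) v) : PhiD n v := by
  refine IsRoot.forall_of (PhiD n) ?_ ?_ h
  · intro j
    have hj := j.2
    by_cases c : (j : ℕ) + 2 < n
    · refine ⟨j, j + 1, 1, -1, 0, 0, by omega, by omega, Or.inl rfl, Or.inr rfl, by omega, ?_,
        by omega, ?_⟩
      · unfold ep; split_ifs <;> omega
      · funext k
        have h1 := k.2
        rw [single_eq_res, res_apply, res_apply]
        unfold vD u
        split_ifs <;> omega
    · by_cases c' : (j : ℕ) + 2 = n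
      · refine ⟨n - 2, n - 1, 1, -1, 1, 0, by omega, by omega, Or.inl rfl, Or.inr rfl, by omega,
          ?_, by omega, ?_⟩
        · unfold ep; split_ifs <;> omega
        · funext k
          have h1 := k.2
          rw [single_eq_res, res_apply, res_apply]
          unfold vD u
          split_ifs <;> omega
      · refine ⟨n - 2, n - 1, 1, 1, 0, 1, by omega, by omega, Or.inl rfl, Or.inl rfl, by omega,
          ?_, by omega, ?_⟩
        · unfold ep; split_ifs <;> omega
        · funext k
          have h1 := k.2
          rw [single_eq_res, res_apply, res_apply]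
          unfold vD u
          split_ifs <;> omega
  · rintro ⟨j, hj⟩ v ⟨a, b, s, t, c, d, ha, hb, hs, ht, hab, hc, hd, rfl⟩
    by_cases c1 : j + 2 < n
    · refine ⟨sw j a, sw j b, s, t, c, d, sw_lt ha (by omega), sw_lt hb (by omega), hs, ht,
          sw_ne hab, by rw [ep_sw c1, ep_sw c1]; exact hc, hd, sref_res j hj ?_ ?_⟩
      · rw [vD_lt (k := j) c1, vD_lt (k := j) c1, u_sw_self, u_sw_self]
        by_cases c2 : j + 3 < n
        · have e0 : (if 0 < j then vD n a b s t c d (j - 1) else 0) =
            s * (if 0 < j then u a (j - 1) else 0) + t * (if 0 < j then u b (j - 1) else 0) := by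
            by_cases c3 : 0 < j
            · rw [if_pos c3, if_pos c3, if_pos c3, vD_lt (by omega)]
            · rw [if_neg c3, if_neg c3, if_neg c3]; ring
          rw [pairD1 hn _ j hj c2, e0, vD_lt c1, vD_lt (k := j + 1) (by omega)]
          ring
        · have e1 : vD n a b s t c d (j + 1) = c := vD_c (by omega)
          have e2 : vD n a b s t c d (j + 2) = d := vD_d (by omega)
          rw [pairD2 hn _ j hj (by omega), e1, e2, vD_lt c1, vD_lt (k := j - 1) (by omega),
            if_pos (by omega), if_pos (by omega)]
          have e3 : s * u a (j + 1) + t * u b (j + 1) = c + d := by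
            unfold ep at hc
            unfold u
            rcases hs with rfl | rfl <;> rcases ht with rfl | rfl <;>
              split_ifs at hc ⊢ <;> omega
          linear_combination e3
      · intro k _ hkj
        by_cases c2 : k + 2 < n
        · rw [vD_lt c2, vD_lt c2, u_sw_ne hkj, u_sw_ne hkj]
        · by_cases c3 : k + 2 = n
          · rw [vD_c c3, vD_c c3]
          · rw [vD_d (by omega), vD_d (by omega)]
    · by_cases c1' : j + 2 = n
      · refine ⟨sw j a, sw j b, s, t, - c + s * u a (n - 3) + t * u b (n - 3), d,
          sw_lt ha (by omega), sw_lt hb (by omega), hs, ht, sw_ne hab, ?_, hd,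
          sref_res j hj ?_ ?_⟩
        · unfold ep at hc ⊢
          unfold u sw
          rcases hs with rfl | rfl <;> rcases ht with rfl | rfl <;>
            split_ifs at hc ⊢ <;> omega
        · rw [pairD3 hn _ j hj (by omega), vD_c c1', vD_c c1', vD_lt (k := n - 3) (by omega)]
          ring
        · intro k _ hkj
          by_cases c2 : k + 2 < n
          · rw [vD_lt c2, vD_lt c2, u_sw_ne hkj, u_sw_ne hkj]
          · rw [vD_d (by omega), vD_d (by omega)]
      · refine ⟨sw (n - 2) a, sw (n - 2) b, if a + 2 < n then s else -s,
          if b + 2 < n then t else -t, c, - d + s * u a (n - 3) + t * u b (n - 3),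
          sw_lt ha (by omega), sw_lt hb (by omega), ?_, ?_, sw_ne hab, ?_, ?_,
          sref_res j hj ?_ ?_⟩
        · rcases hs with rfl | rfl <;> split_ifs <;> simp
        · rcases ht with rfl | rfl <;> split_ifs <;> simp
        · unfold ep at hc ⊢
          unfold sw
          rcases hs with rfl | rfl <;> rcases ht with rfl | rfl <;>
            split_ifs at hc ⊢ <;> omega
        · unfold u
          rcases hs with rfl | rfl <;> rcases ht with rfl | rfl <;>
            split_ifs <;> omega
        · rw [pairD3 hn _ j hj (by omega), vD_d (k := j) (by omega), vD_d (k := j) (by omega),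
            vD_lt (k := n - 3) (by omega)]
          ring
        · intro k _ hkj
          by_cases c2 : k + 2 < n
          · rw [vD_lt c2, vD_lt c2, u_sw_ne (by omega), u_sw_ne (by omega)]
            by_cases c3 : a + 2 < n
            · by_cases c4 : b + 2 < n
              · rw [if_pos c3, if_pos c4]
              · rw [if_pos c3, if_neg c4, u_lt (show k < b by omega)]; ring
            · by_cases c4 : b + 2 < n
              · rw [if_neg c3, if_pos c4, u_lt (show k < a by omega)]; ring
              · rw [if_neg c3, if_neg c4, u_lt (show k < a by omega),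
                  u_lt (show k < b by omega)]; ring
          · rw [vD_c (by omega), vD_c (by omega)]

/-! ### nodes `i ≤ n - 3` -/

/-- the roots with coefficient `1` at `i ≤ n - 3` -/
def gD (n i p x y : ℕ) (k : ℕ) : ℤ := if k ≤ i then (if i ≤ k + p then 1 else 0) else
  if k + 2 < n then
    (if k ≤ i + min x y then 1 else 0) + (if 2 * n ≤ k + min x y + i + 4 then 1 else 0)
  else if k + 2 = n then (if n ≤ x + i + 2 then 1 else 0)
  else (if n ≤ y + i + 2 then 1 else 0)

/-- one reflection step in type `D` for the family `gD` -/
theorem stepD {n : ℕ} (hn : 4 ≤ n) {V W : ℕ → ℤ} (j : ℕ) (hj : j < n)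
    (h : IsRoot (D n) (res n V))
    (h1 : j + 3 < n → 2 * V j - (if 0 < j then V (j - 1) else 0) - V (j + 1) = V j - W j)
    (h2 : j + 3 = n → 2 * V j - V (j - 1) - V (j + 1) - V (j + 2) = V j - W j)
    (h3 : n < j + 3 → 2 * V j - V (n - 3) = V j - W j)
    (hW : ∀ k < n, k ≠ j → W k = V k) : IsRoot (D n) (res n W) := by
  refine IsRoot.step j hj h ?_ hW
  rcases lt_trichotomy (j + 3) n with c | c | c
  · rw [pairD1 hn V j hj c, h1 c]
  · rw [pairD2 hn V j hj c, h2 c]
  · rw [pairD3 hn V j hj c, h3 c]

theorem gD_diag {n i : ℕ} (hn : 4 ≤ n) (hi : i + 2 < n) (t : ℕ) (ht : t < 2 * (n - 2 - i)) :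
    IsRoot (D n) (res n (gD n i 0 t t)) := by
  induction t with
  | zero =>
    refine IsRoot.base _ i (by omega) fun k _ => ?_
    unfold gD
    split_ifs <;> omega
  | succ t ih =>
    by_cases c1 : t + 1 < n - 2 - i
    · refine stepD hn (i + t + 1) (by omega) (ih (by omega)) ?_ ?_ ?_ ?_
      · intro c
        unfold gD
        try simp (disch := omega) only [if_pos, if_neg]
        try first | omega | (split_ifs <;> omega)
      · intro c
        unfold gD
        try simp (disch := omega) only [if_pos, if_neg]
        try first | omega | (split_ifs <;> omega)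
      · intro c
        omega
      · intro k _ hk
        unfold gD
        try simp (disch := omega) only [if_pos, if_neg]
        try first | omega | (split_ifs <;> omega)
    · by_cases c2 : t + 1 = n - 2 - i
      · have h1 : IsRoot (D n) (res n (gD n i 0 (t + 1) t)) := by
          refine stepD hn (n - 2) (by omega) (ih (by omega)) ?_ ?_ ?_ ?_
          · intro c; omega
          · intro c; omega
          · intro c
            unfold gD
            try simp (disch := omega) only [if_pos, if_neg]
            try first | omega | (split_ifs <;> omega)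
          · intro k _ hk
            unfold gD
            try simp (disch := omega) only [if_pos, if_neg]
            try first | omega | (split_ifs <;> omega)
        refine stepD hn (n - 1) (by omega) h1 ?_ ?_ ?_ ?_
        · intro c; omega
        · intro c; omega
        · intro c
          unfold gD
          try simp (disch := omega) only [if_pos, if_neg]
          try first | omega | (split_ifs <;> omega)
        · intro k _ hk
          unfold gD
          try simp (disch := omega) only [if_pos, if_neg]
          try first | omega | (split_ifs <;> omega)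
      · refine stepD hn (2 * n - 4 - i - (t + 1)) (by omega) (ih (by omega)) ?_ ?_ ?_ ?_
        · intro c
          unfold gD
          try simp (disch := omega) only [if_pos, if_neg]
          try first | omega | (split_ifs <;> omega)
        · intro c
          unfold gD
          try simp (disch := omega) only [if_pos, if_neg]
          try first | omega | (split_ifs <;> omega)
        · intro c
          omega
        · intro k _ hk
          unfold gD
          try simp (disch := omega) only [if_pos, if_neg]
          try first | omega | (split_ifs <;> omega)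

theorem gD_root0 {n i : ℕ} (hn : 4 ≤ n) (hi : i + 2 < n) (x y : ℕ)
    (hx : x < 2 * (n - 2 - i)) (hy : y < 2 * (n - 2 - i))
    (hxy : x = y ∨ (x = n - 2 - i ∧ y + 1 = n - 2 - i) ∨ (x + 1 = n - 2 - i ∧ y = n - 2 - i)) :
    IsRoot (D n) (res n (gD n i 0 x y)) := by
  rcases hxy with rfl | ⟨h1, h2⟩ | ⟨h1, h2⟩
  · exact gD_diag hn hi x hx
  · refine stepD hn (n - 2) (by omega) (gD_diag hn hi (n - 3 - i) (by omega)) ?_ ?_ ?_ ?_
    · intro c; omega
    · intro c; omega
    · intro c
      unfold gD
      try simp (disch := omega) only [if_pos, if_neg]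
      try first | omega | (split_ifs <;> omega)
    · intro k _ hk
      unfold gD
      try simp (disch := omega) only [if_pos, if_neg]
      try first | omega | (split_ifs <;> omega)
  · refine stepD hn (n - 1) (by omega) (gD_diag hn hi (n - 3 - i) (by omega)) ?_ ?_ ?_ ?_
    · intro c; omega
    · intro c; omega
    · intro c
      unfold gD
      try simp (disch := omega) only [if_pos, if_neg]
      try first | omega | (split_ifs <;> omega)
    · intro k _ hk
      unfold gD
      try simp (disch := omega) only [if_pos, if_neg]
      try first | omega | (split_ifs <;> omega)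

theorem gD_root {n i : ℕ} (hn : 4 ≤ n) (hi : i + 2 < n) (p x y : ℕ) (hp : p ≤ i)
    (hx : x < 2 * (n - 2 - i)) (hy : y < 2 * (n - 2 - i))
    (hxy : x = y ∨ (x = n - 2 - i ∧ y + 1 = n - 2 - i) ∨ (x + 1 = n - 2 - i ∧ y = n - 2 - i)) :
    IsRoot (D n) (res n (gD n i p x y)) := by
  induction p with
  | zero => exact gD_root0 hn hi x y hx hy hxy
  | succ p ih =>
    refine stepD hn (i - p - 1) (by omega) (ih (by omega)) ?_ ?_ ?_ ?_
    · intro c
      unfold gD
      try simp (disch := omega) only [if_pos, if_neg]
      try first | omega | (split_ifs <;> omega)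
    · intro c; omega
    · intro c; omega
    · intro k _ hk
      unfold gD
      try simp (disch := omega) only [if_pos, if_neg]
      try first | omega | (split_ifs <;> omega)

end Pool.Q47.Pan
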