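import Pool.Agent.Q47.Pan.TypeD

/-!
# Type `D`: the nodes on the long arm
-/

namespace Pool.Q47.Pan

open Set Function CartanMatrix

/-- the model map -/
def mD (n i : ℕ) (x : ℕ × ℕ × ℕ) : Fin n → ℤ := res n (gD n i x.1 x.2.1 x.2.2)

theorem mD_cond {n i x y p : ℕ} (hi : i + 2 < n)
    (h : (p, x, y) ∈ PD (i + 1) (n - 2 - i) (2 * (n - 2 - i))) :
    p ≤ i ∧ x < 2 * (n - 2 - i) ∧ y < 2 * (n - 2 - i) ∧
    (x = y ∨ (x = n - 2 - i ∧ y + 1 = n - 2 - i) ∨ (x + 1 = n - 2 - i ∧ y = n - 2 - i)) := by
  rw [mem_PD] at h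
  omega

/-- a root with coefficient `1` at `i` whose head starts at `a ≤ i` and whose other weight
is `t ε_b`, `b > i` -/
theorem gD_eq {n i a b : ℕ} (hn : 4 ≤ n) (hi : i + 2 < n) (ha : a ≤ i) (hb : i < b) (hbn : b < n)
    {t c d : ℤ} (ht : t = 1 ∨ t = -1) (hc : 1 + t * ep n b = 2 * c) (hd : 1 + t = 2 * d) :
    ∃ x y, (x < 2 * (n - 2 - i) ∧ y < 2 * (n - 2 - i) ∧
      (x = y ∨ (x = n - 2 - i ∧ y + 1 = n - 2 - i) ∨ (x + 1 = n - 2 - i ∧ y = n - 2 - i))) ∧
      ∀ k < n, gD n i (i - a) x y k = if k + 2 < n then u a k + t * u b k else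
        if k + 2 = n then c else d := by
  rcases ht with rfl | rfl
  · obtain rfl : d = 1 := by omega
    by_cases c1 : b + 1 = n
    · have hc0 : c = 0 := by
        unfold ep at hc; rw [if_pos c1] at hc; omega
      subst hc0
      refine ⟨n - 3 - i, n - 2 - i, by omega, fun k hk => ?_⟩
      unfold gD u
      try simp (disch := omega) only [if_pos, if_neg]
      try first | omega | (split_ifs <;> omega)
    · have hc0 : c = 1 := by
        unfold ep at hc; rw [if_neg c1] at hc; omega
      subst hc0
      refine ⟨2 * n - 4 - i - b, 2 * n - 4 - i - b, by omega, fun k hk => ?_⟩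
      unfold gD u
      try simp (disch := omega) only [if_pos, if_neg]
      try first | omega | (split_ifs <;> omega)
  · obtain rfl : d = 0 := by omega
    by_cases c1 : b + 1 = n
    · have hc0 : c = 1 := by
        unfold ep at hc; rw [if_pos c1] at hc; omega
      subst hc0
      refine ⟨n - 2 - i, n - 3 - i, by omega, fun k hk => ?_⟩
      unfold gD u
      try simp (disch := omega) only [if_pos, if_neg]
      try first | omega | (split_ifs <;> omega)
    · have hc0 : c = 0 := by
        unfold ep at hc; rw [if_neg c1] at hc; omega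
      subst hc0
      refine ⟨b - 1 - i, b - 1 - i, by omega, fun k hk => ?_⟩
      unfold gD u
      try simp (disch := omega) only [if_pos, if_neg]
      try first | omega | (split_ifs <;> omega)

theorem DeltaD {n i : ℕ} (hn : 4 ≤ n) (hi : i + 2 < n) :
    Delta1 (D n) ⟨i, by omega⟩ = mD n i '' PD (i + 1) (n - 2 - i) (2 * (n - 2 - i)) := by
  ext v
  constructor
  · rintro ⟨hv, hvi⟩
    obtain ⟨a, b, s, t, c, d, ha, hb, hs, ht, hab, hc, hd, rfl⟩ := PhiD_of_root hn hv
    have hvi' : s * u a i + t * u b i = 1 := by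
      rw [← vD_lt (c := c) (d := d) hi]; exact hvi
    have h1 : (a ≤ i ∧ i < b ∧ s = 1) ∨ (b ≤ i ∧ i < a ∧ t = 1) := by
      unfold u at hvi'
      rcases hs with rfl | rfl <;> rcases ht with rfl | rfl <;> split_ifs at hvi' <;> omega
    rcases h1 with ⟨h1, h2, rfl⟩ | ⟨h1, h2, rfl⟩
    · have hea : ep n a = 1 := by unfold ep; rw [if_neg (by omega)]
      obtain ⟨x, y, hxy, hk⟩ := gD_eq hn hi h1 h2 hb ht (c := c) (d := d)
        (by rw [hea] at hc; omega) hd
      refine ⟨(i - a, x, y), mem_PD.2 (by omega), ?_⟩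
      funext k
      change gD n i (i - a) x y k = vD n a b 1 t c d k
      rw [hk k k.2]
      unfold vD
      simp only [one_mul]
    · have hea : ep n b = 1 := by unfold ep; rw [if_neg (by omega)]
      obtain ⟨x, y, hxy, hk⟩ := gD_eq hn hi h1 h2 ha hs (c := c) (d := d)
        (by rw [hea] at hc; omega) (by omega)
      refine ⟨(i - b, x, y), mem_PD.2 (by omega), ?_⟩
      funext k
      change gD n i (i - b) x y k = vD n a b s 1 c d k
      rw [hk k k.2]
      unfold vD
      simp only [one_mul, add_comm]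
  · rintro ⟨⟨p, x, y⟩, hx, rfl⟩
    have h := mD_cond hi hx
    refine ⟨gD_root hn hi p x y h.1 h.2.1 h.2.2.1 h.2.2.2, ?_⟩
    change gD n i p x y i = 1
    unfold gD
    rw [if_pos le_rfl, if_pos (by omega)]

theorem ordD {n i : ℕ} (hi : i + 2 < n) :
    ∀ x ∈ PD (i + 1) (n - 2 - i) (2 * (n - 2 - i)),
    ∀ y ∈ PD (i + 1) (n - 2 - i) (2 * (n - 2 - i)), mD n i x ≤ mD n i y ↔ x ≤ y := by
  rintro ⟨p, x, y⟩ hx ⟨p', x', y'⟩ hx'
  have hc := mD_cond hi hx
  have hc' := mD_cond hi hx'
  clear hx hx'
  rw [le3]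
  constructor
  · intro h
    have h1 : gD n i p x y (i - p) ≤ gD n i p' x' y' (i - p) := h ⟨i - p, by omega⟩
    have h2 : gD n i p x y (n - 2) ≤ gD n i p' x' y' (n - 2) := h ⟨n - 2, by omega⟩
    have h3 : gD n i p x y (n - 1) ≤ gD n i p' x' y' (n - 1) := h ⟨n - 1, by omega⟩
    have h4 : p ≤ p' := by
      unfold gD at h1
      clear h2 h3
      by_contra hcon
      rw [if_pos (by omega), if_pos (by omega), if_pos (by omega), if_neg (by omega)] at h1
      omega
    have h5 : n ≤ x + i + 2 → n ≤ x' + i + 2 := by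
      intro hh
      unfold gD at h2
      clear h1 h3
      by_contra hcon
      rw [if_neg (by omega), if_neg (by omega), if_pos (by omega), if_pos hh,
        if_neg (by omega), if_neg (by omega), if_pos (by omega), if_neg hcon] at h2
      omega
    have h6 : n ≤ y + i + 2 → n ≤ y' + i + 2 := by
      intro hh
      unfold gD at h3
      clear h1 h2
      by_contra hcon
      rw [if_neg (by omega), if_neg (by omega), if_neg (by omega), if_pos hh,
        if_neg (by omega), if_neg (by omega), if_neg (by omega), if_neg hcon] at h3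
      omega
    refine ⟨h4, ?_⟩
    clear h1 h2 h3
    by_cases c0 : x = y
    · subst c0
      by_cases c1 : x < n - 2 - i
      · by_cases c2 : x = 0
        · omega
        · have h7 : gD n i p x x (i + x) ≤ gD n i p' x' y' (i + x) := h ⟨i + x, by omega⟩
          unfold gD at h7
          by_contra hcon
          omega
      · by_cases c2 : x = n - 2 - i
        · omega
        · have h7 : gD n i p x x (2 * n - 4 - i - x) ≤ gD n i p' x' y' (2 * n - 4 - i - x) :=
            h ⟨2 * n - 4 - i - x, by omega⟩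
          unfold gD at h7
          by_contra hcon
          omega
    · omega
  · rintro ⟨h1, h2, h3⟩ ⟨k, hk⟩
    change gD n i p x y k ≤ gD n i p' x' y' k
    unfold gD
    by_cases c1 : k ≤ i
    · simp only [if_pos c1]
      split_ifs <;> omega
    · simp only [if_neg c1]
      by_cases c2 : k + 2 < n
      · simp only [if_pos c2]
        split_ifs <;> omega
      · simp only [if_neg c2]
        split_ifs <;> omega

theorem fineD {n i : ℕ} (hn : 4 ≤ n) (hi : i + 2 < n) : Fine (D n) ⟨i, by omega⟩ := by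
  refine Fine.of_model (P := PD (i + 1) (n - 2 - i) (2 * (n - 2 - i)))
    (N := (i + 1) + (2 * (n - 2 - i) + 1)) (by omega)
    (PD_finite _ _ _) (PD_good (by omega) (by omega) (by omega)) (mD n i)
    (DeltaD hn hi) (ordD hi) (i, 2 * (n - 2 - i) - 1, 2 * (n - 2 - i) - 1)
    (mem_PD.2 (by omega)) ?_ ?_
  · rintro ⟨p, x, y⟩ hx
    have hc := mD_cond hi hx
    exact le3.2 (by omega)
  · unfold mD
    rw [ht_res, Finset.sum_congr rfl (g := fun k => u 0 k + (u (i + 1) k - u (n - 2) k)),
      Finset.sum_add_distrib, Finset.sum_sub_distrib, sum_u, sum_u, sum_u]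
    · omega
    · intro k hk
      rw [Finset.mem_range] at hk
      simp only
      unfold gD u
      by_cases c1 : k ≤ i
      · simp only [if_pos c1]
        split_ifs <;> omega
      · simp only [if_neg c1]
        by_cases c2 : k + 2 < n
        · simp only [if_pos c2]
          split_ifs <;> omega
        · simp only [if_neg c2]
          split_ifs <;> omega

end Pool.Q47.Pan
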